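import Pool.Agent.Work.MP_d0383e_an.Defs

-- merged part: Pool.Agent.Work.MP_d0383e_an.Dir.Sm
section
-- merged part: Pool.Agent.Work.MP_d0383e_an.Trig
section
namespace Pool.Agent.Work.MP_d0383e_an

open scoped ContDiff Laplacian Topology
open Filter Set Real

abbrev Mon : Type := ℝ × ℕ × ℕ × ℕ × ℕ
abbrev Z4 : Type := ℝ × ℝ × ℝ × ℝ

def mv (i j : ℕ) (c s : ℝ) : ℝ := c ^ i * s ^ j
def md (i j : ℕ) (c s : ℝ) : ℝ := -(i : ℝ) * c ^ (i - 1) * s ^ (j + 1) + j * c ^ (i + 1) * s ^ (j - 1)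

def ev : List Mon → Z4 → ℝ
  | [], _ => 0
  | m :: L, z => m.1 * mv m.2.1 m.2.2.1 z.1 z.2.1 * mv m.2.2.2.1 m.2.2.2.2 z.2.2.1 z.2.2.2 + ev L z

def ev1 : List Mon → Z4 → ℝ
  | [], _ => 0
  | m :: L, z => m.1 * md m.2.1 m.2.2.1 z.1 z.2.1 * mv m.2.2.2.1 m.2.2.2.2 z.2.2.1 z.2.2.2 + ev1 L z

def ev2 : List Mon → Z4 → ℝ
  | [], _ => 0
  | m :: L, z => m.1 * mv m.2.1 m.2.2.1 z.1 z.2.1 * md m.2.2.2.1 m.2.2.2.2 z.2.2.1 z.2.2.2 + ev2 L z

@[fun_prop] theorem contDiff_ev (L : List Mon) : ContDiff ℝ ∞ (ev L) := by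
  induction L with
  | nil => exact contDiff_const
  | cons m L ih =>
    change ContDiff ℝ ∞ fun z => _ + ev L z
    unfold mv
    fun_prop

@[fun_prop] theorem contDiff_ev1 (L : List Mon) : ContDiff ℝ ∞ (ev1 L) := by
  induction L with
  | nil => exact contDiff_const
  | cons m L ih =>
    change ContDiff ℝ ∞ fun z => _ + ev1 L z
    unfold mv md
    fun_prop

@[fun_prop] theorem contDiff_ev2 (L : List Mon) : ContDiff ℝ ∞ (ev2 L) := by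
  induction L with
  | nil => exact contDiff_const
  | cons m L ih =>
    change ContDiff ℝ ∞ fun z => _ + ev2 L z
    unfold mv md
    fun_prop

@[fun_prop] theorem cont_ev (L : List Mon) : Continuous (ev L) := (contDiff_ev L).continuous
@[fun_prop] theorem cont_ev1 (L : List Mon) : Continuous (ev1 L) := (contDiff_ev1 L).continuous
@[fun_prop] theorem cont_ev2 (L : List Mon) : Continuous (ev2 L) := (contDiff_ev2 L).continuous

noncomputable def tz (x : ℝ × ℝ) : Z4 :=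
  (cos (2 * π * x.1), sin (2 * π * x.1), cos (2 * π * x.2), sin (2 * π * x.2))

@[fun_prop] theorem contDiff_tz : ContDiff ℝ ∞ tz := by unfold tz; fun_prop

theorem tz_per (x y : ℝ) (m n : ℤ) : tz (x + m, y + n) = tz (x, y) := by
  have h : ∀ (a : ℝ) (k : ℤ), 2 * π * (a + k) = 2 * π * a + k * (2 * π) := by intros; ring
  simp only [tz, h, cos_add_int_mul_two_pi, sin_add_int_mul_two_pi]

theorem hasDerivAt_mv (i j : ℕ) (x : ℝ) :
    HasDerivAt (fun x => mv i j (cos (2 * π * x)) (sin (2 * π * x)))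
      (2 * π * md i j (cos (2 * π * x)) (sin (2 * π * x))) x := by
  have h0 : HasDerivAt (fun x : ℝ => 2 * π * x) (2 * π) x := by
    simpa using (hasDerivAt_id x).const_mul (2 * π)
  have h := (h0.cos.fun_pow i).fun_mul (h0.sin.fun_pow j)
  unfold mv md
  refine h.congr_deriv ?_
  ring

noncomputable abbrev pr (i : Fin 3) : E3 →L[ℝ] ℝ := EuclideanSpace.proj i

theorem hasFDerivAt_ev (L : List Mon) (X : E3) :
    HasFDerivAt (fun X : E3 => ev L (tz (X 0, X 1)))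
      ((2 * π * ev1 L (tz (X 0, X 1))) • pr 0 + (2 * π * ev2 L (tz (X 0, X 1))) • pr 1) X := by
  induction L with
  | nil => simpa [ev, ev1, ev2] using hasFDerivAt_const (0 : ℝ) X
  | cons m L ih =>
    have h0 := (hasDerivAt_mv m.2.1 m.2.2.1 (X 0)).comp_hasFDerivAt X (pr 0).hasFDerivAt
    have h1 := (hasDerivAt_mv m.2.2.2.1 m.2.2.2.2 (X 1)).comp_hasFDerivAt X (pr 1).hasFDerivAt
    have h := ((h0.const_mul m.1).fun_mul h1).fun_add ih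
    refine HasFDerivAt.congr_fderiv h ?_
    ext v
    simp [ev1, ev2, tz]
    ring

theorem grad_eq {U : E3 → ℝ} {X : E3} {a b c : ℝ}
    (h : HasFDerivAt U (a • pr 0 + b • pr 1 + c • pr 2) X) :
    gradient U X = !₂[a, b, c] := by
  apply HasGradientAt.gradient
  rw [hasGradientAt_iff_hasFDerivAt]
  refine h.congr_fderiv ?_
  ext v
  simp [Fin.sum_univ_three, PiLp.inner_apply]
  ring

theorem norm3 (a b c : ℝ) : ‖(!₂[a, b, c] : E3)‖ = √(a ^ 2 + b ^ 2 + c ^ 2) := by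
  rw [EuclideanSpace.norm_eq]; simp [Fin.sum_univ_three]

theorem second_eq {U g0 g1 : E3 → ℝ} {c : ℝ} {X : E3} {h00 h01 h10 h11 : ℝ}
    (h : ∀ Y, HasFDerivAt U (g0 Y • pr 0 + g1 Y • pr 1 + c • pr 2) Y)
    (h0 : HasFDerivAt g0 (h00 • pr 0 + h01 • pr 1) X)
    (h1 : HasFDerivAt g1 (h10 • pr 0 + h11 • pr 1) X) (e e' : E3) :
    iteratedFDeriv ℝ 2 U X ![e, e'] =
      (h00 * e 0 + h01 * e 1) * e' 0 + (h10 * e 0 + h11 * e 1) * e' 1 := by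
  have hf : fderiv ℝ U = fun Y => g0 Y • pr 0 + g1 Y • pr 1 + c • pr 2 :=
    funext fun Y => (h Y).fderiv
  have h2 := (((h0.smul_const (pr 0)).fun_add (h1.smul_const (pr 1))).add_const (c • pr 2)).fderiv
  rw [iteratedFDeriv_two_apply, hf, h2]
  simp

theorem lap_eq {U g0 g1 : E3 → ℝ} {c : ℝ} {X : E3} {h00 h01 h10 h11 : ℝ}
    (h : ∀ Y, HasFDerivAt U (g0 Y • pr 0 + g1 Y • pr 1 + c • pr 2) Y)
    (h0 : HasFDerivAt g0 (h00 • pr 0 + h01 • pr 1) X)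
    (h1 : HasFDerivAt g1 (h10 • pr 0 + h11 • pr 1) X) : Δ U X = h00 + h11 := by
  rw [InnerProductSpace.laplacian_eq_iteratedFDeriv_orthonormalBasis _
    (EuclideanSpace.basisFun (Fin 3) ℝ)]
  simp only [Fin.sum_univ_three, second_eq h h0 h1]
  simp

/-- A smooth doubly periodic function is Lipschitz. -/
theorem lipschitz_of_per (f : ℝ × ℝ → ℝ) (hf : ContDiff ℝ 1 f)
    (hp : ∀ (x y : ℝ) (m n : ℤ), f (x + m, y + n) = f (x, y)) : ∃ K, LipschitzWith K f := by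
  have hc : Continuous (fderiv ℝ f) := hf.continuous_fderiv (by norm_num)
  obtain ⟨M, hM⟩ := ((isCompact_Icc (a := (0 : ℝ)) (b := 1)).prod
    (isCompact_Icc (a := (0 : ℝ)) (b := 1))).exists_bound_of_continuousOn hc.continuousOn
  refine ⟨M.toNNReal, lipschitzWith_of_nnnorm_fderiv_le (hf.differentiable (by norm_num)) ?_⟩
  rintro ⟨x, y⟩
  have h1 : (fun z : ℝ × ℝ => f (z + ((⌊x⌋ : ℝ), (⌊y⌋ : ℝ)))) = f := by
    funext z; exact hp z.1 z.2 _ _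
  have h2 : fderiv ℝ f (x, y) = fderiv ℝ f (Int.fract x, Int.fract y) := by
    conv_rhs => rw [← h1, fderiv_comp_add_right]
    simp
  rw [h2, ← NNReal.coe_le_coe]
  refine (hM _ ⟨⟨Int.fract_nonneg _, (Int.fract_lt_one _).le⟩,
    ⟨Int.fract_nonneg _, (Int.fract_lt_one _).le⟩⟩).trans (Real.le_coe_toNNReal M)

end Pool.Agent.Work.MP_d0383e_an
end

-- merged part: Pool.Agent.Work.MP_d0383e_an.Dir.Sm
section
/-!
The algebra of smooth doubly periodic functions with its normalised partial derivatives.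
-/

namespace Pool.Agent.Work.MP_d0383e_an.Dir

open scoped ContDiff Topology
open Filter Set Real

/-- Smooth `ℤ²`-periodic functions on the plane. -/
def Sm : Subalgebra ℝ (ℝ × ℝ → ℝ) where
  carrier := {F | ContDiff ℝ ∞ F ∧ ∀ (x y : ℝ) (m n : ℤ), F (x + m, y + n) = F (x, y)}
  mul_mem' := fun ha hb =>
    ⟨ha.1.mul hb.1, fun x y m n => by simp only [Pi.mul_apply, ha.2, hb.2]⟩
  add_mem' := fun ha hb =>
    ⟨ha.1.add hb.1, fun x y m n => by simp only [Pi.add_apply, ha.2, hb.2]⟩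
  algebraMap_mem' := fun _ => ⟨contDiff_const, fun _ _ _ _ => rfl⟩

theorem Sm.cd (F : Sm) : ContDiff ℝ ∞ F.1 := F.2.1

theorem Sm.per (F : Sm) (x y : ℝ) (m n : ℤ) : F.1 (x + m, y + n) = F.1 (x, y) := F.2.2 x y m n

theorem Sm.cont (F : Sm) : Continuous F.1 := (Sm.cd F).continuous

theorem Sm.diff (F : Sm) (x : ℝ × ℝ) : DifferentiableAt ℝ F.1 x :=
  ((Sm.cd F).differentiable (by simp)) x

theorem Sm.fract (F : Sm) (x : ℝ × ℝ) : F.1 x = F.1 (Int.fract x.1, Int.fract x.2) := by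
  have := Sm.per F (Int.fract x.1) (Int.fract x.2) ⌊x.1⌋ ⌊x.2⌋
  simpa using this

theorem Sm.fderiv_per (F : Sm) (x y : ℝ) (m n : ℤ) :
    fderiv ℝ F.1 (x + m, y + n) = fderiv ℝ F.1 (x, y) := by
  have h1 : (fun z : ℝ × ℝ => F.1 (z + ((m : ℝ), (n : ℝ)))) = F.1 := by
    funext z; exact Sm.per F z.1 z.2 m n
  conv_rhs => rw [← h1, fderiv_comp_add_right]
  rfl

/-- The directional derivative divided by `2π`. -/
noncomputable def Dv (v : ℝ × ℝ) : Sm →ₗ[ℝ] Sm where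
  toFun F := ⟨fun x => (2 * π)⁻¹ * fderiv ℝ F.1 x v,
    contDiff_const.mul (((Sm.cd F).fderiv_right (m := ∞) (by simp)).clm_apply contDiff_const),
    fun x y m n => by simp only [Sm.fderiv_per]⟩
  map_add' F G := by
    ext x
    change _ * fderiv ℝ (F.1 + G.1) x v = _ * fderiv ℝ F.1 x v + _ * fderiv ℝ G.1 x v
    rw [fderiv_add (Sm.diff F x) (Sm.diff G x)]
    simp only [add_apply]; ring
  map_smul' c F := by
    ext x
    change _ * fderiv ℝ (c • F.1) x v = c * (_ * fderiv ℝ F.1 x v)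
    rw [fderiv_const_smul (Sm.diff F x)]
    simp only [smul_apply, smul_eq_mul]; ring

theorem Dv_apply (v : ℝ × ℝ) (F : Sm) (x : ℝ × ℝ) :
    (Dv v F).1 x = (2 * π)⁻¹ * fderiv ℝ F.1 x v := rfl

theorem Dv_mul (v : ℝ × ℝ) (F G : Sm) : Dv v (F * G) = Dv v F * G + F * Dv v G := by
  ext x
  change _ * fderiv ℝ (F.1 * G.1) x v =
    (_ * fderiv ℝ F.1 x v) * G.1 x + F.1 x * (_ * fderiv ℝ G.1 x v)
  rw [fderiv_mul (Sm.diff F x) (Sm.diff G x)]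
  simp only [add_apply, smul_apply, smul_eq_mul]; ring

theorem Dv_one (v : ℝ × ℝ) : Dv v (1 : Sm) = 0 := by
  ext x
  change _ * fderiv ℝ (fun _ : ℝ × ℝ => (1 : ℝ)) x v = 0
  simp

theorem Dv_comm (v w : ℝ × ℝ) (F : Sm) : Dv v (Dv w F) = Dv w (Dv v F) := by
  ext x
  have hd : DifferentiableAt ℝ (fderiv ℝ F.1) x :=
    (((Sm.cd F).fderiv_right (m := ∞) (by simp)).differentiable (by simp)) x
  have key : ∀ a b : ℝ × ℝ, fderiv ℝ (fun y => (2 * π)⁻¹ * fderiv ℝ F.1 y b) x a =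
      (2 * π)⁻¹ * fderiv ℝ (fderiv ℝ F.1) x a b := by
    intro a b
    have h := ((hd.hasFDerivAt.clm_apply (hasFDerivAt_const b x)).const_mul (2 * π)⁻¹).fderiv
    rw [h]; simp
  change _ * fderiv ℝ (fun y => (2 * π)⁻¹ * fderiv ℝ F.1 y w) x v =
    _ * fderiv ℝ (fun y => (2 * π)⁻¹ * fderiv ℝ F.1 y v) x w
  rw [key, key]
  have hs : IsSymmSndFDerivAt ℝ F.1 x :=
    (Sm.cd F).contDiffAt.isSymmSndFDerivAt (by
      simp only [minSmoothness_of_isRCLikeNormedField]; exact WithTop.coe_le_coe.2 le_top)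
  rw [hs.eq v w]

noncomputable abbrev dx : Sm →ₗ[ℝ] Sm := Dv (1, 0)
noncomputable abbrev dy : Sm →ₗ[ℝ] Sm := Dv (0, 1)

theorem hasFDerivAt_Sm (F : Sm) (X : E3) :
    HasFDerivAt (fun X : E3 => F.1 (X 0, X 1))
      ((2 * π * (dx F).1 (X 0, X 1)) • pr 0 + (2 * π * (dy F).1 (X 0, X 1)) • pr 1) X := by
  have h0 : HasFDerivAt (fun X : E3 => (X 0, X 1)) ((pr 0).prod (pr 1)) X :=
    ((pr 0).prod (pr 1)).hasFDerivAt
  have h := (Sm.diff F (X 0, X 1)).hasFDerivAt.comp X h0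
  refine h.congr_fderiv ?_
  ext v
  have e : ((v 0, v 1) : ℝ × ℝ) = v 0 • ((1, 0) : ℝ × ℝ) + v 1 • ((0, 1) : ℝ × ℝ) := by simp
  have hpi := pi_pos
  simp only [ContinuousLinearMap.comp_apply, ContinuousLinearMap.prod_apply,
    add_apply, smul_apply, smul_eq_mul, Dv_apply]
  change fderiv ℝ F.1 (X 0, X 1) (v 0, v 1) = _ * v 0 + _ * v 1
  rw [e, map_add, map_smul, map_smul]
  simp only [smul_eq_mul]
  field_simp

/-- The phase `2π ξ · x + φ`. -/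
noncomputable def ph (ξ : ℤ × ℤ) (φ : ℝ) (x : ℝ × ℝ) : ℝ := 2 * π * (ξ.1 * x.1 + ξ.2 * x.2) + φ

theorem contDiff_ph (ξ : ℤ × ℤ) (φ : ℝ) : ContDiff ℝ ∞ (ph ξ φ) := by unfold ph; fun_prop

theorem ph_per (ξ : ℤ × ℤ) (φ x y : ℝ) (m n : ℤ) :
    ph ξ φ (x + m, y + n) = ph ξ φ (x, y) + ((ξ.1 * m + ξ.2 * n : ℤ) : ℝ) * (2 * π) := by
  simp only [ph]; push_cast; ring

theorem hasFDerivAt_ph (ξ : ℤ × ℤ) (φ : ℝ) (x : ℝ × ℝ) :
    HasFDerivAt (ph ξ φ) ((2 * π * ξ.1) • ContinuousLinearMap.fst ℝ ℝ ℝ +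
      (2 * π * ξ.2) • ContinuousLinearMap.snd ℝ ℝ ℝ) x := by
  have h := (((2 * π * ξ.1) • ContinuousLinearMap.fst ℝ ℝ ℝ +
      (2 * π * ξ.2) • ContinuousLinearMap.snd ℝ ℝ ℝ).hasFDerivAt (x := x)).add_const φ
  refine h.congr_of_eventuallyEq (Eventually.of_forall fun y => ?_)
  simp [ph]; ring

noncomputable def Co (ξ : ℤ × ℤ) (φ : ℝ) : Sm :=
  ⟨fun x => cos (ph ξ φ x), (contDiff_ph ξ φ).cos,
    fun x y m n => by simp only [ph_per, cos_add_int_mul_two_pi]⟩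

noncomputable def Si (ξ : ℤ × ℤ) (φ : ℝ) : Sm :=
  ⟨fun x => sin (ph ξ φ x), (contDiff_ph ξ φ).sin,
    fun x y m n => by simp only [ph_per, sin_add_int_mul_two_pi]⟩

theorem Dv_Co (v : ℝ × ℝ) (ξ : ℤ × ℤ) (φ : ℝ) :
    Dv v (Co ξ φ) = (-(ξ.1 * v.1 + ξ.2 * v.2)) • Si ξ φ := by
  ext x
  change _ * fderiv ℝ (fun x => cos (ph ξ φ x)) x v = _ * sin (ph ξ φ x)
  rw [(hasFDerivAt_ph ξ φ x).cos.fderiv]
  have hpi := pi_pos
  simp
  field_simp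
  ring

theorem Dv_Si (v : ℝ × ℝ) (ξ : ℤ × ℤ) (φ : ℝ) :
    Dv v (Si ξ φ) = (ξ.1 * v.1 + ξ.2 * v.2) • Co ξ φ := by
  ext x
  change _ * fderiv ℝ (fun x => sin (ph ξ φ x)) x v = _ * cos (ph ξ φ x)
  rw [(hasFDerivAt_ph ξ φ x).sin.fderiv]
  have hpi := pi_pos
  simp
  field_simp

/-- The exponential of a smooth periodic function. -/
noncomputable def Ex (F : Sm) : Sm :=
  ⟨fun x => exp (F.1 x), (Sm.cd F).exp, fun x y m n => by simp only [Sm.per]⟩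

theorem Dv_Ex (v : ℝ × ℝ) (F : Sm) : Dv v (Ex F) = Ex F * Dv v F := by
  ext x
  change _ * fderiv ℝ (fun x => exp (F.1 x)) x v = exp (F.1 x) * (_ * fderiv ℝ F.1 x v)
  rw [(Sm.diff F x).hasFDerivAt.exp.fderiv]
  simp only [smul_apply, smul_eq_mul]; ring

end Pool.Agent.Work.MP_d0383e_an.Dir
end
end

-- merged part: Pool.Agent.Work.MP_d0383e_an.Dir.TPoly
section
/-!
Trigonometric polynomials on two non-resonant modes and solvability of `p · Dφ = F`.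
-/

namespace Pool.Agent.Work.MP_d0383e_an.Dir

open scoped ContDiff Topology
open Filter Set Real

/-- Two integer modes `(a,b)`, `(c,e)` and a horizontal direction `(p1,p2)` without resonance up
to order three. -/
structure Md where
  a : ℤ
  b : ℤ
  c : ℤ
  e : ℤ
  p1 : ℝ
  p2 : ℝ
  nonres : ∀ m n : ℤ, |m| ≤ 3 → |n| ≤ 3 →
    p1 * ((m * a + n * c : ℤ) : ℝ) + p2 * ((m * b + n * e : ℤ) : ℝ) = 0 → m = 0 ∧ n = 0

namespace Md

variable (M : Md)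

def fr (μ : ℤ × ℤ) : ℤ × ℤ := (μ.1 * M.a + μ.2 * M.c, μ.1 * M.b + μ.2 * M.e)

noncomputable def al (μ : ℤ × ℤ) : ℝ := M.p1 * (M.fr μ).1 + M.p2 * (M.fr μ).2

noncomputable def cm (μ : ℤ × ℤ) : Sm := Co (M.fr μ) 0
noncomputable def sm (μ : ℤ × ℤ) : Sm := Si (M.fr μ) 0

noncomputable def L : Sm →ₗ[ℝ] Sm := M.p1 • dx + M.p2 • dy

theorem L_apply (F : Sm) : M.L F = M.p1 • dx F + M.p2 • dy F := rfl

theorem ph_add (μ ν : ℤ × ℤ) (x : ℝ × ℝ) :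
    ph (M.fr (μ + ν)) 0 x = ph (M.fr μ) 0 x + ph (M.fr ν) 0 x := by
  simp only [ph, fr, Prod.fst_add, Prod.snd_add]; push_cast; ring

theorem ph_sub (μ ν : ℤ × ℤ) (x : ℝ × ℝ) :
    ph (M.fr (μ - ν)) 0 x = ph (M.fr μ) 0 x - ph (M.fr ν) 0 x := by
  simp only [ph, fr, Prod.fst_sub, Prod.snd_sub]; push_cast; ring

theorem cm_apply (μ : ℤ × ℤ) (x : ℝ × ℝ) : (M.cm μ).1 x = cos (ph (M.fr μ) 0 x) := rfl
theorem sm_apply (μ : ℤ × ℤ) (x : ℝ × ℝ) : (M.sm μ).1 x = sin (ph (M.fr μ) 0 x) := rfl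

theorem cm_mul_cm (μ ν : ℤ × ℤ) :
    M.cm μ * M.cm ν = (1 / 2 : ℝ) • (M.cm (μ + ν) + M.cm (μ - ν)) := by
  ext x
  change (M.cm μ).1 x * (M.cm ν).1 x = (1 / 2 : ℝ) * ((M.cm (μ + ν)).1 x + (M.cm (μ - ν)).1 x)
  simp only [cm_apply, ph_add, ph_sub, cos_add, cos_sub]; ring

theorem sm_mul_sm (μ ν : ℤ × ℤ) :
    M.sm μ * M.sm ν = (1 / 2 : ℝ) • (M.cm (μ - ν) - M.cm (μ + ν)) := by
  ext x
  change (M.sm μ).1 x * (M.sm ν).1 x = (1 / 2 : ℝ) * ((M.cm (μ - ν)).1 x - (M.cm (μ + ν)).1 x)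
  simp only [cm_apply, sm_apply, ph_add, ph_sub, cos_add, cos_sub]; ring

theorem sm_mul_cm (μ ν : ℤ × ℤ) :
    M.sm μ * M.cm ν = (1 / 2 : ℝ) • (M.sm (μ + ν) + M.sm (μ - ν)) := by
  ext x
  change (M.sm μ).1 x * (M.cm ν).1 x = (1 / 2 : ℝ) * ((M.sm (μ + ν)).1 x + (M.sm (μ - ν)).1 x)
  simp only [cm_apply, sm_apply, ph_add, ph_sub, sin_add, sin_sub]; ring

theorem cm_zero : M.cm 0 = 1 := by
  ext x
  change cos (ph (M.fr 0) 0 x) = 1
  simp [ph, fr]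

theorem sm_zero : M.sm 0 = 0 := by
  ext x
  change sin (ph (M.fr 0) 0 x) = 0
  simp [ph, fr]

theorem L_cm (μ : ℤ × ℤ) : M.L (M.cm μ) = (-M.al μ) • M.sm μ := by
  simp only [L_apply, cm, sm, Dv_Co, al, smul_smul, ← add_smul]
  congr 1; ring

theorem L_sm (μ : ℤ × ℤ) : M.L (M.sm μ) = M.al μ • M.cm μ := by
  simp only [L_apply, cm, sm, Dv_Si, al, smul_smul, ← add_smul]
  congr 1; ring

/-- Trigonometric polynomials with modes `m k₁ + n k₂`, `|m|, |n| ≤ N`. -/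
noncomputable def TP (N : ℤ) : Submodule ℝ Sm :=
  Submodule.span ℝ {F | ∃ μ : ℤ × ℤ, |μ.1| ≤ N ∧ |μ.2| ≤ N ∧ (F = M.cm μ ∨ F = M.sm μ)}

variable {M}

theorem cm_mem {N : ℤ} {μ : ℤ × ℤ} (h1 : |μ.1| ≤ N) (h2 : |μ.2| ≤ N) : M.cm μ ∈ M.TP N :=
  Submodule.subset_span ⟨μ, h1, h2, Or.inl rfl⟩

theorem sm_mem {N : ℤ} {μ : ℤ × ℤ} (h1 : |μ.1| ≤ N) (h2 : |μ.2| ≤ N) : M.sm μ ∈ M.TP N :=
  Submodule.subset_span ⟨μ, h1, h2, Or.inr rfl⟩

theorem TP_mul {a b N : ℤ} {F G : Sm} (hF : F ∈ M.TP a) (hG : G ∈ M.TP b) (h : a + b ≤ N) :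
    F * G ∈ M.TP N := by
  have key : M.TP a * M.TP b ≤ M.TP N := by
    unfold TP
    rw [Submodule.span_mul_span, Submodule.span_le]
    rintro _ ⟨_, ⟨μ, m1, m2, hμ⟩, _, ⟨ν, n1, n2, hν⟩, rfl⟩
    have a1 : |(μ + ν).1| ≤ N := (abs_add_le _ _).trans (by linarith)
    have a2 : |(μ + ν).2| ≤ N := (abs_add_le _ _).trans (by linarith)
    have s1 : |(μ - ν).1| ≤ N := (abs_sub _ _).trans (by linarith)
    have s2 : |(μ - ν).2| ≤ N := (abs_sub _ _).trans (by linarith)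
    have a1' : |(ν + μ).1| ≤ N := (abs_add_le _ _).trans (by linarith)
    have a2' : |(ν + μ).2| ≤ N := (abs_add_le _ _).trans (by linarith)
    have s1' : |(ν - μ).1| ≤ N := (abs_sub _ _).trans (by linarith)
    have s2' : |(ν - μ).2| ≤ N := (abs_sub _ _).trans (by linarith)
    change _ ∈ M.TP N
    rcases hμ with rfl | rfl <;> rcases hν with rfl | rfl
    · simp only [cm_mul_cm]
      exact Submodule.smul_mem _ _ (add_mem (cm_mem a1 a2) (cm_mem s1 s2))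
    · simp only [mul_comm (M.cm μ), sm_mul_cm]
      exact Submodule.smul_mem _ _ (add_mem (sm_mem a1' a2') (sm_mem s1' s2'))
    · simp only [sm_mul_cm]
      exact Submodule.smul_mem _ _ (add_mem (sm_mem a1 a2) (sm_mem s1 s2))
    · simp only [sm_mul_sm]
      exact Submodule.smul_mem _ _ (sub_mem (cm_mem s1 s2) (cm_mem a1 a2))
  exact key (Submodule.mul_mem_mul hF hG)

theorem TP_Dv {N : ℤ} (v : ℝ × ℝ) {F : Sm} (hF : F ∈ M.TP N) : Dv v F ∈ M.TP N := by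
  have key : (M.TP N).map (Dv v) ≤ M.TP N := by
    conv_lhs => unfold TP
    rw [Submodule.map_span_le]
    rintro _ ⟨μ, m1, m2, rfl | rfl⟩
    · rw [cm, Dv_Co]; exact Submodule.smul_mem _ _ (sm_mem m1 m2)
    · rw [sm, Dv_Si]; exact Submodule.smul_mem _ _ (cm_mem m1 m2)
  exact key (Submodule.mem_map_of_mem hF)

theorem al_ne {μ : ℤ × ℤ} (h1 : |μ.1| ≤ 3) (h2 : |μ.2| ≤ 3) (h : μ ≠ 0) : M.al μ ≠ 0 := by
  intro h0
  obtain ⟨e1, e2⟩ := M.nonres μ.1 μ.2 h1 h2 h0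
  exact h (Prod.ext e1 e2)

theorem cm_mem_im {N : ℤ} (hN : N ≤ 3) {μ : ℤ × ℤ} (h1 : |μ.1| ≤ N) (h2 : |μ.2| ≤ N)
    (h : μ ≠ 0) : M.cm μ ∈ (M.TP N).map M.L := by
  have ha := al_ne (M := M) (h1.trans hN) (h2.trans hN) h
  refine ⟨(M.al μ)⁻¹ • M.sm μ, Submodule.smul_mem _ _ (sm_mem h1 h2), ?_⟩
  rw [map_smul, L_sm, smul_smul, inv_mul_cancel₀ ha, one_smul]

theorem sm_mem_im {N : ℤ} (hN : N ≤ 3) {μ : ℤ × ℤ} (h1 : |μ.1| ≤ N) (h2 : |μ.2| ≤ N) :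
    M.sm μ ∈ (M.TP N).map M.L := by
  by_cases h : μ = 0
  · rw [h, sm_zero]; exact zero_mem _
  have ha := al_ne (M := M) (h1.trans hN) (h2.trans hN) h
  refine ⟨(-M.al μ)⁻¹ • M.cm μ, Submodule.smul_mem _ _ (cm_mem h1 h2), ?_⟩
  rw [map_smul, L_cm, smul_smul, inv_mul_cancel₀ (neg_ne_zero.2 ha), one_smul]

theorem Dv_mem_im {N : ℤ} (hN : N ≤ 3) (v : ℝ × ℝ) {F : Sm} (hF : F ∈ M.TP N) :
    Dv v F ∈ (M.TP N).map M.L := by
  have key : (M.TP N).map (Dv v) ≤ (M.TP N).map M.L := by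
    conv_lhs => unfold TP
    rw [Submodule.map_span_le]
    rintro _ ⟨μ, m1, m2, rfl | rfl⟩
    · rw [cm, Dv_Co]; exact Submodule.smul_mem _ _ (sm_mem_im hN m1 m2)
    · by_cases h : μ = 0
      · rw [h, sm_zero, map_zero]; exact zero_mem _
      · rw [sm, Dv_Si]; exact Submodule.smul_mem _ _ (cm_mem_im hN m1 m2 h)
  exact key (Submodule.mem_map_of_mem hF)

/-- indicator of the zero mode -/
def i0 (μ : ℤ × ℤ) : ℝ := if μ = 0 then 1 else 0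

theorem cm_sub_mem_im {μ : ℤ × ℤ} (h1 : |μ.1| ≤ 3) (h2 : |μ.2| ≤ 3) :
    M.cm μ - i0 μ • (1 : Sm) ∈ (M.TP 3).map M.L := by
  by_cases h : μ = 0
  · rw [h, cm_zero]; simp [i0]
  · simpa [i0, h] using cm_mem_im (M := M) le_rfl h1 h2 h

/-- mean of `cos θ_l sin θ_i sin θ_j` -/
noncomputable def mean3 (l i j : ℤ × ℤ) : ℝ :=
  (1 / 4) * (i0 (l + (i - j)) + i0 (l - (i - j)) - i0 (l + (i + j)) - i0 (l - (i + j)))

theorem tri_mem_im {l i j : ℤ × ℤ} (l1 : |l.1| ≤ 1) (l2 : |l.2| ≤ 1) (i1 : |i.1| ≤ 1)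
    (i2 : |i.2| ≤ 1) (j1 : |j.1| ≤ 1) (j2 : |j.2| ≤ 1) :
    M.cm l * (M.sm i * M.sm j) - mean3 l i j • (1 : Sm) ∈ (M.TP 3).map M.L := by
  have e : M.cm l * (M.sm i * M.sm j) - mean3 l i j • (1 : Sm) =
      (1 / 4 : ℝ) • ((M.cm (l + (i - j)) - i0 (l + (i - j)) • (1 : Sm)) +
        (M.cm (l - (i - j)) - i0 (l - (i - j)) • (1 : Sm)) -
        (M.cm (l + (i + j)) - i0 (l + (i + j)) • (1 : Sm)) -
        (M.cm (l - (i + j)) - i0 (l - (i + j)) • (1 : Sm))) := by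
    rw [sm_mul_sm, mul_smul_comm, mul_sub, cm_mul_cm, cm_mul_cm, mean3]
    module
  rw [e]
  rw [abs_le] at l1 l2 i1 i2 j1 j2
  refine Submodule.smul_mem _ _ (sub_mem (sub_mem (add_mem ?_ ?_) ?_) ?_) <;>
    refine cm_sub_mem_im ?_ ?_ <;>
    simp only [Prod.fst_add, Prod.snd_add, Prod.fst_sub, Prod.snd_sub, abs_le] <;>
    constructor <;> linarith

end Md

end Pool.Agent.Work.MP_d0383e_an.Dir
end
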