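import Pool.Agent.Work.MP_d0383e_an.Defs
import Mathlib
import Pool.Agent.Work.MP_d0383e_an.Dir.TPoly

-- merged part: Pool.Agent.Work.MP_d0383e_an.Perron3
section
-- merged part: Pool.Agent.Work.MP_d0383e_an.Compare
section
namespace Pool.Agent.Work.MP_d0383e_an

open scoped ContDiff Laplacian Topology
open Filter Set

theorem exists_latt (X : E3) : ∃ k : Fin 3 → ℤ, X + latt k ∈ Metric.closedBall (0 : E3) 2 := by
  refine ⟨fun i => -⌊X i⌋, ?_⟩
  rw [mem_closedBall_zero_iff, EuclideanSpace.norm_eq]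
  apply Real.sqrt_le_iff.2 ⟨by norm_num, ?_⟩
  have h : ∀ i, ‖(X + latt fun i => -⌊X i⌋) i‖ ^ 2 ≤ 1 := by
    intro i
    have h1 := Int.fract_nonneg (X i)
    have h2 := Int.fract_lt_one (X i)
    have : (X + latt fun i => -⌊X i⌋) i = Int.fract (X i) := by
      simp [latt, Int.fract, sub_eq_add_neg]
    rw [this, Real.norm_eq_abs, sq_abs]
    linarith only [h2, h1, mul_nonneg_of_nonpos_of_nonpos (Mathlib.Tactic.Linarith.sub_nonpos_of_le h1) (le_of_lt (Mathlib.Tactic.Linarith.sub_neg_of_lt h2))]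
  rw [Fin.sum_univ_three]
  linarith [h 0, h 1, h 2]

theorem spat_add_const (f : ℝ × ℝ → ℝ) (A d : ℝ) (U : E3 → ℝ) (c : ℝ) (X e : E3) :
    gradient (fun Y => U Y + c) X = gradient U X ∧
      spat f A d (fun Y => U Y + c) X e = spat f A d U X e := by
  have h0 : fderiv ℝ (fun Y => U Y + c) = fderiv ℝ U := by
    funext Y; exact fderiv_add_const c
  have h1 : gradient (fun Y => U Y + c) X = gradient U X := by
    simp only [gradient, h0]
  have h2 : ∀ m, iteratedFDeriv ℝ 2 (fun Y => U Y + c) X m = iteratedFDeriv ℝ 2 U X m := by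
    intro m; simp only [iteratedFDeriv_two_apply, h0]
  refine ⟨h1, ?_⟩
  simp only [spat, h1, h2, InnerProductSpace.laplacian_eq_iteratedFDeriv_orthonormalBasis _
    (EuclideanSpace.basisFun (Fin 3) ℝ)]

/-- Abstract maximum principle. -/
theorem max_principle (g : E3 × ℝ → ℝ) (hc : ContinuousOn g (univ ×ˢ Ici 0))
    (hp : ∀ (k : Fin 3 → ℤ) (X : E3) (t : ℝ), 0 ≤ t → g (X + latt k, t) = g (X, t))
    (h0 : ∀ X, g (X, 0) ≤ 0)
    (hno : ∀ (η lam t1 : ℝ), 0 < η → 0 < lam → ∀ (X : E3) (t : ℝ), 0 < t →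
      ¬ IsLocalMax (fun z : E3 × ℝ => g z - η * Real.exp (lam * (z.2 - t1))) (X, t)) :
    ∀ X t, 0 ≤ t → g (X, t) ≤ 0 := by
  intro X1 t1 ht1
  by_contra hpos
  push Not at hpos
  set K : Set (E3 × ℝ) := Metric.closedBall (0 : E3) 2 ×ˢ Icc 0 (t1 + 1) with hK
  have hKc : IsCompact K := (isCompact_closedBall _ _).prod isCompact_Icc
  have hKs : K ⊆ univ ×ˢ Ici 0 := fun z hz => ⟨mem_univ _, hz.2.1⟩
  obtain ⟨M, hM⟩ := hKc.exists_bound_of_continuousOn (hc.mono hKs)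
  set η := g (X1, t1) / 2 with hη
  have hη0 : 0 < η := by positivity
  set lam := (|M| + 1) / η with hlam
  have hlam0 : 0 < lam := by positivity
  set F : E3 × ℝ → ℝ := fun z => g z - η * Real.exp (lam * (z.2 - t1)) with hF
  have hFc : ContinuousOn F K := (hc.mono hKs).sub (by fun_prop)
  have hne : K.Nonempty := ⟨(0, 0), by simp [hK]; linarith only [ht1]⟩
  obtain ⟨z0, hz0, hmax⟩ := hKc.exists_isMaxOn hne hFc
  have hall : ∀ X t, 0 ≤ t → t ≤ t1 + 1 → F (X, t) ≤ F z0 := by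
    intro X t h1 h2
    obtain ⟨k, hk⟩ := exists_latt X
    have := hmax (show (X + latt k, t) ∈ K from ⟨hk, h1, h2⟩)
    simp only [hF, mem_ofPred_eq] at this ⊢
    rw [hp k X t h1] at this
    exact this
  have hF0 : 0 < F z0 := by
    have := hall X1 t1 ht1 (by linarith)
    simp only [hF, sub_self, mul_zero, Real.exp_zero, mul_one] at this ⊢
    linarith only [hη, hη0, this]
  obtain ⟨X0, t0⟩ := z0
  have ht0 : 0 < t0 := by
    rcases hz0.2.1.lt_or_eq with h | h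
    · exact h
    · exfalso
      simp only at h
      subst h
      have := h0 X0
      have h2 : 0 < η * Real.exp (lam * (0 - t1)) := by positivity
      simp only [hF] at hF0
      linarith
  have ht0' : t0 < t1 + 1 := by
    rcases hz0.2.2.lt_or_eq with h | h
    · exact h
    · exfalso
      simp only at h
      subst h
      have h1 := hM _ hz0
      have h2 : lam + 1 ≤ Real.exp lam := Real.add_one_le_exp lam
      have h3 : η * lam = |M| + 1 := by rw [hlam]; field_simp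
      simp only [hF, add_sub_cancel_left, mul_one] at hF0
      have h4 := le_abs_self M
      have h5 := (abs_le.1 h1).2
      linarith only [hη0, h3, hF0, h4, h5, hpos, h2, hη, mul_nonneg_of_nonpos_of_nonpos (le_of_lt (Mathlib.Tactic.Linarith.sub_neg_of_lt hpos)) (Mathlib.Tactic.Linarith.sub_nonpos_of_le h2), Mathlib.Tactic.Linarith.zero_mul_eq (sub_eq_zero_of_eq hη) (Mathlib.Tactic.Linarith.sub_nonpos_of_le h2)]
  refine hno η lam t1 hη0 hlam0 X0 t0 ht0 ?_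
  have hn : ∀ᶠ z : E3 × ℝ in 𝓝 (X0, t0), z.2 ∈ Ioo 0 (t1 + 1) :=
    continuous_snd.continuousAt.eventually (isOpen_Ioo.mem_nhds ⟨ht0, ht0'⟩)
  filter_upwards [hn] with z hz
  exact hall z.1 z.2 hz.1.le hz.2.le

theorem bounded_of_per (w : E3 → ℝ) (hc : Continuous w)
    (hp : ∀ (k : Fin 3 → ℤ) (X : E3), w (X + latt k) = w X) : ∃ M, ∀ X, |w X| ≤ M := by
  obtain ⟨M, hM⟩ := (isCompact_closedBall (0 : E3) 2).exists_bound_of_continuousOn hc.continuousOn
  refine ⟨M, fun X => ?_⟩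
  obtain ⟨k, hk⟩ := exists_latt X
  rw [← hp k X]
  exact hM _ hk

theorem hasDerivAt_time (c h η lam t1 t : ℝ) :
    HasDerivAt (fun s => c + (-(h * s) + η * Real.exp (lam * (s - t1))))
      (-h + η * (Real.exp (lam * (t - t1)) * lam)) t := by
  have h1 : HasDerivAt (fun s => lam * (s - t1)) lam t := by
    simpa using ((hasDerivAt_id t).sub_const t1).const_mul lam
  have h2 : HasDerivAt (fun s => -(h * s)) (-h) t := by
    have := ((hasDerivAt_id t).const_mul h).fun_neg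
    simp only [id, mul_one] at this
    exact this
  exact (h2.add (h1.exp.const_mul η)).const_add c

variable {f : ℝ × ℝ → ℝ} {A d : ℝ} {P : E3} {G : E3 × ℝ → ℝ}

theorem upper (hG : IsViscSol f A d P G) (U : E3 → ℝ) (hU : ContDiff ℝ ∞ U)
    (hp : ∀ (k : Fin 3 → ℤ) (X : E3),
      U (X + latt k) - inner ℝ P (X + latt k) = U X - inner ℝ P X) (h : ℝ)
    (hs : ∀ X e, IsDir (gradient U X) e → h ≤ spat f A d U X e) :
    ∃ C, ∀ X t, 0 ≤ t → G (X, t) - inner ℝ P X ≤ C - h * t := by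
  obtain ⟨M, hM⟩ := bounded_of_per (fun X => U X - inner ℝ P X)
    (hU.continuous.sub (by fun_prop)) hp
  have key := max_principle (fun z => G z - (U z.1 + (M - h * z.2)))
    (hG.cont.sub (Continuous.continuousOn (by have := hU.continuous; fun_prop)))
    (fun k X t ht => by have := hG.per k X t ht; have := hp k X; simp only; linarith)
    (fun X => by have := (abs_le.1 (hM X)).1; simp only [hG.init]; linarith)
    (fun η lam t1 hη hlam X t ht hloc => by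
      obtain ⟨e, he, hle⟩ := hG.sub
        (fun z => U z.1 + (M + (-(h * z.2) + η * Real.exp (lam * (z.2 - t1)))))
        (by fun_prop) X t ht (by convert hloc using 2; ring)
      simp only at he hle
      rw [(spat_add_const f A d U _ X e).1] at he
      rw [(spat_add_const f A d U _ X e).2] at hle
      have hd := ((hasDerivAt_time M h η lam t1 t).const_add (U X)).deriv
      rw [hd] at hle
      have := hs X e he
      have h2 : 0 < η * (Real.exp (lam * (t - t1)) * lam) := by positivity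
      linarith)
  refine ⟨2 * M, fun X t ht => ?_⟩
  have := key X t ht
  have := (abs_le.1 (hM X)).2
  simp only at *
  linarith

theorem lower (hG : IsViscSol f A d P G) (U : E3 → ℝ) (hU : ContDiff ℝ ∞ U)
    (hp : ∀ (k : Fin 3 → ℤ) (X : E3),
      U (X + latt k) - inner ℝ P (X + latt k) = U X - inner ℝ P X) (h : ℝ)
    (hs : ∀ X e, IsDir (gradient U X) e → spat f A d U X e ≤ h) :
    ∃ C, ∀ X t, 0 ≤ t → -C - h * t ≤ G (X, t) - inner ℝ P X := by
  obtain ⟨M, hM⟩ := bounded_of_per (fun X => U X - inner ℝ P X)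
    (hU.continuous.sub (by fun_prop)) hp
  have key := max_principle (fun z => (U z.1 + (-M - h * z.2)) - G z)
    ((Continuous.continuousOn (by have := hU.continuous; fun_prop)).sub hG.cont)
    (fun k X t ht => by have := hG.per k X t ht; have := hp k X; simp only; linarith)
    (fun X => by have := (abs_le.1 (hM X)).2; simp only [hG.init]; linarith)
    (fun η lam t1 hη hlam X t ht hloc => by
      obtain ⟨e, he, hle⟩ := hG.sup
        (fun z => U z.1 + (-M + (-(h * z.2) + (-η) * Real.exp (lam * (z.2 - t1)))))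
        (by fun_prop) X t ht (by
          have h3 := hloc.neg
          refine h3.congr (Eventually.of_forall fun z => ?_)
          simp only [Pi.neg_apply]
          ring)
      simp only at he hle
      rw [(spat_add_const f A d U _ X e).1] at he
      rw [(spat_add_const f A d U _ X e).2] at hle
      have hd := ((hasDerivAt_time (-M) h (-η) lam t1 t).const_add (U X)).deriv
      rw [hd] at hle
      have := hs X e he
      have h2 : 0 < η * (Real.exp (lam * (t - t1)) * lam) := by positivity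
      linarith)
  refine ⟨2 * M, fun X t ht => ?_⟩
  have := key X t ht
  have := (abs_le.1 (hM X)).1
  simp only at *
  linarith

theorem tendsto_aux (C h : ℝ) : Tendsto (fun t : ℝ => h + C / t) atTop (𝓝 h) := by
  simpa using (tendsto_const_nhds (x := h)).add
    ((tendsto_const_nhds (x := C)).div_atTop (tendsto_id (α := ℝ)))

theorem velocity_of_bounds {h C C' : ℝ}
    (h1 : ∀ X t, 0 ≤ t → G (X, t) - inner ℝ P X ≤ C - h * t)
    (h2 : ∀ X t, 0 ≤ t → -C' - h * t ≤ G (X, t) - inner ℝ P X) :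
    HasBurningVelocity P G h := by
  intro X
  refine tendsto_of_tendsto_of_tendsto_of_le_of_le' (tendsto_aux (-C) h) (tendsto_aux C' h) ?_ ?_
  · filter_upwards [eventually_gt_atTop 0] with t ht
    have := h1 X t ht.le
    rw [← neg_div, le_div_iff₀ ht]
    field_simp
    linarith
  · filter_upwards [eventually_gt_atTop 0] with t ht
    have := h2 X t ht.le
    rw [← neg_div, div_le_iff₀ ht]
    field_simp
    linarith

theorem velocity_le {h C' H : ℝ}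
    (h2 : ∀ X t, 0 ≤ t → -C' - h * t ≤ G (X, t) - inner ℝ P X)
    (hH : HasBurningVelocity P G H) : H ≤ h := by
  refine le_of_tendsto_of_tendsto (hH 0) (tendsto_aux C' h) ?_
  filter_upwards [eventually_gt_atTop 0] with t ht
  have := h2 0 t ht.le
  rw [← neg_div, div_le_iff₀ ht]
  field_simp
  linarith

end Pool.Agent.Work.MP_d0383e_an
end

-- merged part: Pool.Agent.Work.MP_d0383e_an.Jet
section
namespace Pool.Agent.Work.MP_d0383e_an

open scoped ContDiff Laplacian Topology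
open Filter Set

noncomputable def e3 : E3 := EuclideanSpace.single 2 1
noncomputable def bs (i : Fin 3) : E3 := EuclideanSpace.single i 1

noncomputable def D0 (φ : E3 × ℝ → ℝ) (z : E3 × ℝ) : ℝ := deriv (fun s => φ (z.1, s)) z.2
noncomputable def D1 (φ : E3 × ℝ → ℝ) (z : E3 × ℝ) : E3 →L[ℝ] ℝ :=
  fderiv ℝ (fun Y => φ (Y, z.2)) z.1
noncomputable def D2 (φ : E3 × ℝ → ℝ) (z : E3 × ℝ) : E3 →L[ℝ] E3 →L[ℝ] ℝ :=
  fderiv ℝ (fun Y => D1 φ (Y, z.2)) z.1
noncomputable def gr (p : E3 →L[ℝ] ℝ) : E3 := (InnerProductSpace.toDual ℝ E3).symm p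
noncomputable def nd (p : E3 →L[ℝ] ℝ) : E3 := ‖p‖⁻¹ • gr p
noncomputable def trp (Q : E3 →L[ℝ] E3 →L[ℝ] ℝ) (e : E3) : ℝ := ∑ i, Q (bs i) (bs i) - Q e e
noncomputable def JJ (d : ℝ) (φ : E3 × ℝ → ℝ) (z : E3 × ℝ) : ℝ :=
  D0 φ z + max (‖D1 φ z‖ - d * trp (D2 φ z) (nd (D1 φ z))) 0

theorem norm_gr (p : E3 →L[ℝ] ℝ) : ‖gr p‖ = ‖p‖ := by simp [gr]

theorem inner_gr (p : E3 →L[ℝ] ℝ) (v : E3) : inner ℝ (gr p) v = p v := by simp [gr]

theorem gr_two (p : E3 →L[ℝ] ℝ) : gr p 2 = p e3 := by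
  rw [← inner_gr, e3, EuclideanSpace.inner_single_right]; simp

theorem norm_nd {p : E3 →L[ℝ] ℝ} (hp : p ≠ 0) : ‖nd p‖ = 1 := by
  have := norm_ne_zero_iff.2 hp
  rw [nd, norm_smul, norm_gr, norm_inv, norm_norm]; field_simp

theorem isDir_nd {p : E3 →L[ℝ] ℝ} (hp : p ≠ 0) : IsDir (gr p) (nd p) := by
  have := norm_ne_zero_iff.2 hp
  refine ⟨norm_nd hp, ?_⟩
  rw [nd, norm_gr, smul_smul, mul_inv_cancel₀ this, one_smul]

theorem apply_eq_nd {p : E3 →L[ℝ] ℝ} (hp : p ≠ 0) (v : E3) : p v = ‖p‖ * inner ℝ (nd p) v := by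
  have := norm_ne_zero_iff.2 hp
  rw [nd, inner_smul_left, inner_gr]; simp; field_simp

theorem op_eq (f : ℝ × ℝ → ℝ) (A d : ℝ) (φ : E3 × ℝ → ℝ) (X : E3) (t : ℝ) :
    gradient (fun Y => φ (Y, t)) X = gr (D1 φ (X, t)) ∧
    deriv (fun s => φ (X, s)) t + spat f A d (fun Y => φ (Y, t)) X (nd (D1 φ (X, t))) =
      JJ d φ (X, t) + A * f (X 0, X 1) * D1 φ (X, t) e3 := by
  have h1 : gradient (fun Y => φ (Y, t)) X = gr (D1 φ (X, t)) := rfl
  refine ⟨h1, ?_⟩
  have h2 : ∀ u v, iteratedFDeriv ℝ 2 (fun Y => φ (Y, t)) X ![u, v] = D2 φ (X, t) u v := by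
    intro u v; rw [iteratedFDeriv_two_apply]; rfl
  simp only [spat, h1, h2, norm_gr, gr_two, JJ, trp, D0,
    InnerProductSpace.laplacian_eq_iteratedFDeriv_orthonormalBasis _
      (EuclideanSpace.basisFun (Fin 3) ℝ), EuclideanSpace.basisFun_apply, bs]
  ring

theorem sum_bs (e : E3) : ∑ i, e i • bs i = e := by
  simpa [bs] using (EuclideanSpace.basisFun (Fin 3) ℝ).sum_repr e

theorem trp_eq (Q : E3 →L[ℝ] E3 →L[ℝ] ℝ) {e : E3} (he : ‖e‖ = 1) :
    trp Q e = ∑ i, Q (bs i - e i • e) (bs i - e i • e) := by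
  have h1 : ∑ i, e i * e i = 1 := by
    have := EuclideanSpace.norm_sq_eq e
    rw [he] at this
    simpa [sq] using this.symm
  have h2 : ∑ i, e i * Q (bs i) e = Q e e := by
    conv_rhs => enter [1, 2]; rw [← sum_bs e]
    simp
  have h3 : ∑ i, e i * Q e (bs i) = Q e e := by
    conv_rhs => enter [2]; rw [← sum_bs e]
    simp
  simp only [Fin.sum_univ_three] at h1 h2 h3
  simp only [trp, Fin.sum_univ_three, map_sub, map_smul, sub_apply,
    smul_apply, smul_eq_mul]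
  linear_combination h2 + h3 - Q e e * h1

section param
variable {Λ : Type} [NormedAddCommGroup Λ] [NormedSpace ℝ Λ]

theorem contDiff_D0 {Φ : Λ → E3 × ℝ → ℝ} (h : ContDiff ℝ ∞ fun w : Λ × E3 × ℝ => Φ w.1 w.2) :
    ContDiff ℝ ∞ fun w : Λ × E3 × ℝ => D0 (Φ w.1) w.2 := by
  have h1 : ContDiff ℝ ∞ fun w : Λ × E3 × ℝ => fderiv ℝ (fun s => Φ w.1 (w.2.1, s)) w.2.2 :=
    ContDiff.fderiv (m := ∞) (f := fun (w : Λ × E3 × ℝ) s => Φ w.1 (w.2.1, s))
      (h.comp (f := fun p : (Λ × E3 × ℝ) × ℝ => (p.1.1, p.1.2.1, p.2)) (by fun_prop))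
      (by fun_prop) le_rfl
  exact h1.clm_apply (contDiff_const (c := (1 : ℝ)))

theorem contDiff_D1 {Φ : Λ → E3 × ℝ → ℝ} (h : ContDiff ℝ ∞ fun w : Λ × E3 × ℝ => Φ w.1 w.2) :
    ContDiff ℝ ∞ fun w : Λ × E3 × ℝ => D1 (Φ w.1) w.2 :=
  ContDiff.fderiv (m := ∞) (f := fun (w : Λ × E3 × ℝ) Y => Φ w.1 (Y, w.2.2))
    (h.comp (f := fun p : (Λ × E3 × ℝ) × E3 => (p.1.1, p.2, p.1.2.2)) (by fun_prop))
    (by fun_prop) le_rfl

theorem contDiff_D2 {Φ : Λ → E3 × ℝ → ℝ} (h : ContDiff ℝ ∞ fun w : Λ × E3 × ℝ => Φ w.1 w.2) :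
    ContDiff ℝ ∞ fun w : Λ × E3 × ℝ => D2 (Φ w.1) w.2 :=
  ContDiff.fderiv (m := ∞) (f := fun (w : Λ × E3 × ℝ) Y => D1 (Φ w.1) (Y, w.2.2))
    ((contDiff_D1 h).comp (f := fun p : (Λ × E3 × ℝ) × E3 => (p.1.1, p.2, p.1.2.2)) (by fun_prop))
    (by fun_prop) le_rfl

end param

theorem JJ_cont (d : ℝ) {φ q : E3 × ℝ → ℝ} (hφ : ContDiff ℝ ∞ φ) (hq : ContDiff ℝ ∞ q)
    {z : E3 × ℝ} (h : D1 φ z ≠ 0) :
    ContinuousAt (fun w : ℝ × E3 × ℝ => JJ d (fun y => φ y + w.1 * q y) w.2) (0, z) := by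
  have hΦ : ContDiff ℝ ∞ fun w : ℝ × E3 × ℝ => (fun (μ : ℝ) y => φ y + μ * q y) w.1 w.2 := by
    fun_prop
  have c0 := (contDiff_D0 (Φ := fun (μ : ℝ) y => φ y + μ * q y) hΦ).continuous
  have c1 := (contDiff_D1 (Φ := fun (μ : ℝ) y => φ y + μ * q y) hΦ).continuous
  have c2 := (contDiff_D2 (Φ := fun (μ : ℝ) y => φ y + μ * q y) hΦ).continuous
  have cg : Continuous gr := (InnerProductSpace.toDual ℝ E3).symm.continuous
  have cn : ContinuousAt (fun w : ℝ × E3 × ℝ => nd (D1 (fun y => φ y + w.1 * q y) w.2)) (0, z) := by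
    refine (c1.norm.continuousAt.inv₀ ?_).smul (cg.comp c1).continuousAt
    simpa using h
  unfold JJ trp
  refine c0.continuousAt.add (ContinuousAt.sup (c1.norm.continuousAt.sub
    (continuousAt_const.mul (ContinuousAt.sub ?_ ?_))) continuousAt_const)
  · exact (continuous_finsetSum _ fun i _ =>
      (c2.clm_apply continuous_const).clm_apply continuous_const).continuousAt
  · exact (c2.continuousAt.clm_apply cn).clm_apply cn

theorem D1_shift (φ : E3 × ℝ → ℝ) (w : E3 × ℝ) (c κ : ℝ) (z : E3 × ℝ) :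
    D1 (fun y => φ (y + w) + (c + κ * y.2)) z = D1 φ (z + w) := by
  unfold D1
  beta_reduce
  change fderiv ℝ (fun Y => φ (Y + w.1, z.2 + w.2) + (c + κ * z.2)) z.1 = _
  rw [fderiv_add_const]
  exact fderiv_comp_add_right (f := fun Y => φ (Y, z.2 + w.2)) w.1

theorem JJ_shift (d : ℝ) {φ : E3 × ℝ → ℝ} (hφ : ContDiff ℝ ∞ φ) (w : E3 × ℝ) (c κ : ℝ)
    (z : E3 × ℝ) : JJ d (fun y => φ (y + w) + (c + κ * y.2)) z = JJ d φ (z + w) + κ := by
  have h2 : D2 (fun y => φ (y + w) + (c + κ * y.2)) z = D2 φ (z + w) := by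
    unfold D2
    simp only [D1_shift]
    exact fderiv_comp_add_right (f := fun Y => D1 φ (Y, z.2 + w.2)) w.1
  have h0 : D0 (fun y => φ (y + w) + (c + κ * y.2)) z = D0 φ (z + w) + κ := by
    have hd : Differentiable ℝ fun s => φ (z.1 + w.1, s) :=
      (hφ.differentiable (by simp)).comp (by fun_prop)
    have h3 := (hd (z.2 + w.2)).hasDerivAt.comp_add_const z.2 w.2
    have h4 : HasDerivAt (fun s : ℝ => c + κ * s) κ z.2 := by
      simpa using ((hasDerivAt_id z.2).const_mul κ).const_add c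
    exact (h3.fun_add h4).deriv
  unfold JJ
  rw [h0, h2, D1_shift]; ring

theorem D1_lin (P : E3) (κ : ℝ) (z : E3 × ℝ) :
    D1 (fun y => inner ℝ P y.1 + κ * y.2) z = innerSL ℝ P := by
  unfold D1
  change fderiv ℝ (fun Y : E3 => inner ℝ P Y + κ * z.2) z.1 = _
  rw [fderiv_add_const]
  exact (innerSL ℝ P).fderiv

theorem JJ_lin (d : ℝ) (P : E3) (κ : ℝ) (z : E3 × ℝ) :
    JJ d (fun y => inner ℝ P y.1 + κ * y.2) z = κ + ‖P‖ := by
  have h2 : D2 (fun y => inner ℝ P y.1 + κ * y.2) z = 0 := by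
    unfold D2; simp only [D1_lin]; simp
  have h0 : D0 (fun y => inner ℝ P y.1 + κ * y.2) z = κ := by
    have h4 : HasDerivAt (fun s : ℝ => inner ℝ P z.1 + κ * s) κ z.2 := by
      simpa using ((hasDerivAt_id z.2).const_mul κ).const_add (inner ℝ P z.1)
    exact h4.deriv
  unfold JJ
  rw [h0, h2, D1_lin]
  simp [trp]

theorem second_nonpos {U : E3 → ℝ} (hU : ContDiff ℝ ∞ U) {X : E3} (h : IsLocalMax U X) (v : E3) :
    fderiv ℝ (fderiv ℝ U) X v v ≤ 0 := by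
  have hl : ∀ s : ℝ, HasDerivAt (fun s : ℝ => X + s • v) v s := fun s => by
    simpa using ((hasDerivAt_id s).smul_const v).const_add X
  have h1 : ∀ s : ℝ, HasDerivAt (fun s : ℝ => U (X + s • v)) (fderiv ℝ U (X + s • v) v) s :=
    fun s => (hU.differentiable (by simp) _).hasFDerivAt.comp_hasDerivAt s (hl s)
  have hU1 : ContDiff ℝ ∞ (fderiv ℝ U) := hU.fderiv_right (m := ∞) le_rfl
  have h2 : HasDerivAt (fun s : ℝ => fderiv ℝ U (X + s • v) v) (fderiv ℝ (fderiv ℝ U) X v v) 0 := by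
    have := ((hU1.differentiable (by simp) _).hasFDerivAt.comp_hasDerivAt (0 : ℝ) (hl 0)).clm_apply
      (hasDerivAt_const (0 : ℝ) v)
    simpa using this
  have hd : deriv (fun s : ℝ => U (X + s • v)) = fun s => fderiv ℝ U (X + s • v) v :=
    funext fun s => (h1 s).deriv
  have hmax : IsLocalMax (fun s : ℝ => U (X + s • v)) 0 :=
    IsLocalMax.comp_continuous (g := fun s : ℝ => X + s • v) (by simpa using h) (by fun_prop)
  by_contra hpos
  push Not at hpos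
  have hmin : IsLocalMin (fun s : ℝ => U (X + s • v)) 0 :=
    isLocalMin_of_deriv_deriv_pos (by rw [hd, h2.deriv]; exact hpos) hmax.deriv_eq_zero
      (h1 0).continuousAt
  have hc : (fun s : ℝ => U (X + s • v)) =ᶠ[𝓝 0] fun _ => U (X + (0 : ℝ) • v) := by
    filter_upwards [hmax, hmin] with s a b using le_antisymm a b
  have h3 := hc.deriv.deriv_eq
  rw [hd, h2.deriv] at h3
  simp at h3
  linarith only [hpos, h3]

theorem JJ_mono {d : ℝ} (hd : 0 ≤ d) {χ ψ : E3 × ℝ → ℝ} (hχ : ContDiff ℝ ∞ χ)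
    (hψ : ContDiff ℝ ∞ ψ) {z : E3 × ℝ} (h : IsLocalMax (fun y => χ y - ψ y) z)
    (h0 : D1 ψ z ≠ 0) : JJ d ψ z ≤ JJ d χ z := by
  have hx : IsLocalMax (fun Y => χ (Y, z.2) - ψ (Y, z.2)) z.1 :=
    IsLocalMax.comp_continuous (g := fun Y : E3 => (Y, z.2)) h (by fun_prop)
  have ht : IsLocalMax (fun s => χ (z.1, s) - ψ (z.1, s)) z.2 :=
    IsLocalMax.comp_continuous (g := fun s : ℝ => (z.1, s)) h (by fun_prop)
  have cχ : ContDiff ℝ ∞ fun Y : E3 => χ (Y, z.2) := hχ.comp (by fun_prop)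
  have cψ : ContDiff ℝ ∞ fun Y : E3 => ψ (Y, z.2) := hψ.comp (by fun_prop)
  have tχ : Differentiable ℝ fun s : ℝ => χ (z.1, s) :=
    (hχ.differentiable (by simp)).comp (by fun_prop)
  have tψ : Differentiable ℝ fun s : ℝ => ψ (z.1, s) :=
    (hψ.differentiable (by simp)).comp (by fun_prop)
  have e0 : D0 χ z = D0 ψ z := by
    have := ht.deriv_eq_zero
    rw [deriv_fun_sub (tχ _) (tψ _)] at this
    exact sub_eq_zero.1 this
  have hf : fderiv ℝ (fun Y => χ (Y, z.2) - ψ (Y, z.2)) = fun Y => D1 χ (Y, z.2) - D1 ψ (Y, z.2) :=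
    funext fun Y => fderiv_fun_sub (cχ.differentiable (by simp) _) (cψ.differentiable (by simp) _)
  have e1 : D1 χ z = D1 ψ z := by
    have := hx.fderiv_eq_zero
    rw [hf] at this
    exact sub_eq_zero.1 this
  have e2 : ∀ v, D2 χ z v v ≤ D2 ψ z v v := by
    intro v
    have := second_nonpos (cχ.sub cψ) hx v
    have dχ : DifferentiableAt ℝ (fun Y => D1 χ (Y, z.2)) z.1 :=
      (cχ.fderiv_right (m := ∞) le_rfl).differentiable (by simp) _
    have dψ : DifferentiableAt ℝ (fun Y => D1 ψ (Y, z.2)) z.1 :=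
      (cψ.fderiv_right (m := ∞) le_rfl).differentiable (by simp) _
    rw [hf, fderiv_fun_sub dχ dψ] at this
    exact sub_nonpos.1 this
  unfold JJ
  rw [e0, e1, trp_eq _ (norm_nd h0), trp_eq _ (norm_nd h0)]
  have := mul_le_mul_of_nonneg_left (Finset.sum_le_sum (s := Finset.univ) fun i _ =>
    e2 (bs i - nd (D1 ψ z) i • nd (D1 ψ z))) hd
  gcongr

theorem touch {u φ : E3 × ℝ → ℝ} (hφ : ContDiff ℝ ∞ φ) {c : ℝ} {z : E3 × ℝ}
    (ha : ∀ b : ℝ, u (z.1 + b • e3, z.2) = u z + c * b)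
    (h : IsLocalExtr (fun y => u y - φ y) z) : D1 φ z e3 = c := by
  have hl : HasDerivAt (fun s : ℝ => z.1 + s • e3) e3 0 := by
    simpa using ((hasDerivAt_id (0 : ℝ)).smul_const e3).const_add z.1
  have cφ : ContDiff ℝ ∞ fun Y : E3 => φ (Y, z.2) := hφ.comp (by fun_prop)
  have h1 := (cφ.differentiable (by simp) _).hasFDerivAt.comp_hasDerivAt (0 : ℝ) hl
  have h2 : HasDerivAt (fun b : ℝ => u z + c * b) c 0 := by
    simpa using ((hasDerivAt_id (0 : ℝ)).const_mul c).const_add (u z)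
  have h3 : IsLocalExtr (fun b : ℝ => u (z.1 + b • e3, z.2) - φ (z.1 + b • e3, z.2)) 0 :=
    IsLocalExtr.comp_continuous (f := fun y => u y - φ y) (b := (0 : ℝ))
      (g := fun b : ℝ => (z.1 + b • e3, z.2)) (by simpa using h) (by fun_prop)
  simp only [ha] at h3
  have h4 := h3.hasDerivAt_eq_zero (h2.fun_sub h1)
  simp only [zero_smul, add_zero] at h4
  exact (sub_eq_zero.1 h4).symm

/-- replacing a test function by one that is affine in the vertical direction -/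
theorem exists_affine (d : ℝ) {φ : E3 × ℝ → ℝ} (hφ : ContDiff ℝ ∞ φ) {c : ℝ} (hc : c ≠ 0)
    {z : E3 × ℝ} (h : D1 φ z e3 = c) :
    ∃ (L : E3 →L[ℝ] E3) (l : E3 →L[ℝ] ℝ), (∀ v, v = L v + l v • e3) ∧ L e3 = 0 ∧ l e3 = 1 ∧
      JJ d (fun y => φ (z.1 + L (y.1 - z.1), y.2) + c * l (y.1 - z.1)) z = JJ d φ z := by
  have hp : D1 φ z ≠ 0 := fun h0 => hc (by rw [← h, h0]; rfl)
  set l : E3 →L[ℝ] ℝ := c⁻¹ • D1 φ z with hl
  set L : E3 →L[ℝ] E3 := ContinuousLinearMap.id ℝ E3 - l.smulRight e3 with hL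
  have hl3 : l e3 = 1 := by simp [hl, h, hc]
  refine ⟨L, l, fun v => by simp [hL], by simp [hL, hl3], hl3, ?_⟩
  have cφ : ContDiff ℝ ∞ fun Y : E3 => φ (Y, z.2) := hφ.comp (by fun_prop)
  have hA : ∀ Y : E3, HasFDerivAt (fun Y : E3 => z.1 + L (Y - z.1)) L Y := fun Y => by
    have := (L.hasFDerivAt.comp Y ((hasFDerivAt_id Y).sub_const z.1)).const_add z.1
    simpa using this
  have hB : ∀ Y : E3, HasFDerivAt (fun Y : E3 => c * l (Y - z.1)) (c • l) Y := fun Y => by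
    have := (l.hasFDerivAt.comp Y ((hasFDerivAt_id Y).sub_const z.1)).const_mul c
    simpa using this
  have h1 : ∀ Y : E3, D1 (fun y => φ (z.1 + L (y.1 - z.1), y.2) + c * l (y.1 - z.1)) (Y, z.2) =
      (D1 φ (z.1 + L (Y - z.1), z.2)).comp L + c • l := fun Y =>
    (((cφ.differentiable (by simp) _).hasFDerivAt.comp Y (hA Y)).fun_add (hB Y)).fderiv
  have e1 : D1 (fun y => φ (z.1 + L (y.1 - z.1), y.2) + c * l (y.1 - z.1)) z = D1 φ z := by
    have := h1 z.1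
    simp only [sub_self, map_zero, add_zero, Prod.mk.eta] at this
    rw [this]
    ext v
    simp [hL, hl, h]
    field_simp
    ring
  have e2 : ∀ u v, D2 (fun y => φ (z.1 + L (y.1 - z.1), y.2) + c * l (y.1 - z.1)) z u v =
      D2 φ z (L u) (L v) := by
    intro u v
    unfold D2
    simp only [h1]
    have h3 : HasFDerivAt (fun Y => D1 φ (Y, z.2)) (fderiv ℝ (fun Y => D1 φ (Y, z.2)) z.1)
        (z.1 + L (z.1 - z.1)) := by
      simp only [sub_self, map_zero, add_zero]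
      exact ((cφ.fderiv_right (m := ∞) le_rfl).differentiable (by simp) _).hasFDerivAt
    have h4 := ((h3.comp z.1 (hA z.1)).clm_comp (hasFDerivAt_const L z.1)).add_const (c • l)
    have h5 := h4.fderiv
    simp only [Function.comp_def] at h5
    rw [h5]
    simp
  have e0 : D0 (fun y => φ (z.1 + L (y.1 - z.1), y.2) + c * l (y.1 - z.1)) z = D0 φ z := by
    simp [D0]
  have hfix : ∀ i, L (bs i - nd (D1 φ z) i • nd (D1 φ z)) = bs i - nd (D1 φ z) i • nd (D1 φ z) := by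
    intro i
    have : D1 φ z (bs i - nd (D1 φ z) i • nd (D1 φ z)) = 0 := by
      rw [apply_eq_nd hp, inner_sub_right, inner_smul_right, real_inner_self_eq_norm_sq,
        norm_nd hp, bs, EuclideanSpace.inner_single_right]
      simp
    simp only [hL, hl, sub_apply, ContinuousLinearMap.id_apply,
      ContinuousLinearMap.smulRight_apply, smul_apply, this]
    simp
  unfold JJ
  rw [e0, e1, trp_eq _ (norm_nd hp), trp_eq _ (norm_nd hp)]
  simp only [e2, hfix]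

end Pool.Agent.Work.MP_d0383e_an
end

-- merged part: Pool.Agent.Work.MP_d0383e_an.Perron
section
namespace Pool.Agent.Work.MP_d0383e_an

open scoped ContDiff Laplacian Topology
open Filter Set

structure Dat where
  d : ℝ
  P : E3
  g : E3 → ℝ
  L : ℝ
  C : ℝ
  hd : 0 ≤ d
  hP : P 2 ≠ 0
  hL0 : 0 ≤ L
  hL : ∀ X Y, g X - g Y ≤ L * ‖X - Y‖
  hC : ∀ X, ‖P‖ + |g X| + 1 ≤ C
  he : ∀ (X : E3) (b : ℝ), g (X + b • e3) = g X

namespace Dat

variable (D : Dat)

theorem C_pos : 0 < D.C := by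
  have := D.hC 0
  have := abs_nonneg (D.g 0)
  have := norm_nonneg D.P
  linarith

theorem g_cont : Continuous D.g := by
  refine (LipschitzWith.of_dist_le_mul (K := ⟨D.L, D.hL0⟩) fun X Y => ?_).continuous
  rw [Real.dist_eq, dist_eq_norm, abs_le]
  have h1 := D.hL X Y
  have h2 := D.hL Y X
  rw [norm_sub_rev] at h2
  change -(D.L * _) ≤ _ ∧ _ ≤ D.L * _
  constructor <;> linarith only [h2, h1]

theorem inner_e3 : inner ℝ D.P e3 = D.P 2 := by
  rw [e3, EuclideanSpace.inner_single_right]; simp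

def SubAt (u : E3 × ℝ → ℝ) (z : E3 × ℝ) : Prop :=
  ∀ φ : E3 × ℝ → ℝ, ContDiff ℝ ∞ φ → IsLocalMax (fun y => u y - φ y) z →
    D1 φ z e3 = D.P 2 → JJ D.d φ z + D.g z.1 ≤ 0

structure Adm (u : E3 × ℝ → ℝ) : Prop where
  cont : ContinuousOn u (univ ×ˢ Ici 0)
  aff : ∀ (X : E3) (t b : ℝ), 0 ≤ t → u (X + b • e3, t) = u (X, t) + D.P 2 * b
  bd : ∀ (X : E3) (t : ℝ), 0 ≤ t → u (X, t) ≤ inner ℝ D.P X + D.C * t
  sub : ∀ z : E3 × ℝ, 0 < z.2 → D.SubAt u z

variable {D}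

theorem SubAt.of_touch {u v : E3 × ℝ → ℝ} {z : E3 × ℝ} (h : D.SubAt v z)
    (h1 : ∀ᶠ y in 𝓝 z, v y ≤ u y) (h2 : u z ≤ v z) : D.SubAt u z := by
  intro φ hφ hm h3
  refine h φ hφ ?_ h3
  filter_upwards [hm, h1] with y a b
  linarith

theorem subAt_smooth {χ : E3 × ℝ → ℝ} (hχ : ContDiff ℝ ∞ χ) {z : E3 × ℝ}
    (h : JJ D.d χ z + D.g z.1 ≤ 0) : D.SubAt χ z := by
  intro φ hφ hm h3
  have := JJ_mono D.hd hχ hφ hm (fun h0 => D.hP (by rw [← h3, h0]; rfl))
  linarith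

theorem SubAt.shift {u : E3 × ℝ → ℝ} {z w : E3 × ℝ} (h : D.SubAt u (z + w)) (a : ℝ) {κ : ℝ}
    (hκ : D.g z.1 ≤ κ + D.g (z.1 + w.1)) :
    D.SubAt (fun y => u (y + w) - (a + κ * y.2)) z := by
  intro φ hφ hm h3
  have h4 := h (fun y => φ (y + -w) + ((a - κ * w.2) + κ * y.2)) (by fun_prop) ?_ ?_
  · rw [JJ_shift _ hφ, add_neg_cancel_right] at h4
    simp only [Prod.fst_add] at h4
    linarith
  · have h5 : IsLocalMax ((fun y => u (y + w) - (a + κ * y.2) - φ y) ∘ fun y => y + -w) (z + w) :=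
      IsLocalMax.comp_continuous (by simpa using hm) (by fun_prop)
    refine h5.congr (Eventually.of_forall fun y => ?_)
    simp only [Function.comp, neg_add_cancel_right, Prod.snd_add, Prod.snd_neg]
    ring
  · rw [D1_shift, add_neg_cancel_right, h3]

variable (D)

noncomputable def lo (y : E3 × ℝ) : ℝ := inner ℝ D.P y.1 + -D.C * y.2

theorem lin_smooth (κ : ℝ) : ContDiff ℝ ∞ fun y : E3 × ℝ => inner ℝ D.P y.1 + κ * y.2 :=
  ((innerSL ℝ D.P).contDiff.comp contDiff_fst).add (by fun_prop)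

theorem lo_smooth : ContDiff ℝ ∞ D.lo := D.lin_smooth _

theorem lo_sub (z : E3 × ℝ) : D.SubAt D.lo z := by
  refine subAt_smooth D.lo_smooth ?_
  have := JJ_lin D.d D.P (-D.C) z
  have h1 := D.hC z.1
  have h2 := le_abs_self (D.g z.1)
  unfold lo
  linarith

theorem lo_aff (X : E3) (t b : ℝ) : D.lo (X + b • e3, t) = D.lo (X, t) + D.P 2 * b := by
  simp only [lo, inner_add_right, inner_smul_right, inner_e3]; ring

theorem lo_adm : D.Adm D.lo where
  cont := D.lo_smooth.continuous.continuousOn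
  aff X t b _ := D.lo_aff X t b
  bd X t ht := by have := D.C_pos; simp only [lo]; linarith only [ht, this, mul_nonneg_of_nonpos_of_nonpos (Mathlib.Tactic.Linarith.sub_nonpos_of_le ht) (le_of_lt (Mathlib.Tactic.Linarith.sub_neg_of_lt this))]
  sub z _ := D.lo_sub z

noncomputable def G (z : E3 × ℝ) : ℝ := sSup ((fun u : E3 × ℝ → ℝ => u z) '' {u | D.Adm u})

variable {D}

theorem Adm.le {u : E3 × ℝ → ℝ} (h : D.Adm u) (X : E3) {t : ℝ} (ht : 0 ≤ t) :
    u (X, t) ≤ D.G (X, t) :=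
  le_csSup ⟨inner ℝ D.P X + D.C * t, by rintro _ ⟨v, hv, rfl⟩; exact hv.bd X t ht⟩ ⟨u, h, rfl⟩

theorem G_le {z : E3 × ℝ} {a : ℝ} (h : ∀ u, D.Adm u → u z ≤ a) : D.G z ≤ a :=
  csSup_le ⟨_, D.lo, D.lo_adm, rfl⟩ (by rintro _ ⟨v, hv, rfl⟩; exact h v hv)

theorem exists_adm {z : E3 × ℝ} {a : ℝ} (h : a < D.G z) : ∃ u, D.Adm u ∧ a < u z := by
  by_contra hc
  push Not at hc
  exact absurd (G_le hc) (not_le.2 h)

theorem Adm.shift {u : E3 × ℝ → ℝ} (h : D.Adm u) (Y : E3) {s : ℝ} (hs : 0 ≤ s) (a : ℝ) {κ : ℝ}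
    (hκ : ∀ X, D.g X ≤ κ + D.g (X + Y))
    (hb : ∀ X t, 0 ≤ t → u (X + Y, t + s) - (a + κ * t) ≤ inner ℝ D.P X + D.C * t) :
    D.Adm fun y => u (y + (Y, s)) - (a + κ * y.2) where
  cont := by
    refine (h.cont.comp (f := fun y => y + (Y, s)) (by fun_prop) fun y hy => ⟨trivial, ?_⟩).sub
      (by fun_prop)
    have : 0 ≤ y.2 := hy.2
    simp only [Prod.snd_add, mem_Ici]
    linarith
  aff X t b ht := by
    simp only [Prod.mk_add_mk]
    rw [add_right_comm, h.aff _ _ _ (by linarith)]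
    ring
  bd := hb
  sub z hz := (h.sub (z + (Y, s)) (by simp only [Prod.snd_add]; linarith)).shift a (hκ _)

theorem G_bd (X : E3) {t : ℝ} (ht : 0 ≤ t) : D.G (X, t) ≤ inner ℝ D.P X + D.C * t :=
  G_le fun _ hu => hu.bd X t ht

theorem G_lo (X : E3) {t : ℝ} (ht : 0 ≤ t) : inner ℝ D.P X - D.C * t ≤ D.G (X, t) := by
  have := D.lo_adm.le X ht
  simp only [lo] at this
  linarith

theorem G_space (X Y : E3) {t : ℝ} (ht : 0 ≤ t) {κ : ℝ} (h0 : 0 ≤ κ)
    (hκ : ∀ X, D.g X ≤ κ + D.g (X + Y)) :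
    D.G (X + Y, t) ≤ D.G (X, t) + inner ℝ D.P Y + κ * t := by
  refine G_le fun u hu => ?_
  have := (hu.shift Y le_rfl (inner ℝ D.P Y) hκ fun X t ht => by
    have := hu.bd (X + Y) t ht
    have := mul_nonneg h0 ht
    rw [inner_add_right] at *
    rw [add_zero]; linarith).le X ht
  simp only [Prod.mk_add_mk, add_zero] at this
  linarith

theorem G_inv (X Y : E3) {t : ℝ} (ht : 0 ≤ t) (h : ∀ X, D.g (X + Y) = D.g X) :
    D.G (X + Y, t) = D.G (X, t) + inner ℝ D.P Y := by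
  have h1 := G_space (D := D) X Y ht le_rfl fun X => by rw [h, zero_add]
  have h2 := G_space (D := D) (X + Y) (-Y) ht le_rfl fun X => by
    rw [← h (X + -Y), neg_add_cancel_right, zero_add]
  rw [add_neg_cancel_right, inner_neg_right] at h2
  linarith

theorem G_aff (X : E3) (t b : ℝ) (ht : 0 ≤ t) : D.G (X + b • e3, t) = D.G (X, t) + D.P 2 * b := by
  rw [G_inv X _ ht fun X => D.he X b, inner_smul_right, inner_e3, mul_comm]

theorem G_lip (X Y : E3) {t : ℝ} (ht : 0 ≤ t) :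
    D.G (X, t) - D.G (Y, t) ≤ (‖D.P‖ + D.L * t) * ‖X - Y‖ := by
  have h1 := G_space (D := D) Y (X - Y) ht (κ := D.L * ‖X - Y‖) (mul_nonneg D.hL0 (norm_nonneg _))
    fun Z => by
      have := D.hL Z (Z + (X - Y))
      rw [sub_add_cancel_left, norm_neg] at this
      linarith
  rw [add_sub_cancel] at h1
  have := real_inner_le_norm D.P (X - Y)
  linarith only [h1, this]

theorem G_time1 (X : E3) {t s : ℝ} (ht : 0 ≤ t) (hs : 0 ≤ s) :
    D.G (X, t + s) ≤ D.G (X, t) + D.C * s := by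
  refine G_le fun u hu => ?_
  have := (hu.shift 0 hs (D.C * s) (κ := 0) (fun X => by simp) fun X t ht => by
    have := hu.bd X (t + s) (by linarith)
    rw [add_zero]; linarith).le X ht
  simp only [Prod.mk_add_mk, add_zero] at this
  linarith

theorem G_time2 (X : E3) {t s : ℝ} (ht : 0 ≤ t) (hs : 0 ≤ s) :
    D.G (X, t) ≤ D.G (X, t + s) + D.C * s := by
  refine G_le fun u hu => ?_
  have hC := D.C_pos
  have key : D.Adm fun y => max (D.lo y) (u (y.1, max (y.2 - s) 0) - D.C * s) := by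
    refine ⟨?_, fun X t b ht => ?_, fun X t ht => max_le (D.lo_adm.bd X t ht) ?_, fun z hz => ?_⟩
    · refine D.lo_adm.cont.sup (ContinuousOn.sub (hu.cont.comp
        (f := fun y : E3 × ℝ => (y.1, max (y.2 - s) 0)) (by fun_prop)
        fun y _ => ⟨trivial, mem_Ici.2 (le_max_right _ _)⟩) continuousOn_const)
    · simp only [lo_aff, hu.aff _ _ _ (le_max_right _ _)]
      rw [← max_add_add_right]; congr 1; ring
    · have h1 := hu.bd X _ (le_max_right (t - s) 0)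
      have h2 : max (t - s) 0 ≤ t := max_le (by linarith) ht
      simp only
      linarith only [h1, hs, hC, h2, mul_nonneg_of_nonpos_of_nonpos (Mathlib.Tactic.Linarith.sub_nonpos_of_le hs) (le_of_lt (Mathlib.Tactic.Linarith.sub_neg_of_lt hC)), mul_nonneg_of_nonpos_of_nonpos (le_of_lt (Mathlib.Tactic.Linarith.sub_neg_of_lt hC)) (Mathlib.Tactic.Linarith.sub_nonpos_of_le h2)]
    · rcases le_total (u (z.1, max (z.2 - s) 0) - D.C * s) (D.lo z) with h | h
      · exact (D.lo_sub z).of_touch (Eventually.of_forall fun y => le_max_left _ _)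
          (max_le le_rfl h)
      rcases le_or_gt z.2 s with h1 | h1
      · refine (D.lo_sub z).of_touch (Eventually.of_forall fun y => le_max_left _ _)
          (max_le le_rfl ?_)
        rw [max_eq_right (by linarith)]
        have := hu.bd z.1 0 le_rfl
        simp only [lo]
        linarith only [this, hC, h1, mul_nonneg_of_nonpos_of_nonpos (le_of_lt (Mathlib.Tactic.Linarith.sub_neg_of_lt hC)) (Mathlib.Tactic.Linarith.sub_nonpos_of_le h1)]
      · have h2 := (hu.sub (z + (0, -s)) (by simp only [Prod.snd_add]; linarith)).shift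
          (D.C * s) (κ := 0) (by simp)
        have h3 : ∀ y : E3 × ℝ, s < y.2 → u (y + (0, -s)) - (D.C * s + 0 * y.2) =
            u (y.1, max (y.2 - s) 0) - D.C * s := by
          intro y hy
          rw [max_eq_left (by linarith), zero_mul, add_zero]
          congr 2
          ext <;> simp [sub_eq_add_neg]
        refine h2.of_touch ?_ (by rw [h3 z h1]; exact max_le h le_rfl)
        filter_upwards [continuous_snd.continuousAt.eventually (lt_mem_nhds h1)] with y hy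
        rw [h3 y hy]
        exact le_max_right _ _
  have := key.le X (t := t + s) (by linarith)
  simp only [add_sub_cancel_right, max_eq_left ht] at this
  have := le_trans (le_max_right _ _) this
  linarith

theorem G_time (X : E3) {t s : ℝ} (ht : 0 ≤ t) (hs : 0 ≤ s) :
    D.G (X, t) - D.G (X, s) ≤ D.C * |t - s| := by
  rcases le_total t s with h | h
  · have := G_time2 (D := D) X ht (sub_nonneg.2 h)
    rw [add_sub_cancel] at this
    rw [abs_sub_comm, abs_of_nonneg (sub_nonneg.2 h)]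
    linarith
  · have := G_time1 (D := D) X hs (sub_nonneg.2 h)
    rw [add_sub_cancel] at this
    rw [abs_of_nonneg (sub_nonneg.2 h)]
    linarith

theorem G_cont : ContinuousOn D.G (univ ×ˢ Ici 0) := by
  intro z hz
  have hc : Continuous fun y : E3 × ℝ => (‖D.P‖ + D.L * z.2) * ‖y.1 - z.1‖ + D.C * |y.2 - z.2| := by
    fun_prop
  have h0 := (hc.tendsto z).mono_left (nhdsWithin_le_nhds (s := univ ×ˢ Ici 0))
  simp only [sub_self, norm_zero, mul_zero, abs_zero, add_zero] at h0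
  refine tendsto_iff_norm_sub_tendsto_zero.2 (squeeze_zero' (Eventually.of_forall fun _ =>
    norm_nonneg _) ?_ h0)
  filter_upwards [self_mem_nhdsWithin] with y hy
  have h1 := G_lip (D := D) y.1 z.1 hz.2
  have h2 := G_lip (D := D) z.1 y.1 hz.2
  have h3 := G_time (D := D) y.1 hy.2 hz.2
  have h4 := G_time (D := D) y.1 hz.2 hy.2
  rw [norm_sub_rev] at h2
  rw [abs_sub_comm] at h4
  simp only [Prod.mk.eta] at h1 h2 h3 h4
  rw [Real.norm_eq_abs, abs_le]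
  constructor <;> linarith only [h2, h4, h1, h3]

end Dat

end Pool.Agent.Work.MP_d0383e_an
end

-- merged part: Pool.Agent.Work.MP_d0383e_an.Perron2
section
namespace Pool.Agent.Work.MP_d0383e_an

open scoped ContDiff Laplacian Topology
open Filter Set

theorem exists_r {z : E3 × ℝ} {p : ℝ × E3 × ℝ → Prop} (h : ∀ᶠ w in 𝓝 ((0 : ℝ), z), p w) :
    ∃ r : ℝ, 0 < r ∧ r ≤ 1 ∧ ∀ μ y, |μ| ≤ r → dist y z ≤ r → p (μ, y) := by
  obtain ⟨r, hr, h⟩ := Metric.nhds_basis_closedBall.eventually_iff.1 h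
  refine ⟨min r 1, lt_min hr one_pos, min_le_right _ _, fun μ y h1 h2 => h ?_⟩
  rw [Metric.mem_closedBall, Prod.dist_eq]
  exact max_le (by simpa using h1.trans (min_le_left _ _)) (h2.trans (min_le_left _ _))

noncomputable def qq (z y : E3 × ℝ) : ℝ := ‖y.1 - z.1‖ ^ 2 + (y.2 - z.2) ^ 2

theorem qq_smooth (z : E3 × ℝ) : ContDiff ℝ ∞ (qq z) :=
  ((contDiff_norm_sq ℝ).comp (contDiff_fst.sub contDiff_const)).add (by fun_prop)

theorem dist_sq_le (z y : E3 × ℝ) : dist y z ^ 2 ≤ qq z y := by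
  rw [Prod.dist_eq, qq, dist_eq_norm, Real.dist_eq]
  rcases le_total ‖y.1 - z.1‖ |y.2 - z.2| with h | h
  · rw [max_eq_right h, sq_abs]; linarith only [sq_nonneg ‖y.1 - z.1‖, sq_nonneg ‖y.1 - z.1‖]
  · rw [max_eq_left h]; nlinarith [sq_nonneg (y.2 - z.2)]

namespace Dat

variable {D : Dat}

theorem G_sub (z : E3 × ℝ) (hz : 0 < z.2) : D.SubAt D.G z := by
  intro φ hφ hm h3
  by_contra hc
  push Not at hc
  have hp : D1 φ z ≠ 0 := fun h0 => D.hP (by rw [← h3, h0]; rfl)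
  have hg := D.g_cont
  have e1 : ∀ᶠ w : ℝ × E3 × ℝ in 𝓝 (0, z),
      0 < JJ D.d (fun y => φ y + w.1 * qq z y) w.2 + D.g w.2.1 :=
    ((JJ_cont D.d hφ (qq_smooth z) hp).add (g := fun w : ℝ × E3 × ℝ => D.g w.2.1)
      (by fun_prop)).eventually (lt_mem_nhds (by simpa using hc))
  have e2 : ∀ᶠ w : ℝ × E3 × ℝ in 𝓝 (0, z), D.G w.2 - φ w.2 ≤ D.G z - φ z :=
    (continuous_snd.tendsto ((0 : ℝ), z)).eventually hm
  have e3 : ∀ᶠ w : ℝ × E3 × ℝ in 𝓝 (0, z), 0 < w.2.2 :=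
    (continuous_snd.snd.tendsto ((0 : ℝ), z)).eventually (lt_mem_nhds hz)
  obtain ⟨r, hr, -, h⟩ := exists_r (e1.and (e2.and e3))
  have hrr : |r| ≤ r := (abs_of_pos hr).le
  obtain ⟨u, hu, hu2⟩ := exists_adm (D := D) (z := z) (a := D.G z - r * r ^ 2)
    (by have : 0 < r * r ^ 2 := by positivity
        linarith)
  have hs : ContDiff ℝ ∞ fun y => φ y + r * qq z y := hφ.add (contDiff_const.mul (qq_smooth z))
  obtain ⟨y, hy, hmax⟩ := (isCompact_closedBall z r).exists_isMaxOn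
    ⟨z, Metric.mem_closedBall_self hr.le⟩ (f := fun y => u y - (φ y + r * qq z y))
    ((hu.cont.mono fun y hy => ⟨trivial, (h r y hrr hy).2.2.le⟩).sub hs.continuous.continuousOn)
  have hy' := h r y hrr hy
  have hlt : dist y z < r := by
    by_contra hge
    push Not at hge
    have h1 : u z - (φ z + r * qq z z) ≤ u y - (φ y + r * qq z y) :=
      hmax (Metric.mem_closedBall_self hr.le)
    have h2 : r ^ 2 ≤ qq z y := le_trans (by gcongr) (dist_sq_le z y)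
    have h4 : qq z z = 0 := by simp [qq]
    have h5 := hu.le y.1 hy'.2.2.le
    have h6 := hy'.2.1
    have h7 := mul_le_mul_of_nonneg_left h2 hr.le
    simp only [Prod.mk.eta] at h5 h6
    rw [h4] at h1
    linarith only [hu2, hy', h1, h7, h5]
  have hloc : IsLocalMax (fun y => u y - (φ y + r * qq z y)) y :=
    hmax.isLocalMax (Metric.closedBall_mem_nhds_of_mem hlt)
  have := hu.sub y hy'.2.2 _ hs hloc
    (touch hs (fun b => hu.aff y.1 y.2 b hy'.2.2.le) (Or.inr hloc))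
  linarith [hy'.1]

theorem G_adm : D.Adm D.G := ⟨G_cont, G_aff, fun X _ ht => G_bd X ht, G_sub⟩

/-- the bump construction -/
theorem bump {χ ρ : E3 × ℝ → ℝ} (hχ : ContDiff ℝ ∞ χ) (hρ : Continuous ρ)
    (a1 : ∀ X t (b : ℝ), χ (X + b • e3, t) = χ (X, t) + D.P 2 * b)
    (a2 : ∀ X t (b : ℝ), ρ (X + b • e3, t) = ρ (X, t))
    (h : ∀ y, 0 ≤ ρ y → χ y - D.G y ≤ ρ y ∧ χ y ≤ inner ℝ D.P y.1 + D.C * y.2 ∧
      JJ D.d χ y + D.g y.1 ≤ 0) (z : E3 × ℝ) (hz : 0 ≤ z.2) (h0 : 0 ≤ ρ z) : χ z ≤ D.G z := by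
  have key : D.Adm fun y => D.G y + max 0 (min (χ y - D.G y) (ρ y)) := by
    refine ⟨G_cont.add (continuousOn_const.sup ((hχ.continuous.continuousOn.sub G_cont).inf
      hρ.continuousOn)), fun X t b ht => ?_, fun X t ht => ?_, fun y hy => ?_⟩
    · simp only [a1, a2, G_aff X t b ht, add_sub_add_right_eq_sub]; ring
    · have h1 := G_bd (D := D) X ht
      rcases le_total 0 (ρ (X, t)) with h2 | h2
      · have h3 := (h _ h2).2.1
        have := max_le (a := 0) (b := min (χ (X, t) - D.G (X, t)) (ρ (X, t)))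
          (c := inner ℝ D.P X + D.C * t - D.G (X, t)) (by linarith)
          ((min_le_left _ _).trans (by simp only at h3; linarith))
        linarith
      · rw [max_eq_left ((min_le_right _ _).trans h2)]
        linarith
    · rcases le_or_gt (min (χ y - D.G y) (ρ y)) 0 with h1 | h1
      · refine (G_sub y hy).of_touch (Eventually.of_forall fun x => ?_) (by rw [max_eq_left h1]; simp)
        linarith [le_max_left 0 (min (χ x - D.G x) (ρ x))]
      · have h2 : 0 < ρ y := h1.trans_le (min_le_right _ _)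
        refine (subAt_smooth hχ (h y h2.le).2.2).of_touch ?_ ?_
        · filter_upwards [hρ.continuousAt.eventually (lt_mem_nhds h2)] with x hx
          rw [min_eq_left (h x hx.le).1]
          linarith [le_max_right 0 (χ x - D.G x)]
        · rw [max_eq_right h1.le]
          linarith [min_le_left (χ y - D.G y) (ρ y)]
  have := key.le z.1 hz
  simp only [Prod.mk.eta] at this
  rw [min_eq_left (h z h0).1] at this
  linarith [le_max_right 0 (χ z - D.G z)]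

theorem G_sup (z : E3 × ℝ) (hz : 0 < z.2) (φ : E3 × ℝ → ℝ) (hφ : ContDiff ℝ ∞ φ)
    (hm : IsLocalMin (fun y => D.G y - φ y) z) : 0 ≤ JJ D.d φ z + D.g z.1 := by
  have h3 : D1 φ z e3 = D.P 2 := touch hφ (fun b => G_aff z.1 z.2 b hz.le) (Or.inl hm)
  have et : ∀ᶠ y : E3 × ℝ in 𝓝 z, 0 < y.2 := (continuous_snd.tendsto z).eventually (lt_mem_nhds hz)
  rcases (G_bd (D := D) z.1 hz.le).eq_or_lt with hb | hb
  · have h1 : IsLocalMax (fun y : E3 × ℝ => φ y - (inner ℝ D.P y.1 + D.C * y.2)) z := by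
      filter_upwards [hm, et] with y h1 h2
      have := G_bd (D := D) y.1 h2.le
      simp only [Prod.mk.eta] at this hb
      linarith only [h1, this, hb]
    have h2 := JJ_mono D.hd hφ (D.lin_smooth D.C) h1 (fun h0 => D.hP (by
      rw [D1_lin] at h0
      rw [← D.inner_e3, ← innerSL_apply_apply ℝ, h0]; rfl))
    rw [JJ_lin] at h2
    have := D.hC z.1
    have := neg_abs_le (D.g z.1)
    have := norm_nonneg D.P
    linarith
  by_contra hc
  push Not at hc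
  obtain ⟨L, l, hv, hL, hl, hJ⟩ := exists_affine D.d hφ D.hP h3
  set π : E3 × ℝ → E3 × ℝ := fun y => (z.1 + L (y.1 - z.1), y.2) with hπ
  set ψ : E3 × ℝ → ℝ := fun y => φ (π y) + D.P 2 * l (y.1 - z.1) with hψ
  have πs : ContDiff ℝ ∞ π := by rw [hπ]; fun_prop
  have ψs : ContDiff ℝ ∞ ψ := (hφ.comp πs).add (by fun_prop)
  have qs : ContDiff ℝ ∞ fun y => qq z (π y) := (qq_smooth z).comp πs
  have πz : π z = z := by simp [hπ]
  have ψz : ψ z = φ z := by simp [hψ, πz]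
  have πa : ∀ X t (b : ℝ), π (X + b • e3, t) = π (X, t) := by
    intro X t b
    simp only [hπ, add_sub_right_comm X, map_add, map_smul, hL, smul_zero, add_zero]
  have ψa : ∀ X t (b : ℝ), ψ (X + b • e3, t) = ψ (X, t) + D.P 2 * b := by
    intro X t b
    simp only [hψ, πa, add_sub_right_comm X, map_add, map_smul, hl, smul_eq_mul]; ring
  have hdec : ∀ y : E3 × ℝ, y = ((π y).1 + l (y.1 - z.1) • e3, (π y).2) := by
    intro y
    simp only [hπ, add_assoc, ← hv, add_sub_cancel]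
  have hp : D1 ψ z ≠ 0 := by
    have := touch (u := ψ) ψs (z := z) (fun b => ψa z.1 z.2 b) 
      (Or.inl (Eventually.of_forall fun y => by simp))
    exact fun h0 => D.hP (by rw [← this, h0]; rfl)
  have hg := D.g_cont
  have e1 : ∀ᶠ w : ℝ × E3 × ℝ in 𝓝 (0, z),
      JJ D.d (fun y => ψ y + w.1 * qq z (π y)) w.2 + D.g w.2.1 < 0 :=
    ((JJ_cont D.d ψs qs hp).add (g := fun w : ℝ × E3 × ℝ => D.g w.2.1)
      (by fun_prop)).eventually (gt_mem_nhds (by rw [← hJ] at hc; simpa using hc))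
  have e2 : ∀ᶠ w : ℝ × E3 × ℝ in 𝓝 (0, z), D.G z - φ z ≤ D.G w.2 - φ w.2 :=
    (continuous_snd.tendsto ((0 : ℝ), z)).eventually hm
  have e3' : ∀ᶠ w : ℝ × E3 × ℝ in 𝓝 (0, z), 0 < w.2.2 :=
    (continuous_snd.snd.tendsto ((0 : ℝ), z)).eventually (lt_mem_nhds hz)
  have e4 : ∀ᶠ w : ℝ × E3 × ℝ in 𝓝 (0, z),
      ψ w.2 + (D.G z - φ z) + w.1 - (inner ℝ D.P w.2.1 + D.C * w.2.2) < 0 := by
    have hψc := ψs.continuous
    have : Continuous fun w : ℝ × E3 × ℝ =>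
      ψ w.2 + (D.G z - φ z) + w.1 - (inner ℝ D.P w.2.1 + D.C * w.2.2) := by fun_prop
    refine this.continuousAt.eventually (gt_mem_nhds ?_)
    simp only [Prod.mk.eta] at hb
    simp only [ψz]
    linarith only [hb]
  obtain ⟨r, hr, hr1, h⟩ := exists_r (e1.and (e2.and (e3'.and e4)))
  have hrr : |r| ≤ r := (abs_of_pos hr).le
  have hr3 : 0 < r * r ^ 2 := by positivity
  have hr4 : r * r ^ 2 ≤ r := mul_le_of_le_one_right hr.le (pow_le_one₀ hr.le hr1)
  set χ0 : E3 × ℝ → ℝ := fun y => ψ y + -r * qq z (π y) with hχ0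
  have χs : ContDiff ℝ ∞ χ0 := ψs.add (contDiff_const.mul qs)
  have χa : ∀ X t (b : ℝ), χ0 (X + b • e3, t) = χ0 (X, t) + D.P 2 * b := by
    intro X t b; simp only [hχ0, ψa, πa]; ring
  have key := bump (D := D) (χ := fun y => χ0 y + (D.G z - φ z + r * r ^ 2 / 4))
    (ρ := fun y => r * (r ^ 2 - qq z (π y))) (χs.add contDiff_const)
    (continuous_const.mul (continuous_const.sub qs.continuous))
    (fun X t b => by simp only [χa]; ring) (fun X t b => by simp only [πa]) (fun y hy => ?_) z hz.le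
    (by simp only [πz, qq]; simp; positivity)
  · simp only [hχ0, πz, ψz, qq] at key
    simp at key
    linarith only [hr3, key]
  have hq : qq z (π y) ≤ r ^ 2 := sub_nonneg.1 (nonneg_of_mul_nonneg_right hy hr |> fun h => h)
  have hq0 : 0 ≤ qq z (π y) := by unfold qq; positivity
  have hd : dist (π y) z ≤ r :=
    abs_le_of_sq_le_sq' ((dist_sq_le z _).trans hq) hr.le |>.2
  obtain ⟨-, h2, h4, h5⟩ := h r (π y) hrr hd
  have h1 := (h (-r) (π y) (by rwa [abs_neg]) hd).1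
  have hGy : D.G y = D.G (π y) + D.P 2 * l (y.1 - z.1) := by
    conv_lhs => rw [hdec y]
    exact G_aff _ _ _ h4.le
  have hψy : ψ y = ψ (π y) + D.P 2 * l (y.1 - z.1) := by
    conv_lhs => rw [hdec y]
    exact ψa _ _ _
  have hPy : inner ℝ D.P y.1 = inner ℝ D.P (π y).1 + D.P 2 * l (y.1 - z.1) := by
    conv_lhs => rw [hdec y]
    rw [inner_add_right, inner_smul_right, inner_e3, mul_comm]
  have hgy : D.g y.1 = D.g (π y).1 := by
    conv_lhs => rw [hdec y]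
    exact D.he _ _
  have hy2 : (π y).2 = y.2 := rfl
  have hrq := mul_nonneg hr.le hq0
  refine ⟨?_, ?_, ?_⟩
  · have : ψ y = φ (π y) + D.P 2 * l (y.1 - z.1) := rfl
    simp only [hχ0] at h2 ⊢
    linarith only [hr3, h2, hGy]
  · simp only [hχ0, hy2] at h5 ⊢
    linarith only [hr, hr4, hψy, hPy, hrq, h5]
  · have h6 := JJ_shift D.d χs ((-l (y.1 - z.1)) • e3, 0)
      (D.G z - φ z + r * r ^ 2 / 4 + D.P 2 * l (y.1 - z.1)) 0 y
    have h7 : y + ((-l (y.1 - z.1)) • e3, 0) = π y := by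
      conv_lhs => enter [1]; rw [hdec y]
      rw [Prod.mk_add_mk, neg_smul, add_neg_cancel_right, add_zero]
    have h8 : (fun x : E3 × ℝ => χ0 (x + ((-l (y.1 - z.1)) • e3, 0)) +
        (D.G z - φ z + r * r ^ 2 / 4 + D.P 2 * l (y.1 - z.1) + 0 * x.2)) =
        fun x => χ0 x + (D.G z - φ z + r * r ^ 2 / 4) := by
      funext x
      have := χa x.1 x.2 (-l (y.1 - z.1))
      rw [show x + ((-l (y.1 - z.1)) • e3, 0) = (x.1 + (-l (y.1 - z.1)) • e3, x.2) by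
        ext <;> simp, this]
      ring
    rw [h7, h8] at h6
    rw [h6, hgy]
    simp only at h1
    linarith only [h1]

end Dat

end Pool.Agent.Work.MP_d0383e_an
end

-- merged part: Pool.Agent.Work.MP_d0383e_an.Perron3
section
namespace Pool.Agent.Work.MP_d0383e_an

open scoped ContDiff Laplacian Topology
open Filter Set

namespace Dat

variable {D : Dat}

theorem grad_bound (hd : D.d = 0) {φ : E3 × ℝ → ℝ} (hφ : ContDiff ℝ ∞ φ) {z : E3 × ℝ}
    (hz : 0 < z.2) (hm : IsLocalMax (fun y => D.G y - φ y) z) : ‖D1 φ z‖ ≤ 2 * D.C := by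
  have h1 := G_sub z hz φ hφ hm (touch hφ (fun b => G_aff z.1 z.2 b hz.le) (Or.inr hm))
  have tφ : Differentiable ℝ fun s : ℝ => φ (z.1, s) :=
    (hφ.differentiable (by simp)).comp (by fun_prop)
  have h2 : -D.C ≤ D0 φ z := by
    refine ge_of_tendsto (tφ z.2).hasDerivAt.tendsto_slope_zero_right ?_
    have h3 : Tendsto (fun s : ℝ => (z.1, z.2 + s)) (𝓝[>] 0) (𝓝 z) := by
      have : Continuous fun s : ℝ => (z.1, z.2 + s) := by fun_prop
      simpa using (this.tendsto 0).mono_left (nhdsWithin_le_nhds (s := Ioi 0))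
    filter_upwards [h3.eventually hm, self_mem_nhdsWithin] with s h4 hs
    have hs' : (0 : ℝ) < s := hs
    have h5 := G_time2 (D := D) z.1 hz.le hs'.le
    simp only [Prod.mk.eta] at h4 h5 ⊢
    rw [smul_eq_mul, ← div_eq_inv_mul, le_div_iff₀ hs']
    linarith
  have h3 := D.hC z.1
  have h4 := neg_abs_le (D.g z.1)
  have h5 := norm_nonneg D.P
  unfold JJ at h1
  rw [hd, zero_mul, sub_zero, max_eq_left (norm_nonneg _)] at h1
  linarith

theorem osc (hd : D.d = 0) (X Y : E3) {t : ℝ} (ht : 0 < t) :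
    D.G (X, t) - D.G (Y, t) ≤ 4 * D.C * (1 + ‖X - Y‖) + 1 + D.C := by
  have hC := D.C_pos
  have hP : ‖D.P‖ ≤ D.C := by linarith only [D.hC 0, abs_nonneg (D.g 0)]
  have hl : 0 ≤ ‖D.P‖ + D.L * t := add_nonneg (norm_nonneg _) (mul_nonneg D.hL0 ht.le)
  obtain ⟨ε, hε, hε1, hε2⟩ : ∃ ε : ℝ, 0 < ε ∧ ε ≤ 1 ∧ (‖D.P‖ + D.L * t) * ε ≤ 1 := by
    refine ⟨1 / (‖D.P‖ + D.L * t + 1), by positivity, ?_, ?_⟩
    · rw [div_le_one (by positivity)]; linarith
    · rw [mul_one_div, div_le_one (by positivity)]; linarith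
  obtain ⟨a, ha, ha1, ha2⟩ : ∃ a : ℝ, 0 < a ∧ a ≤ 1 ∧ a < t :=
    ⟨min 1 (t / 2), by positivity, min_le_left _ _, (min_le_right _ _).trans_lt (by linarith)⟩
  set R := t + 3 + ‖X - Y‖ with hR
  set N := 2 * D.C / a with hN
  have hN0 : 0 < N := by positivity
  have hNa : N * a = 2 * D.C := by rw [hN]; field_simp
  set φ : E3 × ℝ → ℝ := fun y => 4 * D.C * √(ε ^ 2 + ‖y.1 - Y‖ ^ 2) + N * (y.2 - t) ^ 2 with hφ
  have hpos : ∀ Z : E3, 0 < ε ^ 2 + ‖Z - Y‖ ^ 2 := fun Z => by positivity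
  have φs : ContDiff ℝ ∞ φ := by
    refine (contDiff_const.mul (ContDiff.sqrt (contDiff_const.add ((contDiff_norm_sq ℝ).comp
      (contDiff_fst.sub contDiff_const))) fun y => (hpos y.1).ne')).add (by fun_prop)
  have hs1 : ∀ Z : E3, ‖Z - Y‖ ≤ √(ε ^ 2 + ‖Z - Y‖ ^ 2) := fun Z =>
    Real.le_sqrt_of_sq_le (by linarith only [sq_nonneg ε, sq_nonneg ε])
  have hs2 : ∀ Z : E3, √(ε ^ 2 + ‖Z - Y‖ ^ 2) ≤ 1 + ‖Z - Y‖ := fun Z =>
    Real.sqrt_le_iff.2 ⟨by positivity, by linarith only [hε1, hε, norm_nonneg (Z - Y), mul_nonneg_of_nonpos_of_nonpos (le_of_lt (Mathlib.Tactic.Linarith.sub_neg_of_lt hε)) (Mathlib.Tactic.Linarith.sub_nonpos_of_le hε1)]⟩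
  have hK : IsCompact (Metric.closedBall Y R ×ˢ Icc (t - a) (t + a)) :=
    (isCompact_closedBall _ _).prod isCompact_Icc
  have hR0 : 0 ≤ R := by positivity
  have hmem : ∀ Z, ‖Z - Y‖ ≤ R → (Z, t) ∈ Metric.closedBall Y R ×ˢ Icc (t - a) (t + a) :=
    fun Z hZ => ⟨mem_closedBall_iff_norm.2 hZ, by linarith, by linarith⟩
  obtain ⟨⟨Z, s⟩, ⟨hZ, hs⟩, hmax⟩ := hK.exists_isMaxOn ⟨_, hmem Y (by simpa using hR0)⟩
    (f := fun y => D.G y - φ y)
    ((G_cont.mono fun y hy => ⟨trivial, by have := hy.2.1; simp only [mem_Ici]; linarith⟩).sub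
      φs.continuous.continuousOn)
  have hZ' : ‖Z - Y‖ ≤ R := mem_closedBall_iff_norm.1 hZ
  have hs0 : 0 < s := by have := hs.1; simp only at this; linarith only [ha2, this]
  have hst : |s - t| ≤ a := abs_le.2 ⟨by have := hs.1; simp only at this; linarith,
    by have := hs.2; simp only at this; linarith⟩
  have hst2 : |s - t| < a := by
    refine hst.lt_of_ne fun h => ?_
    have h1 : D.G (Z, t) - φ (Z, t) ≤ D.G (Z, s) - φ (Z, s) := hmax (hmem Z hZ')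
    have h2 := G_time (D := D) Z hs0.le ht.le
    simp only [hφ, sub_self] at h1
    rw [← sq_abs (s - t), h] at h1
    rw [h] at h2
    linarith only [h2, h1, hC, ha, hNa, mul_pos_of_neg_of_neg (Mathlib.Tactic.Linarith.sub_neg_of_lt hC) (Mathlib.Tactic.Linarith.sub_neg_of_lt ha), Mathlib.Tactic.Linarith.mul_zero_eq (Mathlib.Tactic.Linarith.sub_neg_of_lt ha) (sub_eq_zero_of_eq hNa)]
  have hZ2 : ‖Z - Y‖ < R := by
    refine hZ'.lt_of_ne fun h => ?_
    have h1 : D.G (Y, t) - φ (Y, t) ≤ D.G (Z, s) - φ (Z, s) := hmax (hmem Y (by simpa using hR0))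
    have h2 := G_bd (D := D) Z hs0.le
    have h3 := G_lo (D := D) Y ht.le
    have h4 := hs1 Z
    have h5 := hs2 Y
    have h6 := real_inner_le_norm D.P (Z - Y)
    have h7 := (abs_le.1 hst).2
    have h8 := mul_nonneg hN0.le (sq_nonneg (s - t))
    have h9 := mul_le_mul_of_nonneg_right hP hR0
    rw [inner_sub_right, h] at h6
    simp only [hφ, sub_self] at h1
    simp only [sub_self, norm_zero, add_zero] at h5 h1
    rw [h] at h4 h1
    have h10 := norm_nonneg (X - Y)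
    linarith only [hC, h2, h3, h6, h8, h9, h1, ha2, h4, h7, h5, h10, mul_pos_of_neg_of_neg (Mathlib.Tactic.Linarith.sub_neg_of_lt hC) (Mathlib.Tactic.Linarith.sub_neg_of_lt ha2), mul_nonneg_of_nonpos_of_nonpos (le_of_lt (Mathlib.Tactic.Linarith.sub_neg_of_lt hC)) (Mathlib.Tactic.Linarith.sub_nonpos_of_le h4), mul_nonneg_of_nonpos_of_nonpos (le_of_lt (Mathlib.Tactic.Linarith.sub_neg_of_lt hC)) (Mathlib.Tactic.Linarith.sub_nonpos_of_le h7), mul_nonneg_of_nonpos_of_nonpos (le_of_lt (Mathlib.Tactic.Linarith.sub_neg_of_lt hC)) (Mathlib.Tactic.Linarith.sub_nonpos_of_le h5), mul_nonneg_of_nonpos_of_nonpos (le_of_lt (Mathlib.Tactic.Linarith.sub_neg_of_lt hC)) (Mathlib.Tactic.Linarith.sub_nonpos_of_le h10)]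
  have hloc : IsLocalMax (fun y => D.G y - φ y) (Z, s) := by
    refine hmax.isLocalMax (prod_mem_nhds (Metric.closedBall_mem_nhds_of_mem
      (mem_ball_iff_norm.2 hZ2)) (Icc_mem_nhds ?_ ?_))
    · linarith only [hst2, (abs_lt.1 hst2).1]
    · linarith [(abs_lt.1 hst2).2]
  have hg := grad_bound hd φs hs0 hloc
  have hD : D1 φ (Z, s) (Z - Y) = 4 * D.C * (‖Z - Y‖ ^ 2 / √(ε ^ 2 + ‖Z - Y‖ ^ 2)) := by
    have h1 := ((((((hasFDerivAt_id Z).sub_const Y).norm_sq).const_add (ε ^ 2)).sqrt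
      (hpos Z).ne').const_mul (4 * D.C)).add_const (N * (s - t) ^ 2)
    have h2 : D1 φ (Z, s) = _ := h1.fderiv
    have h5 := Real.sqrt_pos.2 (hpos Z)
    have h6 : inner ℝ (Z - Y) (Z - Y) = ‖Z - Y‖ ^ 2 := real_inner_self_eq_norm_sq _
    rw [h2]
    simp only [smul_apply, smul_eq_mul, id, ContinuousLinearMap.comp_apply,
      ContinuousLinearMap.id_apply, innerSL_apply_apply, h6, nsmul_eq_mul]
    field_simp
    ring
  have hρ : ‖Z - Y‖ ≤ ε := by
    have h1 := (D1 φ (Z, s)).le_opNorm (Z - Y)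
    have h2 := le_abs_self (D1 φ (Z, s) (Z - Y))
    have h3 := mul_le_mul_of_nonneg_right hg (norm_nonneg (Z - Y))
    rw [Real.norm_eq_abs] at h1
    have h4 := Real.sq_sqrt (hpos Z).le
    have h5 := Real.sqrt_pos.2 (hpos Z)
    set W := √(ε ^ 2 + ‖Z - Y‖ ^ 2)
    set ρ := ‖Z - Y‖
    have h6 : 2 * (ρ ^ 2 / W) ≤ ρ := by (refine le_of_not_gt fun h_nl => ?_; linarith only [h_nl, h2, h1, h3, hD, hC, mul_pos_of_neg_of_neg (Mathlib.Tactic.Linarith.sub_neg_of_lt hC) (Mathlib.Tactic.Linarith.sub_neg_of_lt h_nl)])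
    rw [← mul_div_assoc, div_le_iff₀ h5] at h6
    by_contra h7
    push Not at h7
    have h8 : 2 * ρ ≤ W := by (refine le_of_not_gt fun h_nl => ?_; linarith only [h_nl, h6, hε, h7, mul_pos_of_neg_of_neg (Mathlib.Tactic.Linarith.sub_neg_of_lt hε) (Mathlib.Tactic.Linarith.sub_neg_of_lt h_nl), mul_pos_of_neg_of_neg (Mathlib.Tactic.Linarith.sub_neg_of_lt h7) (Mathlib.Tactic.Linarith.sub_neg_of_lt h_nl)])
    linarith only [h4, h6, hε, h7, h8, h5, mul_pos_of_neg_of_neg (Mathlib.Tactic.Linarith.sub_neg_of_lt hε) (Mathlib.Tactic.Linarith.sub_neg_of_lt hε), mul_pos_of_neg_of_neg (Mathlib.Tactic.Linarith.sub_neg_of_lt hε) (Mathlib.Tactic.Linarith.sub_neg_of_lt h7), mul_nonneg_of_nonpos_of_nonpos (le_of_lt (Mathlib.Tactic.Linarith.sub_neg_of_lt hε)) (Mathlib.Tactic.Linarith.sub_nonpos_of_le h8), mul_pos_of_neg_of_neg (Mathlib.Tactic.Linarith.sub_neg_of_lt h5) (Mathlib.Tactic.Linarith.sub_neg_of_lt h7), mul_nonneg_of_nonpos_of_nonpos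 (le_of_lt (Mathlib.Tactic.Linarith.sub_neg_of_lt h5)) (Mathlib.Tactic.Linarith.sub_nonpos_of_le h8)]
  have h1 : D.G (X, t) - φ (X, t) ≤ D.G (Z, s) - φ (Z, s) := hmax (hmem X (by linarith only [ha, ha2]))
  have h2 := G_time (D := D) Z hs0.le ht.le
  have h3 := G_lip (D := D) Z Y ht.le
  have h4 := mul_le_mul_of_nonneg_left hρ hl
  have h5 := hs2 X
  have h6 : 0 ≤ φ (Z, s) := by simp only [hφ]; positivity
  have h7 : φ (X, t) = 4 * D.C * √(ε ^ 2 + ‖X - Y‖ ^ 2) := by simp [hφ]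
  have h8 := mul_le_mul_of_nonneg_left (hst.trans ha1) hC.le
  linarith only [hε2, h1, h2, h3, h4, h6, h8, hC, h5, mul_nonneg_of_nonpos_of_nonpos (le_of_lt (Mathlib.Tactic.Linarith.sub_neg_of_lt hC)) (Mathlib.Tactic.Linarith.sub_nonpos_of_le h5)]

theorem G_init (X : E3) : D.G (X, 0) = inner ℝ D.P X := by
  have h1 := G_bd (D := D) X le_rfl
  have h2 := G_lo (D := D) X le_rfl
  linarith

theorem osc2 (hd : D.d = 0) (hp : ∀ k X, D.g (X + latt k) = D.g X) :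
    ∃ B : ℝ, 0 ≤ B ∧ ∀ X Y t, 0 ≤ t →
      D.G (X, t) - inner ℝ D.P X ≤ D.G (Y, t) - inner ℝ D.P Y + B := by
  have hC := D.C_pos
  have hP := norm_nonneg D.P
  refine ⟨4 * D.C * 3 + 1 + D.C + ‖D.P‖ * 2, by positivity, fun X Y t ht => ?_⟩
  rcases ht.eq_or_lt with rfl | ht'
  · simp only [G_init, sub_self, zero_add]; positivity
  obtain ⟨k, hk⟩ := exists_latt (X - Y)
  rw [mem_closedBall_zero_iff, ← add_sub_right_comm] at hk
  have h1 := osc hd (X + latt k) Y ht'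
  rw [G_inv X _ ht (hp k)] at h1
  have h2 := real_inner_le_norm D.P (-(X + latt k - Y))
  rw [norm_neg, inner_neg_right, inner_sub_right, inner_add_right] at h2
  linarith only [h1, h2, hC, hk, hP, mul_nonneg_of_nonpos_of_nonpos (le_of_lt (Mathlib.Tactic.Linarith.sub_neg_of_lt hC)) (Mathlib.Tactic.Linarith.sub_nonpos_of_le hk), mul_nonneg_of_nonpos_of_nonpos (Mathlib.Tactic.Linarith.sub_nonpos_of_le hP) (Mathlib.Tactic.Linarith.sub_nonpos_of_le hk)]

theorem velocity (hd : D.d = 0) (hp : ∀ k X, D.g (X + latt k) = D.g X) :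
    ∃ H, HasBurningVelocity D.P D.G H := by
  obtain ⟨B, hB, h⟩ := osc2 hd hp
  have hC := D.C_pos
  set u : ℕ → ℝ := fun n => D.G (0, n) + B with hu
  have hsub : Subadditive u := by
    intro m n
    have h1 := (G_adm.shift (D := D) 0 (s := n) (Nat.cast_nonneg n) (D.G (0, n) + B) (κ := 0)
      (fun X => by simp) fun X t ht => by
        have h2 := G_time1 (D := D) X (Nat.cast_nonneg n) ht
        have h3 := h X 0 n (Nat.cast_nonneg n)
        rw [inner_zero_right] at h3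
        rw [add_zero, add_comm t]
        linarith).le 0 (Nat.cast_nonneg m)
    simp only [Prod.mk_add_mk, add_zero, zero_mul] at h1
    simp only [hu, Nat.cast_add]
    linarith
  have hbdd : BddBelow (range fun n => u n / n) := by
    refine ⟨-D.C, ?_⟩
    rintro _ ⟨n, rfl⟩
    rcases Nat.eq_zero_or_pos n with rfl | hn
    · simp [hC.le]
    · have h1 := G_lo (D := D) 0 (Nat.cast_nonneg n)
      rw [inner_zero_right] at h1
      simp only [hu]
      rw [le_div_iff₀ (by exact_mod_cast hn)]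
      linarith only [hB, h1]
  refine ⟨-hsub.lim, fun X => Tendsto.neg ?_⟩
  have h1 : Tendsto (fun t : ℝ => u ⌊t⌋₊ / t) atTop (𝓝 hsub.lim) := by
    have h2 := ((hsub.tendsto_lim hbdd).comp (tendsto_nat_floor_atTop (α := ℝ))).mul
      (tendsto_nat_floor_div_atTop (R := ℝ))
    rw [mul_one] at h2
    refine h2.congr' ?_
    filter_upwards [eventually_ge_atTop 1] with t ht
    have : (⌊t⌋₊ : ℝ) ≠ 0 := by exact_mod_cast (Nat.floor_pos.2 ht).ne'
    simp only [Function.comp]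
    field_simp
  have h2 : ∀ c : ℝ, Tendsto (fun t : ℝ => u ⌊t⌋₊ / t + c / t) atTop (𝓝 hsub.lim) := fun c => by
    simpa using h1.add ((tendsto_const_nhds (x := c)).div_atTop (tendsto_id (α := ℝ)))
  have h3 : ∀ t : ℝ, 0 ≤ t → |t - ⌊t⌋₊| ≤ 1 := fun t ht =>
    abs_le.2 ⟨by linarith [Nat.floor_le ht], by linarith [Nat.lt_floor_add_one t]⟩
  refine tendsto_of_tendsto_of_tendsto_of_le_of_le' (h2 (-(2 * B + D.C))) (h2 D.C) ?_ ?_
  · filter_upwards [eventually_gt_atTop 0] with t ht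
    rw [← add_div]
    refine div_le_div_of_nonneg_right ?_ ht.le
    have h4 := h 0 X t ht.le
    have h5 := G_time (D := D) 0 (Nat.cast_nonneg ⌊t⌋₊) ht.le
    rw [abs_sub_comm] at h5
    have h6 := mul_le_mul_of_nonneg_left (h3 t ht.le) hC.le
    rw [inner_zero_right] at h4
    simp only [hu]
    linarith
  · filter_upwards [eventually_gt_atTop 0] with t ht
    rw [← add_div]
    refine div_le_div_of_nonneg_right ?_ ht.le
    have h4 := h X 0 t ht.le
    have h5 := G_time (D := D) 0 ht.le (Nat.cast_nonneg ⌊t⌋₊)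
    have h6 := mul_le_mul_of_nonneg_left (h3 t ht.le) hC.le
    rw [inner_zero_right] at h4
    simp only [hu]
    linarith

theorem isViscSol {f : ℝ × ℝ → ℝ} {A : ℝ} (hg : ∀ X, D.g X = A * f (X 0, X 1) * D.P 2)
    (hp : ∀ k X, D.g (X + latt k) = D.g X) : IsViscSol f A D.d D.P D.G where
  cont := G_cont
  per k X t ht := by rw [G_inv X _ ht (hp k), inner_add_right]; ring
  init := G_init
  sub φ hφ X t ht hm := by
    have h3 := touch hφ (z := (X, t)) (fun b => G_aff X t b ht.le) (Or.inr hm)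
    have hp : D1 φ (X, t) ≠ 0 := fun h0 => D.hP (by rw [← h3, h0]; rfl)
    obtain ⟨e1, e2⟩ := op_eq f A D.d φ X t
    refine ⟨nd (D1 φ (X, t)), e1 ▸ isDir_nd hp, ?_⟩
    rw [e2, h3, ← hg]
    exact G_sub (X, t) ht φ hφ hm h3
  sup φ hφ X t ht hm := by
    have h3 := touch hφ (z := (X, t)) (fun b => G_aff X t b ht.le) (Or.inl hm)
    have hp : D1 φ (X, t) ≠ 0 := fun h0 => D.hP (by rw [← h3, h0]; rfl)
    obtain ⟨e1, e2⟩ := op_eq f A D.d φ X t
    refine ⟨nd (D1 φ (X, t)), e1 ▸ isDir_nd hp, ?_⟩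
    rw [e2, h3, ← hg]
    exact G_sup (X, t) ht φ hφ hm

end Dat

theorem exists_sol {f : ℝ × ℝ → ℝ} (hf : ∃ K, LipschitzWith K f)
    (hper : ∀ (x y : ℝ) (m n : ℤ), f (x + m, y + n) = f (x, y)) (A : ℝ) {d : ℝ} (hd : 0 ≤ d)
    {P : E3} (hP : P 2 ≠ 0) :
    ∃ G, IsViscSol f A d P G ∧ (d = 0 → ∃ H, HasBurningVelocity P G H) := by
  obtain ⟨K, hK⟩ := hf
  have hc := hK.continuous
  have hp : ∀ k (X : E3), A * f ((X + latt k) 0, (X + latt k) 1) * P 2 = A * f (X 0, X 1) * P 2 := by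
    intro k X
    simp only [PiLp.add_apply, latt, hper]
  obtain ⟨M, hM⟩ := bounded_of_per (fun X => A * f (X 0, X 1) * P 2) (by fun_prop) hp
  let D : Dat :=
    { d := d, P := P, g := fun X => A * f (X 0, X 1) * P 2, L := |A * P 2| * K, C := ‖P‖ + M + 1
      hd := hd, hP := hP, hL0 := by positivity
      hL := fun X Y => by
        have h1 := hK.dist_le_mul (X 0, X 1) (Y 0, Y 1)
        have h2 : dist (X 0, X 1) (Y 0, Y 1) ≤ ‖X - Y‖ := by
          rw [Prod.dist_eq, ← dist_eq_norm]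
          exact max_le (PiLp.dist_apply_le X Y 0) (PiLp.dist_apply_le X Y 1)
        have h3 := le_abs_self (A * P 2 * (f (X 0, X 1) - f (Y 0, Y 1)))
        rw [abs_mul] at h3
        rw [Real.dist_eq] at h1
        have h4 := mul_le_mul_of_nonneg_left (h1.trans (mul_le_mul_of_nonneg_left h2 K.2))
          (abs_nonneg (A * P 2))
        linarith
      hC := fun X => by linarith [hM X]
      he := fun X b => by simp [e3] }
  exact ⟨D.G, D.isViscSol (fun _ => rfl) hp, fun h0 => D.velocity h0 hp⟩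

end Pool.Agent.Work.MP_d0383e_an
end
end

-- merged part: Pool.Agent.Work.MP_d0383e_an.Dir.Vert
section
-- merged part: Pool.Agent.Work.MP_d0383e_an.Dir.Alg
section
/-!
Pointwise algebra: from the corrector equations up to order three to the strict inequalities.
The vector `z` holds the jets `(s_x, s_y, s_xx, s_xy, s_yy, Dφ₁, Dφ₂, Dφ₃)`.
-/

namespace Pool.Agent.Work.MP_d0383e_an.Dir

open scoped Topology
open Filter Set Real

abbrev Z : Type := Fin 11 → ℝ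

section defs

variable (p1 p2 p3 : ℝ)

def y1 (z : Z) : ℝ := 2 * (p1 * z 0 + p2 * z 1)
def y2 (z : Z) : ℝ := z 0 ^ 2 + z 1 ^ 2
noncomputable def T1 (z : Z) : ℝ := y1 p1 p2 z / 2
noncomputable def T2 (z : Z) : ℝ := y2 z / 2 - y1 p1 p2 z ^ 2 / 8
noncomputable def T3 (z : Z) : ℝ := -(y1 p1 p2 z * y2 z) / 4
noncomputable def T4 (z : Z) : ℝ := -(y2 z ^ 2) / 8
def B1 (z : Z) : ℝ := p1 * z 5 + p2 * z 6
def B2 (z : Z) : ℝ := p1 * z 7 + p2 * z 8 + (z 0 * z 5 + z 1 * z 6)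
def B3 (z : Z) : ℝ := p1 * z 9 + p2 * z 10 + (z 0 * z 7 + z 1 * z 8)
def B4 (z : Z) : ℝ := z 0 * z 9 + z 1 * z 10
def K1 (z : Z) : ℝ := z 2 + z 4 - (p1 ^ 2 * z 2 + 2 * p1 * p2 * z 3 + p2 ^ 2 * z 4)
def K2 (z : Z) : ℝ :=
  y1 p1 p2 z * (z 2 + z 4) - 2 * p1 * (z 0 * z 2 + z 1 * z 3) - 2 * p2 * (z 0 * z 3 + z 1 * z 4)
def K3 (z : Z) : ℝ := y2 z * (z 2 + z 4) - (z 0 ^ 2 * z 2 + 2 * z 0 * z 1 * z 3 + z 1 ^ 2 * z 4)

/-- The corrector equations at orders one, two and three. -/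
def Eqs (C : ℝ) (z : Z) : Prop :=
  B1 p1 p2 z - K1 p1 p2 z = 0 ∧ B2 p1 p2 z + T1 p1 p2 z * B1 p1 p2 z - K2 p1 p2 z = 0 ∧
    B3 p1 p2 z + T1 p1 p2 z * B2 p1 p2 z + T2 p1 p2 z * B1 p1 p2 z - K3 z = C

def S1 (ε : ℝ) (z : Z) : ℝ := p1 + ε * z 0
def S2 (ε : ℝ) (z : Z) : ℝ := p2 + ε * z 1
def W2 (ε : ℝ) (z : Z) : ℝ := S1 p1 ε z ^ 2 + S2 p2 ε z ^ 2 + p3 ^ 2
def F1 (ε : ℝ) (z : Z) : ℝ := ε * z 5 + ε ^ 2 * z 7 + ε ^ 3 * z 9
def F2 (ε : ℝ) (z : Z) : ℝ := ε * z 6 + ε ^ 2 * z 8 + ε ^ 3 * z 10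
def BB (ε : ℝ) (z : Z) : ℝ := S1 p1 ε z * F1 ε z + S2 p2 ε z * F2 ε z
def KK (ε : ℝ) (z : Z) : ℝ :=
  ε * (W2 p1 p2 p3 ε z * (z 2 + z 4) -
    (S1 p1 ε z ^ 2 * z 2 + 2 * S1 p1 ε z * S2 p2 ε z * z 3 + S2 p2 ε z ^ 2 * z 4))
def yy (ε : ℝ) (z : Z) : ℝ := y1 p1 p2 z + ε * y2 z
noncomputable def Tt (ε : ℝ) (z : Z) : ℝ :=
  1 + ε * yy p1 p2 ε z / 2 - (ε * yy p1 p2 ε z) ^ 2 / 8
def B' (ε : ℝ) (z : Z) : ℝ :=
  B1 p1 p2 z + ε * B2 p1 p2 z + ε ^ 2 * B3 p1 p2 z + ε ^ 3 * B4 z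
noncomputable def RR (ε : ℝ) (z : Z) : ℝ :=
  (B4 z + T1 p1 p2 z * B3 p1 p2 z + T2 p1 p2 z * B2 p1 p2 z + T3 p1 p2 z * B1 p1 p2 z) +
    ε * (T1 p1 p2 z * B4 z + T2 p1 p2 z * B3 p1 p2 z + T3 p1 p2 z * B2 p1 p2 z +
      T4 z * B1 p1 p2 z) +
    ε ^ 2 * (T2 p1 p2 z * B4 z + T3 p1 p2 z * B3 p1 p2 z + T4 z * B2 p1 p2 z) +
    ε ^ 3 * (T3 p1 p2 z * B4 z + T4 z * B3 p1 p2 z) + ε ^ 4 * (T4 z * B4 z)
noncomputable def Psi (C ε : ℝ) (z : Z) : ℝ :=
  C + ε * RR p1 p2 ε z +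
    ε * (yy p1 p2 ε z ^ 3 * (1 / 8 - ε * yy p1 p2 ε z / 64) * B' p1 p2 ε z /
      (√(W2 p1 p2 p3 ε z) + Tt p1 p2 ε z))

/-- `(1 - d κ) W` for the first corrector -/
noncomputable def gg (ε δ : ℝ) (z : Z) : ℝ :=
  √(W2 p1 p2 p3 ε z) - δ * (KK p1 p2 p3 ε z / W2 p1 p2 p3 ε z)

end defs

variable {p1 p2 p3 C : ℝ}

theorem W2_pos (h3 : p3 ≠ 0) (ε : ℝ) (z : Z) : 0 < W2 p1 p2 p3 ε z := by unfold W2; positivity

theorem W2_eq (hp : p1 ^ 2 + p2 ^ 2 + p3 ^ 2 = 1) (ε : ℝ) (z : Z) :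
    W2 p1 p2 p3 ε z = 1 + ε * yy p1 p2 ε z := by
  simp only [W2, S1, S2, yy, y1, y2]; linear_combination hp

theorem BB_eq (ε : ℝ) (z : Z) : BB p1 p2 ε z = ε * B' p1 p2 ε z := by
  simp only [BB, B', S1, S2, F1, F2, B1, B2, B3, B4]; ring

theorem KK_eq (hp : p1 ^ 2 + p2 ^ 2 + p3 ^ 2 = 1) (ε : ℝ) (z : Z) :
    KK p1 p2 p3 ε z = ε * K1 p1 p2 z + ε ^ 2 * K2 p1 p2 z + ε ^ 3 * K3 z := by
  simp only [KK, W2, S1, S2, K1, K2, K3, y1, y2]
  linear_combination (ε * (z 2 + z 4)) * hp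

theorem Tt_eq (ε : ℝ) (z : Z) : Tt p1 p2 ε z =
    1 + ε * T1 p1 p2 z + ε ^ 2 * T2 p1 p2 z + ε ^ 3 * T3 p1 p2 z + ε ^ 4 * T4 z := by
  simp only [Tt, yy, T1, T2, T3, T4]; ring

theorem TB_sub (hp : p1 ^ 2 + p2 ^ 2 + p3 ^ 2 = 1) {z : Z} (hz : Eqs p1 p2 C z) (ε : ℝ) :
    Tt p1 p2 ε z * BB p1 p2 ε z - KK p1 p2 p3 ε z = ε ^ 3 * (C + ε * RR p1 p2 ε z) := by
  rw [Tt_eq, BB_eq, KK_eq hp]
  simp only [B', RR]
  linear_combination ε * hz.1 + ε ^ 2 * hz.2.1 + ε ^ 3 * hz.2.2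

theorem WB_sub (hp : p1 ^ 2 + p2 ^ 2 + p3 ^ 2 = 1) (h3 : p3 ≠ 0) {z : Z} (hz : Eqs p1 p2 C z)
    (ε : ℝ) (h : 0 < √(W2 p1 p2 p3 ε z) + Tt p1 p2 ε z) :
    √(W2 p1 p2 p3 ε z) * BB p1 p2 ε z - KK p1 p2 p3 ε z = ε ^ 3 * Psi p1 p2 p3 C ε z := by
  have h1 : √(W2 p1 p2 p3 ε z) ^ 2 = 1 + ε * yy p1 p2 ε z := by
    rw [sq_sqrt (W2_pos h3 ε z).le, W2_eq hp]
  have h2 : √(W2 p1 p2 p3 ε z) - Tt p1 p2 ε z =
      (ε * yy p1 p2 ε z) ^ 3 * (1 / 8 - ε * yy p1 p2 ε z / 64) /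
        (√(W2 p1 p2 p3 ε z) + Tt p1 p2 ε z) := by
    rw [eq_div_iff h.ne']
    have : (√(W2 p1 p2 p3 ε z) - Tt p1 p2 ε z) * (√(W2 p1 p2 p3 ε z) + Tt p1 p2 ε z) =
      √(W2 p1 p2 p3 ε z) ^ 2 - Tt p1 p2 ε z ^ 2 := by ring
    rw [this, h1]
    simp only [Tt]; ring
  have h4 : √(W2 p1 p2 p3 ε z) * BB p1 p2 ε z - KK p1 p2 p3 ε z =
      (Tt p1 p2 ε z * BB p1 p2 ε z - KK p1 p2 p3 ε z) +
        (√(W2 p1 p2 p3 ε z) - Tt p1 p2 ε z) * BB p1 p2 ε z := by ring
  rw [h4, TB_sub hp hz, h2, BB_eq]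
  simp only [Psi]; ring

theorem cont_W2 : Continuous fun q : ℝ × Z => W2 p1 p2 p3 q.1 q.2 := by
  unfold W2 S1 S2; fun_prop

theorem cont_Tt : Continuous fun q : ℝ × Z => Tt p1 p2 q.1 q.2 := by
  unfold Tt yy y1 y2; fun_prop

theorem cont_RR : Continuous fun q : ℝ × Z => RR p1 p2 q.1 q.2 := by
  unfold RR B1 B2 B3 B4 T1 T2 T3 T4 y1 y2; fun_prop

theorem cont_num : Continuous fun q : ℝ × Z =>
    yy p1 p2 q.1 q.2 ^ 3 * (1 / 8 - q.1 * yy p1 p2 q.1 q.2 / 64) * B' p1 p2 q.1 q.2 := by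
  unfold B' B1 B2 B3 B4 yy y1 y2; fun_prop

theorem exists_pos_of_ev {q : ℝ → Prop} (h : ∀ᶠ x in 𝓝 (0 : ℝ), q x) :
    ∃ x, 0 < x ∧ ∀ y, 0 < y → y < x → q y := by
  obtain ⟨r, hr, h⟩ := Metric.eventually_nhds_iff.1 h
  exact ⟨r, hr, fun y h1 h2 => h (by rwa [Real.dist_eq, sub_zero, abs_of_pos h1])⟩

theorem exists_eps (hp : p1 ^ 2 + p2 ^ 2 + p3 ^ 2 = 1) (h3 : p3 ≠ 0) (hC : 0 < C) {TT : Set Z}
    (hT : IsCompact TT) (hE : ∀ z ∈ TT, Eqs p1 p2 C z) {η : ℝ} (hη : 0 < η) :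
    ∃ ε : ℝ, ∀ z ∈ TT, |1 - √(W2 p1 p2 p3 ε z)| < η ∧
      0 < √(W2 p1 p2 p3 ε z) * BB p1 p2 ε z - KK p1 p2 p3 ε z := by
  have h : ∀ᶠ ε in 𝓝 (0 : ℝ), ∀ z ∈ TT, |1 - √(W2 p1 p2 p3 ε z)| < η ∧
      0 < √(W2 p1 p2 p3 ε z) + Tt p1 p2 ε z ∧ 0 < Psi p1 p2 p3 C ε z := by
    refine hT.eventually_forall_of_forall_eventually fun z _ => ?_
    have hc : Continuous fun q : ℝ × Z => √(W2 p1 p2 p3 q.1 q.2) + Tt p1 p2 q.1 q.2 :=
      cont_W2.sqrt.add cont_Tt
    have hc1 : Continuous fun q : ℝ × Z => |1 - √(W2 p1 p2 p3 q.1 q.2)| :=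
      (continuous_const.sub cont_W2.sqrt).abs
    have hw : √(W2 p1 p2 p3 0 z) = 1 := by rw [W2_eq hp]; simp
    have h0 : √(W2 p1 p2 p3 0 z) + Tt p1 p2 0 z = 2 := by rw [hw]; simp [Tt]; norm_num
    have hP : ContinuousAt (fun q : ℝ × Z => Psi p1 p2 p3 C q.1 q.2) (0, z) :=
      (continuousAt_const.add (continuousAt_fst.mul cont_RR.continuousAt)).add
        (continuousAt_fst.mul (cont_num.continuousAt.div hc.continuousAt
          (by simp only [h0]; norm_num)))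
    refine (hc1.continuousAt.eventually (gt_mem_nhds ?_)).and
      ((hc.continuousAt.eventually (lt_mem_nhds ?_)).and (hP.eventually (lt_mem_nhds ?_)))
    · simpa [hw] using hη
    · simp only [h0]; norm_num
    · simpa [Psi] using hC
  obtain ⟨r, hr, h⟩ := exists_pos_of_ev h
  have h := h (r / 2) (by positivity) (by linarith)
  refine ⟨r / 2, fun z hz => ⟨(h z hz).1, ?_⟩⟩
  rw [WB_sub hp h3 (hE z hz) _ (h z hz).2.1]
  have := (h z hz).2.2
  positivity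

theorem sqrt_bound (a b c u v : ℝ) (hc : c ≠ 0) :
    √((a - u) ^ 2 + (b - v) ^ 2 + c ^ 2) ≤ √(a ^ 2 + b ^ 2 + c ^ 2) +
      (-(2 * (a * u + b * v)) + (u ^ 2 + v ^ 2)) / (2 * √(a ^ 2 + b ^ 2 + c ^ 2)) := by
  have h0 : 0 < a ^ 2 + b ^ 2 + c ^ 2 := by positivity
  set W := √(a ^ 2 + b ^ 2 + c ^ 2) with hW
  have hW0 : 0 < W := sqrt_pos.2 h0
  have hW2 : W ^ 2 = a ^ 2 + b ^ 2 + c ^ 2 := sq_sqrt h0.le
  set V := √((a - u) ^ 2 + (b - v) ^ 2 + c ^ 2) with hV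
  have hV2 : V ^ 2 = (a - u) ^ 2 + (b - v) ^ 2 + c ^ 2 := sq_sqrt (by positivity)
  rw [← sub_le_iff_le_add', le_div_iff₀ (by positivity)]
  linarith only [hW2, hV2, sq_nonneg (V - W), sq_nonneg (V - W)]

theorem exists_delta (hp : p1 ^ 2 + p2 ^ 2 + p3 ^ 2 = 1) (h3 : p3 ≠ 0) (hC : 0 < C) {TT : Set Z}
    (hT : IsCompact TT) (hE : ∀ z ∈ TT, Eqs p1 p2 C z) {η : ℝ} (hη : 0 < η) :
    ∃ ε δ0 c : ℝ, 0 < δ0 ∧ 0 < c ∧ ∀ δ, 0 < δ → δ < δ0 → ∀ z ∈ TT, 0 < gg p1 p2 p3 ε δ z ∧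
      |1 - gg p1 p2 p3 ε δ z| ≤ η ∧
      √((S1 p1 ε z - δ * F1 ε z) ^ 2 + (S2 p2 ε z - δ * F2 ε z) ^ 2 + p3 ^ 2) + c * δ ≤
        gg p1 p2 p3 ε δ z := by
  obtain ⟨ε, h⟩ := exists_eps hp h3 hC hT hE hη
  have cW : Continuous (W2 p1 p2 p3 ε) := cont_W2.comp (Continuous.prodMk_right ε)
  have cK : Continuous (KK p1 p2 p3 ε) := by unfold KK W2 S1 S2; fun_prop
  have cB : Continuous (BB p1 p2 ε) := by unfold BB S1 S2 F1 F2; fun_prop
  have cF : Continuous fun z => F1 ε z ^ 2 + F2 ε z ^ 2 := by unfold F1 F2; fun_prop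
  have cg : Continuous fun q : ℝ × Z => gg p1 p2 p3 ε q.1 q.2 :=
    (cW.comp continuous_snd).sqrt.sub (continuous_fst.mul
      ((cK.comp continuous_snd).div (cW.comp continuous_snd) fun q => (W2_pos h3 ε q.2).ne'))
  have cQ0 : Continuous fun z : Z =>
      (√(W2 p1 p2 p3 ε z) * BB p1 p2 ε z - KK p1 p2 p3 ε z) / W2 p1 p2 p3 ε z :=
    ((cW.sqrt.mul cB).sub cK).div cW fun z => (W2_pos h3 ε z).ne'
  obtain ⟨c, hc, hc'⟩ := hT.exists_forall_le' cQ0.continuousOn (a := 0)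
    fun z hz => div_pos (h z hz).2 (W2_pos (p1 := p1) (p2 := p2) h3 ε z)
  have cQ : Continuous fun q : ℝ × Z =>
      (√(W2 p1 p2 p3 ε q.2) * BB p1 p2 ε q.2 - KK p1 p2 p3 ε q.2) / W2 p1 p2 p3 ε q.2 -
      q.1 * ((F1 ε q.2 ^ 2 + F2 ε q.2 ^ 2) / (2 * √(W2 p1 p2 p3 ε q.2))) :=
    (cQ0.comp continuous_snd).sub
      (continuous_fst.mul ((cF.div (continuous_const.mul cW.sqrt) fun z =>
        (mul_pos two_pos (sqrt_pos.2 (W2_pos h3 ε z))).ne').comp continuous_snd))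
  have h1 : ∀ᶠ δ in 𝓝 (0 : ℝ), ∀ z ∈ TT, 0 < gg p1 p2 p3 ε δ z ∧
      |1 - gg p1 p2 p3 ε δ z| < η ∧
      c / 2 < (√(W2 p1 p2 p3 ε z) * BB p1 p2 ε z - KK p1 p2 p3 ε z) / W2 p1 p2 p3 ε z -
        δ * ((F1 ε z ^ 2 + F2 ε z ^ 2) / (2 * √(W2 p1 p2 p3 ε z))) := by
    refine hT.eventually_forall_of_forall_eventually fun z hz => ?_
    refine (cg.continuousAt.eventually (lt_mem_nhds ?_)).and
      (((continuous_const.sub cg).abs.continuousAt.eventually (gt_mem_nhds ?_)).and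
      (cQ.continuousAt.eventually (lt_mem_nhds ?_)))
    · simpa [gg] using W2_pos h3 ε z
    · simpa [gg] using (h z hz).1
    · have := hc' z hz
      simp only [zero_mul, sub_zero]
      linarith only [hc, this]
  obtain ⟨δ0, hδ0, h1⟩ := exists_pos_of_ev h1
  refine ⟨ε, δ0, c / 2, hδ0, by positivity, fun δ hδ hδ' z hz => ?_⟩
  have h1 := h1 δ hδ hδ' z hz
  refine ⟨h1.1, h1.2.1.le, ?_⟩
  have h5 := sqrt_bound (S1 p1 ε z) (S2 p2 ε z) p3 (δ * F1 ε z) (δ * F2 ε z) h3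
  have h4 := mul_lt_mul_of_pos_left h1.2.2 hδ
  have hW0 : 0 < √(W2 p1 p2 p3 ε z) := sqrt_pos.2 (W2_pos h3 ε z)
  have hW2 : W2 p1 p2 p3 ε z = √(W2 p1 p2 p3 ε z) ^ 2 := (sq_sqrt (W2_pos h3 ε z).le).symm
  change _ ≤ √(W2 p1 p2 p3 ε z) + _ / (2 * √(W2 p1 p2 p3 ε z)) at h5
  have h6 : gg p1 p2 p3 ε δ z - (√(W2 p1 p2 p3 ε z) +
      (-(2 * (S1 p1 ε z * (δ * F1 ε z) + S2 p2 ε z * (δ * F2 ε z))) +
      ((δ * F1 ε z) ^ 2 + (δ * F2 ε z) ^ 2)) / (2 * √(W2 p1 p2 p3 ε z))) =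
      δ * ((√(W2 p1 p2 p3 ε z) * BB p1 p2 ε z - KK p1 p2 p3 ε z) / W2 p1 p2 p3 ε z -
        δ * ((F1 ε z ^ 2 + F2 ε z ^ 2) / (2 * √(W2 p1 p2 p3 ε z)))) := by
    unfold gg BB
    set W := √(W2 p1 p2 p3 ε z)
    rw [hW2]
    field_simp
    ring
  linarith only [h4, h5, h6]

end Pool.Agent.Work.MP_d0383e_an.Dir
end

-- merged part: Pool.Agent.Work.MP_d0383e_an.Dir.Corr
section
/-!
The correctors up to order three and the closed formula for the cubic coefficient.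
-/

namespace Pool.Agent.Work.MP_d0383e_an.Dir

open scoped ContDiff Topology
open Filter Set Real

/-- Evaluation at a point. -/
noncomputable def evx (x : ℝ × ℝ) : Sm →ₐ[ℝ] ℝ := (Pi.evalAlgHom ℝ (fun _ => ℝ) x).comp Sm.val

theorem evx_apply (x : ℝ × ℝ) (F : Sm) : evx x F = F.1 x := rfl

noncomputable def jet (s φ1 φ2 φ3 : Sm) (x : ℝ × ℝ) : Z :=
  ![evx x (dx s), evx x (dy s), evx x (dx (dx s)), evx x (dy (dx s)), evx x (dy (dy s)),
    evx x (dx φ1), evx x (dy φ1), evx x (dx φ2), evx x (dy φ2), evx x (dx φ3), evx x (dy φ3)]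

namespace Md

variable {M : Md}

noncomputable def EE (M : Md) (s ψ : Sm) : Sm :=
  (1 / 2 : ℝ) • (M.L (M.L s) * (dx s * dx s + dy s * dy s - ψ * ψ) -
    (dx (dx s) + dy (dy s)) * (dx s * dx s + dy s * dy s))

theorem corr_of {s ψ : Sm} (hs : s ∈ M.TP 1) (hψ : ψ ∈ M.TP 1)
    (hL : M.L ψ = dx (dx s) + dy (dy s)) {C : ℝ}
    (hE : M.EE s ψ - C • (1 : Sm) ∈ (M.TP 3).map M.L) :
    ∃ φ1 φ2 φ3 : Sm, ∀ x, Eqs M.p1 M.p2 C (jet s φ1 φ2 φ3 x) := by
  have ha1 : dx s ∈ M.TP 1 := TP_Dv _ hs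
  have ha2 : dy s ∈ M.TP 1 := TP_Dv _ hs
  set T : Sm := M.p1 • dx s + M.p2 • dy s with hT
  have hTm : T ∈ M.TP 1 := add_mem (Submodule.smul_mem _ _ ha1) (Submodule.smul_mem _ _ ha2)
  set y : Sm := dx s * dx s + dy s * dy s with hy
  have m11 : ∀ {F G : Sm}, F ∈ M.TP 1 → G ∈ M.TP 1 → F * G ∈ M.TP 2 :=
    fun hF hG => TP_mul hF hG (by norm_num)
  have m12 : ∀ {F G : Sm}, F ∈ M.TP 1 → G ∈ M.TP 2 → F * G ∈ M.TP 3 :=
    fun hF hG => TP_mul hF hG (by norm_num)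
  have m21 : ∀ {F G : Sm}, F ∈ M.TP 2 → G ∈ M.TP 1 → F * G ∈ M.TP 3 :=
    fun hF hG => TP_mul hF hG (by norm_num)
  have hym : y ∈ M.TP 2 := add_mem (m11 ha1 ha1) (m11 ha2 ha2)
  set N2 : Sm := (1 / 2 : ℝ) • (T * T) + (1 / 2 : ℝ) • (ψ * ψ) - y with hN2
  have hN2m : N2 ∈ M.TP 2 := sub_mem (add_mem (Submodule.smul_mem _ _ (m11 hTm hTm))
    (Submodule.smul_mem _ _ (m11 hψ hψ))) hym
  obtain ⟨φ2, hφ2, h2⟩ : dx ((T - ψ) * dx s + M.p1 • N2) + dy ((T - ψ) * dy s + M.p2 • N2) ∈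
      (M.TP 2).map M.L :=
    add_mem (Dv_mem_im (by norm_num) _
        (add_mem (m11 (sub_mem hTm hψ) ha1) (Submodule.smul_mem _ _ hN2m)))
      (Dv_mem_im (by norm_num) _
        (add_mem (m11 (sub_mem hTm hψ) ha2) (Submodule.smul_mem _ _ hN2m)))
  set Mm : Sm := (1 / 2 : ℝ) • (ψ * ψ) - φ2 - (1 / 2 : ℝ) • y with hMm
  have hMmm : Mm ∈ M.TP 2 := sub_mem (sub_mem (Submodule.smul_mem _ _ (m11 hψ hψ)) hφ2)
    (Submodule.smul_mem _ _ hym)
  set N3 : Sm := ψ * φ2 + T * y - (1 / 2 : ℝ) • (T * (T * T)) - (1 / 2 : ℝ) • (T * (ψ * ψ)) +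
    (1 / 2 : ℝ) • (ψ * y) - (1 / 2 : ℝ) • (ψ * (T * T)) - (1 / 6 : ℝ) • (ψ * (ψ * ψ)) with hN3
  have hN3m : N3 ∈ M.TP 3 :=
    sub_mem (sub_mem (add_mem (sub_mem (sub_mem (add_mem (m12 hψ hφ2) (m12 hTm hym))
      (Submodule.smul_mem _ _ (m12 hTm (m11 hTm hTm))))
      (Submodule.smul_mem _ _ (m12 hTm (m11 hψ hψ))))
      (Submodule.smul_mem _ _ (m12 hψ hym)))
      (Submodule.smul_mem _ _ (m12 hψ (m11 hTm hTm))))
      (Submodule.smul_mem _ _ (m12 hψ (m11 hψ hψ)))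
  obtain ⟨φ3, -, h3⟩ : dx (Mm * dx s + M.p1 • N3) + dy (Mm * dy s + M.p2 • N3) -
      (M.EE s ψ - C • (1 : Sm)) ∈ (M.TP 3).map M.L :=
    sub_mem (add_mem (Dv_mem_im le_rfl _
        (add_mem (m21 hMmm ha1) (Submodule.smul_mem _ _ hN3m)))
      (Dv_mem_im le_rfl _
        (add_mem (m21 hMmm ha2) (Submodule.smul_mem _ _ hN3m)))) hE
  refine ⟨ψ - T, φ2, φ3, fun x => ?_⟩
  have e1 := congrArg (evx x) hL
  have e2 := congrArg (evx x) h2
  have e3 := congrArg (evx x) h3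
  simp only [hN3, hMm, hN2, hy, hT, EE, L_apply, map_add, map_sub, map_smul, Dv_mul,
    Dv_comm (1, 0) (0, 1) s, map_mul, map_one, smul_eq_mul] at e1 e2 e3
  have hb : evx x (dy (dy s)) = M.p1 * evx x (dx ψ) + M.p2 * evx x (dy ψ) - evx x (dx (dx s)) := by
    linarith only [e1]
  simp only [Eqs, B1, B2, B3, T1, T2, K1, K2, K3, y1, y2, jet, hT, map_add, map_sub, map_smul,
    Dv_comm (1, 0) (0, 1) s, smul_eq_mul, Matrix.cons_val]
  rw [hb] at e2 e3 ⊢
  refine ⟨by ring, by linear_combination e2, ?_⟩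
  linear_combination e3 + (M.p1 * evx x (dx s) + M.p2 * evx x (dy s) + evx x ψ) * e2

theorem ext_evx {F G : Sm} (h : ∀ x, evx x F = evx x G) : F = G := Subtype.ext (funext h)

/-- the three modes `k₁`, `k₂`, `k₁ + k₂` -/
def mu : Fin 3 → ℤ × ℤ := ![(1, 0), (0, 1), (1, 1)]

theorem mu_le (i : Fin 3) : |(mu i).1| ≤ 1 ∧ |(mu i).2| ≤ 1 := by
  fin_cases i <;> simp [mu]

theorem mu_ne (i : Fin 3) : mu i ≠ 0 := by
  fin_cases i <;> simp [mu]

variable (M)

noncomputable def dt (μ ν : ℤ × ℤ) : ℝ :=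
  ((M.fr μ).1 : ℝ) * (M.fr ν).1 + ((M.fr μ).2 : ℝ) * (M.fr ν).2

noncomputable def rho (μ : ℤ × ℤ) : ℝ := M.dt μ μ / M.al μ

noncomputable def be (μ : ℤ × ℤ) : ℝ := -M.p2 * (M.fr μ).1 + M.p1 * (M.fr μ).2

noncomputable def s0 : Sm := M.cm (mu 0) + M.cm (mu 1) + M.cm (mu 2)

noncomputable def psi0 : Sm :=
  (-M.rho (mu 0)) • M.sm (mu 0) + (-M.rho (mu 1)) • M.sm (mu 1) + (-M.rho (mu 2)) • M.sm (mu 2)

noncomputable def cf (l i j : Fin 3) : ℝ :=
  (1 / 2) * ((M.dt (mu l) (mu l) - M.al (mu l) ^ 2) * M.dt (mu i) (mu j) +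
    M.al (mu l) ^ 2 * (M.rho (mu i) * M.rho (mu j)))

noncomputable def C3 : ℝ := ∑ l, ∑ i, ∑ j, M.cf l i j * mean3 (mu l) (mu i) (mu j)

theorem al_mu_ne (i : Fin 3) : M.al (mu i) ≠ 0 :=
  al_ne ((mu_le i).1.trans (by norm_num)) ((mu_le i).2.trans (by norm_num)) (mu_ne i)

theorem s0_mem : M.s0 ∈ M.TP 1 :=
  add_mem (add_mem (cm_mem (mu_le 0).1 (mu_le 0).2) (cm_mem (mu_le 1).1 (mu_le 1).2))
    (cm_mem (mu_le 2).1 (mu_le 2).2)

theorem psi0_mem : M.psi0 ∈ M.TP 1 :=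
  add_mem (add_mem (Submodule.smul_mem _ _ (sm_mem (mu_le 0).1 (mu_le 0).2))
    (Submodule.smul_mem _ _ (sm_mem (mu_le 1).1 (mu_le 1).2)))
    (Submodule.smul_mem _ _ (sm_mem (mu_le 2).1 (mu_le 2).2))

theorem Dv_cm (v : ℝ × ℝ) (μ : ℤ × ℤ) :
    Dv v (M.cm μ) = (-((M.fr μ).1 * v.1 + (M.fr μ).2 * v.2)) • M.sm μ := Dv_Co _ _ _

theorem Dv_sm (v : ℝ × ℝ) (μ : ℤ × ℤ) :
    Dv v (M.sm μ) = ((M.fr μ).1 * v.1 + (M.fr μ).2 * v.2) • M.cm μ := Dv_Si _ _ _

theorem L_psi0 : M.L M.psi0 = dx (dx M.s0) + dy (dy M.s0) := by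
  have h : ∀ i, M.rho (mu i) * M.al (mu i) = M.dt (mu i) (mu i) := fun i =>
    div_mul_cancel₀ _ (M.al_mu_ne i)
  refine ext_evx fun x => ?_
  simp only [psi0, s0, map_add, map_smul, L_sm, Dv_cm, Dv_sm, smul_eq_mul]
  have h0 := h 0
  have h1 := h 1
  have h2 := h 2
  simp only [dt] at h0 h1 h2
  linear_combination (-evx x (M.cm (mu 0))) * h0 + (-evx x (M.cm (mu 1))) * h1 +
    (-evx x (M.cm (mu 2))) * h2

theorem EE_eq : M.EE M.s0 M.psi0 - M.C3 • (1 : Sm) = ∑ l, ∑ i, ∑ j, M.cf l i j •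
    (M.cm (mu l) * (M.sm (mu i) * M.sm (mu j)) - mean3 (mu l) (mu i) (mu j) • (1 : Sm)) := by
  refine ext_evx fun x => ?_
  simp only [EE, C3, cf, dt, psi0, s0, Fin.sum_univ_three, map_add, map_sub, map_smul, map_mul,
    map_one, L_sm, L_cm, Dv_cm, Dv_sm, smul_eq_mul]
  ring

theorem EE_mem : M.EE M.s0 M.psi0 - M.C3 • (1 : Sm) ∈ (M.TP 3).map M.L := by
  rw [EE_eq]
  refine sum_mem fun l _ => sum_mem fun i _ => sum_mem fun j _ => Submodule.smul_mem _ _ ?_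
  exact tri_mem_im (mu_le l).1 (mu_le l).2 (mu_le i).1 (mu_le i).2 (mu_le j).1 (mu_le j).2

theorem C3_eq : M.C3 = (1 / 2) * (M.cf 0 1 2 + M.cf 1 0 2 - M.cf 2 0 1) := by
  have sy : ∀ l i j, M.cf l i j = M.cf l j i := by
    intro l i j; simp only [cf, dt]; ring
  simp only [C3, Fin.sum_univ_three, mean3, i0, mu, Matrix.cons_val, Prod.mk_add_mk,
    Prod.mk_sub_mk, Prod.mk_eq_zero]
  rw [sy 0 2 1, sy 1 2 0, sy 2 1 0]
  norm_num
  ring

/-- The closed formula for the cubic coefficient. -/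
theorem C3_formula {p3 : ℝ} (hp : M.p1 ^ 2 + M.p2 ^ 2 + p3 ^ 2 = 1) :
    M.C3 = ((M.a : ℝ) * M.e - M.b * M.c) ^ 2 / 4 * (p3 ^ 2 +
      (M.be (mu 0) / M.al (mu 0) * (M.be (mu 1) / M.al (mu 1)) +
        M.be (mu 1) / M.al (mu 1) * (M.be (mu 2) / M.al (mu 2)) +
        M.be (mu 2) / M.al (mu 2) * (M.be (mu 0) / M.al (mu 0)))) := by
  have h0 := M.al_mu_ne 0
  have h1 := M.al_mu_ne 1
  have h2 := M.al_mu_ne 2
  have e3 : p3 ^ 2 = 1 - M.p1 ^ 2 - M.p2 ^ 2 := by linarith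
  rw [C3_eq, e3]
  simp only [cf, rho]
  field_simp
  simp only [dt, be, al, fr, mu, Matrix.cons_val]
  push_cast
  ring

end Md

theorem exists_Md {p1 p2 : ℝ} (h : ¬ (p1 = 0 ∧ p2 = 0)) : ∃ M : Md, M.p1 = p1 ∧ M.p2 = p2 ∧
    (M.a : ℝ) * M.e - M.b * M.c ≠ 0 ∧ ∀ i, 0 < M.al (Md.mu i) ∧ 0 ≤ M.be (Md.mu i) := by
  obtain ⟨a, b, hab, hα, hβ⟩ : ∃ a b : ℤ, (a : ℝ) ^ 2 + (b : ℝ) ^ 2 = 1 ∧
      0 < p1 * a + p2 * b ∧ 0 ≤ -p2 * a + p1 * b := by
    rcases lt_trichotomy p1 0 with h1 | h1 | h1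
    · rcases le_or_gt 0 p2 with h2 | h2
      · exact ⟨-1, 0, by norm_num, by push_cast; linarith, by push_cast; linarith⟩
      · exact ⟨0, -1, by norm_num, by push_cast; linarith, by push_cast; linarith⟩
    · rcases lt_trichotomy p2 0 with h2 | h2 | h2
      · exact ⟨0, -1, by norm_num, by push_cast; linarith, by push_cast; linarith⟩
      · exact absurd ⟨h1, h2⟩ h
      · exact ⟨0, 1, by norm_num, by push_cast; linarith, by push_cast; linarith⟩
    · rcases le_or_gt p2 0 with h2 | h2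
      · exact ⟨1, 0, by norm_num, by push_cast; linarith, by push_cast; linarith⟩
      · exact ⟨0, 1, by norm_num, by push_cast; linarith, by push_cast; linarith⟩
  set α := p1 * a + p2 * b with hαd
  set β := -p2 * a + p1 * b with hβd
  obtain ⟨N, hN⟩ := exists_nat_gt ((3 * α + β) / α)
  rw [div_lt_iff₀ hα] at hN
  have hN0 : (0 : ℝ) ≤ N := Nat.cast_nonneg N
  have hNβ : 0 ≤ (N : ℝ) * β := mul_nonneg hN0 hβ
  refine ⟨⟨a, b, N * a - b, N * b + a, p1, p2, fun m n hm hn h0 => ?_⟩, rfl, rfl, ?_, ?_⟩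
  · have h1 : (m : ℝ) * α + n * (N * α - β) = 0 := by
      push_cast at h0
      rw [hαd, hβd]; linear_combination h0
    have hm' : |(m : ℝ)| ≤ 3 := by exact_mod_cast hm
    rw [abs_le] at hm'
    have hn0 : n = 0 := by
      by_contra hne
      rcases lt_or_gt_of_ne hne with h2 | h2
      · have h3 : (n : ℝ) ≤ -1 := by exact_mod_cast Int.le_sub_one_of_lt h2
        linarith only [hN, h1, hα, hm', h3, mul_nonneg_of_nonpos_of_nonpos (le_of_lt (Mathlib.Tactic.Linarith.sub_neg_of_lt hα)) (Mathlib.Tactic.Linarith.sub_nonpos_of_le hm'.right), mul_nonneg_of_nonpos_of_nonpos (le_of_lt (Mathlib.Tactic.Linarith.sub_neg_of_lt hα)) (Mathlib.Tactic.Linarith.sub_nonpos_of_le h3), mul_nonneg_of_nonpos_of_nonpos (le_of_lt (Mathlib.Tactic.Linarith.sub_neg_of_lt hN)) (Mathlib.Tactic.Linarith.sub_nonpos_of_le h3)]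
      · have h3 : (1 : ℝ) ≤ n := by exact_mod_cast h2
        linarith only [hN, h1, hα, hm', h3, mul_nonneg_of_nonpos_of_nonpos (le_of_lt (Mathlib.Tactic.Linarith.sub_neg_of_lt hα)) (Mathlib.Tactic.Linarith.sub_nonpos_of_le hm'.left), mul_nonneg_of_nonpos_of_nonpos (le_of_lt (Mathlib.Tactic.Linarith.sub_neg_of_lt hα)) (Mathlib.Tactic.Linarith.sub_nonpos_of_le h3), mul_nonneg_of_nonpos_of_nonpos (le_of_lt (Mathlib.Tactic.Linarith.sub_neg_of_lt hN)) (Mathlib.Tactic.Linarith.sub_nonpos_of_le h3)]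
    subst hn0
    refine ⟨?_, rfl⟩
    have h2 : (m : ℝ) * α = 0 := by simpa using h1
    rcases mul_eq_zero.1 h2 with h3 | h3
    · exact_mod_cast h3
    · exact absurd h3 hα.ne'
  · push_cast
    have : (a : ℝ) * (N * b + a) - b * (N * a - b) = 1 := by linear_combination hab
    rw [this]; norm_num
  · intro i
    fin_cases i
    · simp only [Md.al, Md.be, Md.fr, Md.mu]
      simp only [Fin.zero_eta, Matrix.cons_val]
      push_cast
      constructor <;> linarith only [hα, hβ]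
    · simp only [Md.al, Md.be, Md.fr, Md.mu]
      simp only [Fin.mk_one, Matrix.cons_val]
      push_cast
      constructor <;> linarith only [hα, hN, hNβ]
    · simp only [Md.al, Md.be, Md.fr, Md.mu]
      simp only [Fin.reduceFinMk, Matrix.cons_val]
      push_cast
      constructor <;> linarith only [hα, hN, hβ, hNβ]

theorem exists_corr {p1 p2 p3 : ℝ} (hp : p1 ^ 2 + p2 ^ 2 + p3 ^ 2 = 1) (h3 : p3 ≠ 0)
    (h : ¬ (p1 = 0 ∧ p2 = 0)) :
    ∃ C : ℝ, 0 < C ∧ ∃ s φ1 φ2 φ3 : Sm, ∀ x, Eqs p1 p2 C (jet s φ1 φ2 φ3 x) := by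
  obtain ⟨M, rfl, rfl, hD, hs⟩ := exists_Md h
  refine ⟨M.C3, ?_, M.s0, Md.corr_of M.s0_mem M.psi0_mem M.L_psi0 M.EE_mem⟩
  rw [M.C3_formula hp]
  have t0 := div_nonneg (hs 0).2 (hs 0).1.le
  have t1 := div_nonneg (hs 1).2 (hs 1).1.le
  have t2 := div_nonneg (hs 2).2 (hs 2).1.le
  positivity

end Pool.Agent.Work.MP_d0383e_an.Dir
end

-- merged part: Pool.Agent.Work.MP_d0383e_an.Dir.Neg
section
/-!
Every non-vertical direction admits flows for which curvature increases the burning velocity.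
-/

namespace Pool.Agent.Work.MP_d0383e_an.Dir

open scoped ContDiff Laplacian Topology
open Filter Set Real

theorem inner_eq (P X : E3) : inner ℝ P X = P 0 * X 0 + P 1 * X 1 + P 2 * X 2 := by
  simp [PiLp.inner_apply, Fin.sum_univ_three]; ring

theorem norm_sq_eq {P : E3} (hP : ‖P‖ = 1) : P 0 ^ 2 + P 1 ^ 2 + P 2 ^ 2 = 1 := by
  have h := EuclideanSpace.real_norm_sq_eq P
  rw [hP, Fin.sum_univ_three] at h
  linarith only [h]

/-- The test function `P · X + w(x)/(2π)`. -/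
noncomputable def UU (P : E3) (w : Sm) (X : E3) : ℝ := inner ℝ P X + (2 * π)⁻¹ * w.1 (X 0, X 1)

theorem contDiff_UU (P : E3) (w : Sm) : ContDiff ℝ ∞ (UU P w) := by
  have h : ContDiff ℝ ∞ fun X : E3 => w.1 (X 0, X 1) := (Sm.cd w).comp (by fun_prop)
  have h2 : ContDiff ℝ ∞ fun X : E3 => inner ℝ P X := by simp only [inner_eq]; fun_prop
  exact h2.add (contDiff_const.mul h)

theorem UU_per (P : E3) (w : Sm) (k : Fin 3 → ℤ) (X : E3) :
    UU P w (X + latt k) - inner ℝ P (X + latt k) = UU P w X - inner ℝ P X := by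
  have : w.1 ((X + latt k) 0, (X + latt k) 1) = w.1 (X 0, X 1) := by
    simpa [latt] using Sm.per w (X 0) (X 1) (k 0) (k 1)
  simp only [UU, this]; ring

theorem fd_UU (P : E3) (w : Sm) (X : E3) :
    HasFDerivAt (UU P w) ((P 0 + (dx w).1 (X 0, X 1)) • pr 0 +
      (P 1 + (dy w).1 (X 0, X 1)) • pr 1 + P 2 • pr 2) X := by
  have h0 : HasFDerivAt (fun X : E3 => inner ℝ P X) (P 0 • pr 0 + P 1 • pr 1 + P 2 • pr 2) X := by
    have := (P 0 • pr 0 + P 1 • pr 1 + P 2 • pr 2).hasFDerivAt (x := X)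
    refine this.congr_of_eventuallyEq (Eventually.of_forall fun Y => ?_)
    simp [inner_eq]
  refine (h0.fun_add ((hasFDerivAt_Sm w X).const_mul (2 * π)⁻¹)).congr_fderiv ?_
  ext v
  have := pi_pos
  simp
  field_simp
  ring

noncomputable def WW (P : E3) (w : Sm) (x : ℝ × ℝ) : ℝ :=
  (P 0 + evx x (dx w)) ^ 2 + (P 1 + evx x (dy w)) ^ 2 + P 2 ^ 2

noncomputable def Kw (P : E3) (w : Sm) (x : ℝ × ℝ) : ℝ :=
  WW P w x * (evx x (dx (dx w)) + evx x (dy (dy w))) -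
    ((P 0 + evx x (dx w)) ^ 2 * evx x (dx (dx w)) +
      2 * (P 0 + evx x (dx w)) * (P 1 + evx x (dy w)) * evx x (dy (dx w)) +
      (P 1 + evx x (dy w)) ^ 2 * evx x (dy (dy w)))

theorem spat_UU {P : E3} (h3 : P 2 ≠ 0) (w : Sm) (f : ℝ × ℝ → ℝ) (A d : ℝ) (X e : E3)
    (he : IsDir (gradient (UU P w) X) e) :
    spat f A d (UU P w) X e =
      max (√(WW P w (X 0, X 1)) - 2 * π * d * (Kw P w (X 0, X 1) / WW P w (X 0, X 1))) 0 +
        A * f (X 0, X 1) * P 2 := by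
  have hgr := grad_eq (fd_UU P w X)
  have hWp : 0 < WW P w (X 0, X 1) := by unfold WW; positivity
  have hn : ‖gradient (UU P w) X‖ = √(WW P w (X 0, X 1)) := by rw [hgr, norm3]; rfl
  have hW0 : 0 < √(WW P w (X 0, X 1)) := sqrt_pos.2 hWp
  have hW2 : WW P w (X 0, X 1) = √(WW P w (X 0, X 1)) ^ 2 := (sq_sqrt hWp.le).symm
  have h2 := he.2
  rw [hn, hgr] at h2
  have e0 : e 0 = (P 0 + evx (X 0, X 1) (dx w)) / √(WW P w (X 0, X 1)) := by
    have := congrArg (fun v : E3 => v 0) h2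
    simp at this
    rw [evx_apply, this]; field_simp
  have e1 : e 1 = (P 1 + evx (X 0, X 1) (dy w)) / √(WW P w (X 0, X 1)) := by
    have := congrArg (fun v : E3 => v 1) h2
    simp at this
    rw [evx_apply, this]; field_simp
  have g0 := (hasFDerivAt_Sm (dx w) X).const_add (P 0)
  have g1 := (hasFDerivAt_Sm (dy w) X).const_add (P 1)
  rw [Dv_comm (1, 0) (0, 1) w] at g1
  have key : √(WW P w (X 0, X 1)) - d *
      (Δ (UU P w) X - iteratedFDeriv ℝ 2 (UU P w) X ![e, e]) =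
      √(WW P w (X 0, X 1)) - 2 * π * d * (Kw P w (X 0, X 1) / WW P w (X 0, X 1)) := by
    rw [lap_eq (fd_UU P w) g0 g1, second_eq (fd_UU P w) g0 g1, e0, e1]
    unfold Kw
    simp only [← evx_apply]
    set W := √(WW P w (X 0, X 1))
    rw [hW2]
    field_simp
    ring
  unfold spat
  rw [hn, key, hgr]
  simp

theorem contDiff_jet (s φ1 φ2 φ3 : Sm) : ContDiff ℝ ∞ (jet s φ1 φ2 φ3) := by
  refine contDiff_pi.2 fun i => ?_
  fin_cases i
  exacts [Sm.cd (dx s), Sm.cd (dy s), Sm.cd (dx (dx s)), Sm.cd (dy (dx s)), Sm.cd (dy (dy s)),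
    Sm.cd (dx φ1), Sm.cd (dy φ1), Sm.cd (dx φ2), Sm.cd (dy φ2), Sm.cd (dx φ3), Sm.cd (dy φ3)]

theorem jet_per (s φ1 φ2 φ3 : Sm) (x y : ℝ) (m n : ℤ) :
    jet s φ1 φ2 φ3 (x + m, y + n) = jet s φ1 φ2 φ3 (x, y) := by
  simp only [jet, evx_apply, Sm.per]

theorem jet_mem (s φ1 φ2 φ3 : Sm) (x : ℝ × ℝ) :
    jet s φ1 φ2 φ3 x ∈ jet s φ1 φ2 φ3 '' (Icc 0 1 ×ˢ Icc 0 1) := by
  refine ⟨(Int.fract x.1, Int.fract x.2), ⟨⟨Int.fract_nonneg _, (Int.fract_lt_one _).le⟩,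
    ⟨Int.fract_nonneg _, (Int.fract_lt_one _).le⟩⟩, ?_⟩
  rw [← jet_per s φ1 φ2 φ3 _ _ ⌊x.1⌋ ⌊x.2⌋]
  simp

theorem spat_zero {P : E3} (hP : ‖P‖ = 1) (h3 : P 2 ≠ 0) (f : ℝ × ℝ → ℝ) (A d : ℝ) (X e : E3)
    (he : IsDir (gradient (UU P 0) X) e) :
    spat f A d (UU P 0) X e = 1 + A * f (X 0, X 1) * P 2 := by
  rw [spat_UU h3 0 f A d X e he]
  simp [WW, Kw, norm_sq_eq hP]

theorem speedup {P : E3} (hP : ‖P‖ = 1) (h3 : P 2 ≠ 0) (h : ¬ (P 0 = 0 ∧ P 1 = 0)) {η : ℝ}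
    (hη : 0 < η) : ∃ d₀ c : ℝ, 0 < d₀ ∧ 0 < c ∧ ∀ d A : ℝ, 0 < d → d < d₀ → 0 < A →
      ∃ f : ℝ × ℝ → ℝ, ContDiff ℝ ∞ f ∧ (∀ (x y : ℝ) (m n : ℤ), f (x + m, y + n) = f (x, y)) ∧
        (∃ x y, f x ≠ f y) ∧ (∀ x, |A * f x| ≤ η) ∧
        (∀ G, IsViscSol f A d P G → HasBurningVelocity P G 1) ∧
        (∀ G₀ H₀, IsViscSol f A 0 P G₀ → HasBurningVelocity P G₀ H₀ → H₀ + c * d ≤ 1) := by
  have hp := norm_sq_eq hP
  obtain ⟨C, hC, s, φ1, φ2, φ3, hE⟩ := exists_corr hp h3 h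
  have hT : IsCompact (jet s φ1 φ2 φ3 '' (Icc 0 1 ×ˢ Icc 0 1)) :=
    (isCompact_Icc.prod isCompact_Icc).image (contDiff_jet s φ1 φ2 φ3).continuous
  obtain ⟨ε, δ0, c, hδ0, hc, hδ⟩ := exists_delta hp h3 hC hT (by rintro _ ⟨x, -, rfl⟩; exact hE x)
    (η := η * |P 2|) (by positivity)
  have hpi := pi_pos
  refine ⟨δ0 / (2 * π), c * (2 * π), by positivity, by positivity, fun d A hd hd' hA => ?_⟩
  have hδ' := fun x => hδ (2 * π * d) (by positivity)
    (by rw [lt_div_iff₀ (by positivity)] at hd'; linarith) _ (jet_mem s φ1 φ2 φ3 x)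
  set δ := 2 * π * d with hδd
  have hδp : 0 < δ := by positivity
  set f : ℝ × ℝ → ℝ := fun x =>
    (1 - gg (P 0) (P 1) (P 2) ε δ (jet s φ1 φ2 φ3 x)) / (A * P 2) with hf
  have hAf : ∀ x, A * f x * P 2 = 1 - gg (P 0) (P 1) (P 2) ε δ (jet s φ1 φ2 φ3 x) := by
    intro x; simp only [hf]; field_simp
  have hcd : ContDiff ℝ ∞ f := by
    have hW : ContDiff ℝ ∞ (W2 (P 0) (P 1) (P 2) ε) := by unfold W2 S1 S2; fun_prop
    have hK : ContDiff ℝ ∞ (KK (P 0) (P 1) (P 2) ε) := by unfold KK W2 S1 S2; fun_prop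
    have hg : ContDiff ℝ ∞ (gg (P 0) (P 1) (P 2) ε δ) :=
      (hW.sqrt fun z => (W2_pos h3 ε z).ne').sub
        (contDiff_const.mul (hK.div hW fun z => (W2_pos h3 ε z).ne'))
    exact (contDiff_const.sub (hg.comp (contDiff_jet s φ1 φ2 φ3))).div_const _
  have hper : ∀ (x y : ℝ) (m n : ℤ), f (x + m, y + n) = f (x, y) := by
    intro x y m n; simp only [hf, jet_per]
  have hw : ∀ X e, IsDir (gradient (UU P (ε • s)) X) e → spat f A d (UU P (ε • s)) X e = 1 := by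
    intro X e he
    have e1 : WW P (ε • s) (X 0, X 1) = W2 (P 0) (P 1) (P 2) ε (jet s φ1 φ2 φ3 (X 0, X 1)) := by
      simp only [WW, W2, S1, S2, jet, map_smul, smul_eq_mul, Matrix.cons_val]
    have e2 : Kw P (ε • s) (X 0, X 1) = KK (P 0) (P 1) (P 2) ε (jet s φ1 φ2 φ3 (X 0, X 1)) := by
      rw [Kw, e1]
      simp only [KK, S1, S2, jet, map_smul, smul_eq_mul, Matrix.cons_val]
      ring
    rw [spat_UU h3 _ f A d X e he, e1, e2, hAf]
    change max (gg (P 0) (P 1) (P 2) ε δ _) 0 + _ = 1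
    rw [max_eq_left (hδ' _).1.le]
    ring
  have hv : ∀ X e, IsDir (gradient (UU P (ε • s - δ • (ε • φ1 + ε ^ 2 • φ2 + ε ^ 3 • φ3))) X) e →
      spat f A 0 (UU P (ε • s - δ • (ε • φ1 + ε ^ 2 • φ2 + ε ^ 3 • φ3))) X e ≤ 1 - c * δ := by
    intro X e he
    have e1 : WW P (ε • s - δ • (ε • φ1 + ε ^ 2 • φ2 + ε ^ 3 • φ3)) (X 0, X 1) =
        (S1 (P 0) ε (jet s φ1 φ2 φ3 (X 0, X 1)) - δ * F1 ε (jet s φ1 φ2 φ3 (X 0, X 1))) ^ 2 +
        (S2 (P 1) ε (jet s φ1 φ2 φ3 (X 0, X 1)) - δ * F2 ε (jet s φ1 φ2 φ3 (X 0, X 1))) ^ 2 +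
        P 2 ^ 2 := by
      simp only [WW, S1, S2, F1, F2, jet, map_smul, map_sub, map_add, smul_eq_mul,
        Matrix.cons_val]
      ring
    rw [spat_UU h3 _ f A 0 X e he, e1, hAf, mul_zero, zero_mul, sub_zero,
      max_eq_left (sqrt_nonneg _)]
    linarith only [hδ', (hδ' (X 0, X 1)).2.2]
  have hG : ∀ G, IsViscSol f A d P G → HasBurningVelocity P G 1 := by
    intro G hG
    obtain ⟨C1, h1⟩ := upper hG _ (contDiff_UU P _) (UU_per P _) 1 fun X e he => (hw X e he).ge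
    obtain ⟨C2, h2⟩ := lower hG _ (contDiff_UU P _) (UU_per P _) 1 fun X e he => (hw X e he).le
    exact velocity_of_bounds h1 h2
  have hG0 : ∀ G₀ H₀, IsViscSol f A 0 P G₀ → HasBurningVelocity P G₀ H₀ →
      H₀ + c * (2 * π) * d ≤ 1 := by
    intro G H hG hH
    obtain ⟨C2, h2⟩ := lower hG _ (contDiff_UU P _) (UU_per P _) (1 - c * δ) hv
    have := velocity_le h2 hH
    rw [hδd] at this
    linarith
  refine ⟨f, hcd, hper, ?_, fun x => ?_, hG, hG0⟩
  · by_contra hne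
    push Not at hne
    have hL := lipschitz_of_per f (hcd.of_le (by exact_mod_cast le_top)) hper
    obtain ⟨G, hG1, -⟩ := exists_sol hL hper A hd.le h3
    obtain ⟨G0, hG2, -⟩ := exists_sol hL hper A le_rfl h3
    have hz : ∀ d' X e, IsDir (gradient (UU P 0) X) e →
        spat f A d' (UU P 0) X e = 1 + A * f 0 * P 2 := by
      intro d' X e he
      rw [spat_zero hP h3 f A d' X e he, hne (X 0, X 1) 0]
    obtain ⟨C1, h1⟩ := lower hG1 _ (contDiff_UU P _) (UU_per P _) _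
      fun X e he => (hz d X e he).le
    obtain ⟨C2, h2⟩ := upper hG2 _ (contDiff_UU P _) (UU_per P _) _
      fun X e he => (hz 0 X e he).ge
    obtain ⟨C3, h4⟩ := lower hG2 _ (contDiff_UU P _) (UU_per P _) _
      fun X e he => (hz 0 X e he).le
    have a1 := velocity_le h1 (hG G hG1)
    have a2 := hG0 G0 _ hG2 (velocity_of_bounds h2 h4)
    have a3 : 0 < c * (2 * π) * d := by positivity
    linarith only [a1, a2, a3]
  · have h1 := (hδ' x).2.1
    rw [← hAf, abs_mul] at h1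
    exact le_of_mul_le_mul_right h1 (abs_pos.2 h3)

end Pool.Agent.Work.MP_d0383e_an.Dir
end

-- merged part: Pool.Agent.Work.MP_d0383e_an.Dir.Vert
section
/-!
In the vertical directions curvature strictly lowers the burning velocity.
-/

namespace Pool.Agent.Work.MP_d0383e_an.Dir

open scoped ContDiff Laplacian Topology
open Filter Set Real

/-- Maximum principle on a bounded time interval, tested only where the function is positive. -/
theorem max_principle_loc (g : E3 × ℝ → ℝ) (hc : ContinuousOn g (univ ×ˢ Ici 0))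
    (hp : ∀ (k : Fin 3 → ℤ) (X : E3) (t : ℝ), 0 ≤ t → g (X + latt k, t) = g (X, t))
    (h0 : ∀ X, g (X, 0) ≤ 0) {t1 : ℝ} (ht1 : 0 ≤ t1)
    (hno : ∀ (η lam : ℝ), 0 < η → 0 < lam → ∀ (X : E3) (t : ℝ), 0 < t → t < t1 + 1 →
      0 < g (X, t) →
      ¬ IsLocalMax (fun z : E3 × ℝ => g z - η * Real.exp (lam * (z.2 - t1))) (X, t)) :
    ∀ X, g (X, t1) ≤ 0 := by
  intro X1
  by_contra hpos
  push Not at hpos
  set K : Set (E3 × ℝ) := Metric.closedBall (0 : E3) 2 ×ˢ Icc 0 (t1 + 1) with hK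
  have hKc : IsCompact K := (isCompact_closedBall _ _).prod isCompact_Icc
  have hKs : K ⊆ univ ×ˢ Ici 0 := fun z hz => ⟨mem_univ _, hz.2.1⟩
  obtain ⟨M, hM⟩ := hKc.exists_bound_of_continuousOn (hc.mono hKs)
  set η := g (X1, t1) / 2 with hη
  have hη0 : 0 < η := by positivity
  set lam := (|M| + 1) / η with hlam
  have hlam0 : 0 < lam := by positivity
  set F : E3 × ℝ → ℝ := fun z => g z - η * Real.exp (lam * (z.2 - t1)) with hF
  have hFc : ContinuousOn F K := (hc.mono hKs).sub (by fun_prop)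
  have hne : K.Nonempty := ⟨(0, 0), by simp [hK]; linarith only [ht1]⟩
  obtain ⟨z0, hz0, hmax⟩ := hKc.exists_isMaxOn hne hFc
  have hall : ∀ X t, 0 ≤ t → t ≤ t1 + 1 → F (X, t) ≤ F z0 := by
    intro X t h1 h2
    obtain ⟨k, hk⟩ := exists_latt X
    have := hmax (show (X + latt k, t) ∈ K from ⟨hk, h1, h2⟩)
    simp only [hF, mem_ofPred_eq] at this ⊢
    rw [hp k X t h1] at this
    exact this
  have hF0 : 0 < F z0 := by
    have := hall X1 t1 ht1 (by linarith)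
    simp only [hF, sub_self, mul_zero, Real.exp_zero, mul_one] at this ⊢
    linarith only [hη, hη0, this]
  obtain ⟨X0, t0⟩ := z0
  have ht0 : 0 < t0 := by
    rcases hz0.2.1.lt_or_eq with h | h
    · exact h
    · exfalso
      simp only at h
      subst h
      have := h0 X0
      have h2 : 0 < η * Real.exp (lam * (0 - t1)) := by positivity
      simp only [hF] at hF0
      linarith only [this, h2, hF0]
  have ht0' : t0 < t1 + 1 := by
    rcases hz0.2.2.lt_or_eq with h | h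
    · exact h
    · exfalso
      simp only at h
      subst h
      have h1 := hM _ hz0
      have h2 : lam + 1 ≤ Real.exp lam := Real.add_one_le_exp lam
      have h3 : η * lam = |M| + 1 := by rw [hlam]; field_simp
      simp only [hF, add_sub_cancel_left, mul_one] at hF0
      have h4 := le_abs_self M
      have h5 := (abs_le.1 h1).2
      linarith only [hη0, h3, hF0, h4, h5, hpos, h2, hη, mul_nonneg_of_nonpos_of_nonpos (le_of_lt (Mathlib.Tactic.Linarith.sub_neg_of_lt hpos)) (Mathlib.Tactic.Linarith.sub_nonpos_of_le h2), Mathlib.Tactic.Linarith.zero_mul_eq (sub_eq_zero_of_eq hη) (Mathlib.Tactic.Linarith.sub_nonpos_of_le h2)]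
  have hg0 : 0 < g (X0, t0) := by
    have h2 : 0 < η * Real.exp (lam * (t0 - t1)) := by positivity
    simp only [hF] at hF0
    linarith only [h2, hF0]
  refine hno η lam hη0 hlam0 X0 t0 ht0 ht0' hg0 ?_
  have hn : ∀ᶠ z : E3 × ℝ in 𝓝 (X0, t0), z.2 ∈ Ioo 0 (t1 + 1) :=
    continuous_snd.continuousAt.eventually (isOpen_Ioo.mem_nhds ⟨ht0, ht0'⟩)
  filter_upwards [hn] with z hz
  exact hall z.1 z.2 hz.1.le hz.2.le

noncomputable def c1 (a : ℝ × ℝ) : Sm := Co (1, 0) (-(2 * π * a.1))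
noncomputable def s1 (a : ℝ × ℝ) : Sm := Si (1, 0) (-(2 * π * a.1))
noncomputable def c2 (a : ℝ × ℝ) : Sm := Co (0, 1) (-(2 * π * a.2))
noncomputable def s2 (a : ℝ × ℝ) : Sm := Si (0, 1) (-(2 * π * a.2))

theorem evx_fract (x : ℝ × ℝ) (F : Sm) : evx (Int.fract x.1, Int.fract x.2) F = evx x F :=
  (Sm.fract F x).symm

theorem cont_evx (F : Sm) : Continuous fun x => evx x F := Sm.cont F

theorem per_fract {g : ℝ × ℝ → ℝ} (hper : ∀ (x y : ℝ) (m n : ℤ), g (x + m, y + n) = g (x, y))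
    (x : ℝ × ℝ) : g (Int.fract x.1, Int.fract x.2) = g x := by
  rw [← hper _ _ ⌊x.1⌋ ⌊x.2⌋]; simp

theorem fract_mem (x : ℝ × ℝ) :
    (Int.fract x.1, Int.fract x.2) ∈ Icc (0 : ℝ) 1 ×ˢ Icc (0 : ℝ) 1 :=
  ⟨⟨Int.fract_nonneg _, (Int.fract_lt_one _).le⟩, ⟨Int.fract_nonneg _, (Int.fract_lt_one _).le⟩⟩

theorem cs1 (a x : ℝ × ℝ) : evx x (c1 a) ^ 2 + evx x (s1 a) ^ 2 = 1 := cos_sq_add_sin_sq _
theorem cs2 (a x : ℝ × ℝ) : evx x (c2 a) ^ 2 + evx x (s2 a) ^ 2 = 1 := cos_sq_add_sin_sq _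

theorem c1_eq (a x : ℝ × ℝ) : evx x (c1 a) = cos (2 * π * (x.1 - a.1)) := by
  change cos (ph _ _ x) = _
  congr 1; simp [ph]; ring

theorem c2_eq (a x : ℝ × ℝ) : evx x (c2 a) = cos (2 * π * (x.2 - a.2)) := by
  change cos (ph _ _ x) = _
  congr 1; simp [ph]; ring

theorem near_of_small {g : ℝ × ℝ → ℝ} (hc : Continuous g)
    (hper : ∀ (x y : ℝ) (m n : ℤ), g (x + m, y + n) = g (x, y)) (a : ℝ × ℝ) {ρ : ℝ}
    (hρ : 0 < ρ) : ∃ κ, 0 < κ ∧ ∀ x, 2 - evx x (c1 a) - evx x (c2 a) < κ → |g x - g a| < ρ := by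
  have hK : IsCompact ((Icc (0 : ℝ) 1 ×ˢ Icc (0 : ℝ) 1) ∩ {x | ρ ≤ |g x - g a|}) :=
    (isCompact_Icc.prod isCompact_Icc).inter_right
      (isClosed_le continuous_const (hc.sub continuous_const).abs)
  have hcu : Continuous fun x => 2 - evx x (c1 a) - evx x (c2 a) :=
    (continuous_const.sub (cont_evx _)).sub (cont_evx _)
  obtain ⟨κ, hκ, h⟩ := hK.exists_forall_le' hcu.continuousOn (a := 0) (by
    rintro x ⟨-, hx⟩
    by_contra hle
    rw [c1_eq, c2_eq] at hle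
    have h1 := cos_le_one (2 * π * (x.1 - a.1))
    have h2 := cos_le_one (2 * π * (x.2 - a.2))
    obtain ⟨m, hm⟩ := (cos_eq_one_iff _).1 (show cos (2 * π * (x.1 - a.1)) = 1 by linarith)
    obtain ⟨n, hn⟩ := (cos_eq_one_iff _).1 (show cos (2 * π * (x.2 - a.2)) = 1 by linarith)
    have hpi := pi_pos
    have e1 : x.1 = a.1 + m := by
      have : (2 * π) * (x.1 - (a.1 + m)) = 0 := by linarith only [hm]
      have := (mul_eq_zero.1 this).resolve_left (by positivity)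
      linarith only [this]
    have e2 : x.2 = a.2 + n := by
      have : (2 * π) * (x.2 - (a.2 + n)) = 0 := by linarith only [hn]
      have := (mul_eq_zero.1 this).resolve_left (by positivity)
      linarith only [this]
    have e : g x = g a := by
      rw [show x = (a.1 + m, a.2 + n) from Prod.ext e1 e2, hper]
    simp only [mem_ofPred_eq, e, sub_self, abs_zero] at hx
    linarith)
  refine ⟨κ, hκ, fun x hx => ?_⟩
  by_contra hle
  have := h _ ⟨fract_mem x, by simpa only [mem_ofPred_eq, per_fract hper, not_lt] using hle⟩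
  simp only [evx_fract] at this
  linarith

theorem velocity_ge {f : ℝ × ℝ → ℝ} (hc : Continuous f)
    (hper : ∀ (x y : ℝ) (m n : ℤ), f (x + m, y + n) = f (x, y)) {A : ℝ} {P : E3} (hP : ‖P‖ = 1)
    (h3 : P 2 ≠ 0) {G : E3 × ℝ → ℝ} (hG : IsViscSol f A 0 P G) {H : ℝ}
    (hH : HasBurningVelocity P G H) (a : ℝ × ℝ) : |P 2| + A * f a * P 2 ≤ H := by
  refine le_of_forall_pos_le_add fun ρ hρ => ?_
  have hgc : Continuous fun x => A * f x * P 2 := by fun_prop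
  have hgp : ∀ (x y : ℝ) (m n : ℤ),
      (fun x => A * f x * P 2) (x + m, y + n) = (fun x => A * f x * P 2) (x, y) := by
    intro x y m n; simp only [hper]
  obtain ⟨κ, hκ, hnear⟩ := near_of_small hgc hgp a hρ
  obtain ⟨B, hB⟩ := bounded_of_per (fun X : E3 => A * f (X 0, X 1) * P 2) (by fun_prop)
    (fun k X => by simp only [PiLp.add_apply, latt, hper])
  obtain ⟨C, hC⟩ := upper hG _ (contDiff_UU P 0) (UU_per P 0) (-B) fun X e he => by
    rw [spat_zero hP h3 f A 0 X e he]; linarith [(abs_le.1 (hB X)).1]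
  set h := |P 2| + A * f a * P 2 - ρ with hh
  have hpi := pi_pos
  have key : ∀ t1, 0 ≤ t1 → ∀ X : E3, (X 0, X 1) = a →
      G (X, t1) - inner ℝ P X ≤ 0 - h * t1 := by
    intro t1 ht1 X0 hX0
    set R := |C| + (|B| + |h|) * (t1 + 1) with hR
    have hR0 : 0 ≤ R := by positivity
    set M := 2 * π * (R / κ) with hM
    set w : Sm := M • ((2 : ℝ) • (1 : Sm) - c1 a - c2 a) with hw
    have hwv : ∀ x, (2 * π)⁻¹ * w.1 x = R / κ * (2 - evx x (c1 a) - evx x (c2 a)) := by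
      intro x
      rw [← evx_apply, hw, hM]
      simp only [map_smul, map_sub, map_one, smul_eq_mul]
      field_simp
    have hU := contDiff_UU P w
    have k2 := max_principle_loc (fun z => G z - (UU P w z.1 + (0 - h * z.2)))
      (hG.cont.sub (Continuous.continuousOn (by have := hU.continuous; fun_prop)))
      (fun k X t ht => by have := hG.per k X t ht; have := UU_per P w k X; simp only; linarith)
      (fun X => by
        have h1 : 0 ≤ 2 - evx (X 0, X 1) (c1 a) - evx (X 0, X 1) (c2 a) := by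
          rw [c1_eq, c2_eq]
          linarith only [cos_le_one (2 * π * ((X 0, X 1).1 - a.1)),
            cos_le_one (2 * π * ((X 0, X 1).2 - a.2))]
        have h2 := mul_nonneg (div_nonneg hR0 hκ.le) h1
        simp only [hG.init, UU, hwv]; linarith only [h2]) ht1
      (fun η lam hη hlam X t ht ht' hpos hloc => by
        obtain ⟨e, he, hle⟩ := hG.sub
          (fun z => UU P w z.1 + (0 + (-(h * z.2) + η * Real.exp (lam * (z.2 - t1)))))
          (by fun_prop) X t ht (by convert hloc using 2; ring)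
        simp only at he hle
        rw [(spat_add_const f A 0 (UU P w) _ X e).1] at he
        rw [(spat_add_const f A 0 (UU P w) _ X e).2] at hle
        have hd := ((hasDerivAt_time 0 h η lam t1 t).const_add (UU P w X)).deriv
        rw [hd, spat_UU h3 w f A 0 X e he, mul_zero, zero_mul, sub_zero,
          max_eq_left (sqrt_nonneg _)] at hle
        have h2 : 0 < η * (Real.exp (lam * (t - t1)) * lam) := by positivity
        have h4 : |P 2| ≤ √(WW P w (X 0, X 1)) := by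
          apply Real.abs_le_sqrt
          unfold WW
          linarith only [sq_nonneg (P 0 + evx (X 0, X 1) (dx w)), sq_nonneg (P 1 + evx (X 0, X 1) (dy w)), sq_nonneg (P.ofLp (1 : Fin (3 : ℕ)) + (evx (X.ofLp (0 : Fin (3 : ℕ)), X.ofLp (1 : Fin (3 : ℕ)))) (dy w)), sq_nonneg (P.ofLp (0 : Fin (3 : ℕ)) + (evx (X.ofLp (0 : Fin (3 : ℕ)), X.ofLp (1 : Fin (3 : ℕ)))) (dx w))]
        have h5 : 2 - evx (X 0, X 1) (c1 a) - evx (X 0, X 1) (c2 a) < κ := by
          by_contra hge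
          push Not at hge
          have h6 : R ≤ R / κ * (2 - evx (X 0, X 1) (c1 a) - evx (X 0, X 1) (c2 a)) := by
            have := mul_le_mul_of_nonneg_left hge (div_nonneg hR0 hκ.le)
            rwa [div_mul_cancel₀ _ hκ.ne'] at this
          have h7 := hC X t ht.le
          simp only [UU, hwv] at hpos
          have h8 : (B + h) * t ≤ (|B| + |h|) * (t1 + 1) :=
            (mul_le_mul_of_nonneg_right (add_le_add (le_abs_self B) (le_abs_self h)) ht.le).trans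
              (mul_le_mul_of_nonneg_left ht'.le (by positivity))
          have h9 := le_abs_self C
          linarith only [h6, h7, hpos, h8, h9]
        have h6 := (abs_lt.1 (hnear _ h5)).1
        linarith only [hle, h2, h4, h6]) X0
    have h1 : evx (X0 0, X0 1) (c1 a) = 1 := by rw [c1_eq, hX0]; simp
    have h2 : evx (X0 0, X0 1) (c2 a) = 1 := by rw [c2_eq, hX0]; simp
    simp only [UU, hwv, h1, h2] at k2
    linarith only [k2]
  have hlim : h ≤ H := by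
    refine ge_of_tendsto (hH !₂[a.1, a.2, 0]) ?_
    filter_upwards [eventually_gt_atTop 0] with t ht
    have := key t ht.le !₂[a.1, a.2, 0] (by simp)
    rw [← neg_div, le_div_iff₀ ht]
    linarith
  linarith

theorem Q_lower {c s M : ℝ} (h : c ^ 2 + s ^ 2 = 1) (hM : 4 ≤ M) :
    M * (c ^ 2 - c - 1 / 2 + M * (1 - c ^ 2) / 4) ≤
      M ^ 2 * s ^ 2 * (1 - c / 2) ^ 2 + M * (-c + (c ^ 2 - s ^ 2) / 2) := by
  have hs : s ^ 2 = 1 - c ^ 2 := by linarith
  have hc : c ≤ 1 := by (refine le_of_not_gt fun h_nl => ?_; linarith only [h_nl, h, sq_nonneg s, sq_nonneg s, mul_pos_of_neg_of_neg (Mathlib.Tactic.Linarith.sub_neg_of_lt h_nl) (Mathlib.Tactic.Linarith.sub_neg_of_lt h_nl)])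
  have h1 : 1 / 4 ≤ (1 - c / 2) ^ 2 := by (refine le_of_not_gt fun h_nl => ?_; linarith only [h_nl, h, hc, Mathlib.Tactic.Linarith.mul_zero_eq (Mathlib.Tactic.Linarith.sub_nonpos_of_le (sq_nonneg c)) (sub_eq_zero_of_eq h), mul_nonneg_of_nonpos_of_nonpos (Mathlib.Tactic.Linarith.sub_nonpos_of_le (sq_nonneg c)) (le_of_lt (Mathlib.Tactic.Linarith.sub_neg_of_lt h_nl)), mul_nonneg_of_nonpos_of_nonpos (Mathlib.Tactic.Linarith.sub_nonpos_of_le (sq_nonneg ((2 : ℝ) * (1 : ℝ) - (1 : ℝ) * c))) (Mathlib.Tactic.Linarith.sub_nonpos_of_le hc), mul_nonneg_of_nonpos_of_nonpos (Mathlib.Tactic.Linarith.sub_nonpos_of_le (sq_nonneg s)) (Mathlib.Tactic.Linarith.sub_nonpos_of_le (sq_nonneg s)), Mathlib.Tactic.Linarith.mul_zero_eq (Mathlib.Tactic.Linarith.sub_nonpos_of_le (sq_nonneg s)) (sub_eq_zero_of_eq h)])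
  have h2 : 0 ≤ M ^ 2 * s ^ 2 := by positivity
  have h3 := mul_le_mul_of_nonneg_left h1 h2
  rw [hs] at h3 ⊢
  linarith only [h3]

theorem R_lower {c s M : ℝ} (h : c ^ 2 + s ^ 2 = 1) (hM : 4 ≤ M) :
    -(1 / 2) ≤ c ^ 2 - c - 1 / 2 + M * (1 - c ^ 2) / 4 := by
  have hc : c ≤ 1 := by (refine le_of_not_gt fun h_nl => ?_; linarith only [h_nl, h, sq_nonneg s, sq_nonneg s, mul_pos_of_neg_of_neg (Mathlib.Tactic.Linarith.sub_neg_of_lt h_nl) (Mathlib.Tactic.Linarith.sub_neg_of_lt h_nl)])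
  have h1 : 0 ≤ (M - 4) * (1 - c ^ 2) := mul_nonneg (by linarith) (by nlinarith [sq_nonneg s])
  linarith only [hc, h1]

theorem R_lower' {c s M κ : ℝ} (h : c ^ 2 + s ^ 2 = 1) (hM : 4 ≤ M) (hκ : 0 < κ)
    (hMκ : 28 ≤ M * κ) (hc : κ / 2 ≤ 1 - c) :
    1 ≤ c ^ 2 - c - 1 / 2 + M * (1 - c ^ 2) / 4 := by
  have h1 : 0 ≤ (M - 4) * (1 - c ^ 2) := mul_nonneg (by linarith only [hM]) (by linarith only [h, sq_nonneg s, sq_nonneg s])
  rcases le_total c (-1 / 2) with h2 | h2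
  · linarith only [h1, h2]
  · have h3 : κ / 4 ≤ 1 - c ^ 2 := by linarith only [hc, hκ, h2, mul_nonneg_of_nonpos_of_nonpos (le_of_lt (Mathlib.Tactic.Linarith.sub_neg_of_lt hκ)) (Mathlib.Tactic.Linarith.sub_nonpos_of_le h2), mul_nonneg_of_nonpos_of_nonpos (Mathlib.Tactic.Linarith.sub_nonpos_of_le hc) (Mathlib.Tactic.Linarith.sub_nonpos_of_le h2)]
    have h4 := mul_le_mul_of_nonneg_left h3 (show 0 ≤ M by linarith only [hM])
    linarith only [hMκ, h4, sq_nonneg (c - 1 / 2), sq_nonneg ((2 : ℝ) * c - (1 : ℝ) * (1 : ℝ))]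

/-- A smooth periodic function that is strictly subharmonic away from a small neighbourhood of
the lattice `a + ℤ²`. -/
theorem exists_subharmonic (a : ℝ × ℝ) {κ : ℝ} (hκ : 0 < κ) : ∃ u : Sm, ∀ x,
    κ ≤ 2 - evx x (c1 a) - evx x (c2 a) → 0 < evx x (dx (dx u)) + evx x (dy (dy u)) := by
  set M := 4 + 28 / κ with hM
  have hM4 : 4 ≤ M := by have : 0 < 28 / κ := by positivity
                         linarith only [this]
  have hMκ : 28 ≤ M * κ := by
    rw [hM, add_mul, div_mul_cancel₀ _ hκ.ne']; linarith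
  set b : Sm := M • (c1 a - (1 / 4 : ℝ) • (c1 a * c1 a)) +
    M • (c2 a - (1 / 4 : ℝ) • (c2 a * c2 a)) with hb
  refine ⟨Ex b, fun x hx => ?_⟩
  have hE : 0 < evx x (Ex b) := exp_pos _
  have e : evx x (dx (dx (Ex b))) + evx x (dy (dy (Ex b))) = evx x (Ex b) *
      ((M ^ 2 * evx x (s1 a) ^ 2 * (1 - evx x (c1 a) / 2) ^ 2 +
        M * (-evx x (c1 a) + (evx x (c1 a) ^ 2 - evx x (s1 a) ^ 2) / 2)) +
      (M ^ 2 * evx x (s2 a) ^ 2 * (1 - evx x (c2 a) / 2) ^ 2 +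
        M * (-evx x (c2 a) + (evx x (c2 a) ^ 2 - evx x (s2 a) ^ 2) / 2))) := by
    simp only [Dv_Ex, Dv_mul, map_add, map_mul]
    simp only [hb, c1, c2, s1, s2, Dv_mul, Dv_Co, Dv_Si, map_add, map_sub, map_smul, map_mul,
      smul_eq_mul]
    push_cast
    ring
  rw [e]
  refine mul_pos hE ?_
  have q1 := Q_lower (cs1 a x) hM4
  have q2 := Q_lower (cs2 a x) hM4
  have r1 := R_lower (cs1 a x) hM4
  have r2 := R_lower (cs2 a x) hM4
  have hM0 : 0 < M := by linarith only [hM4]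
  rcases le_total (κ / 2) (1 - evx x (c1 a)) with h1 | h1
  · have r3 := R_lower' (cs1 a x) hM4 hκ hMκ h1
    linarith only [q1, q2, r2, r3, hM4, r1, mul_nonneg_of_nonpos_of_nonpos (Mathlib.Tactic.Linarith.sub_nonpos_of_le hM4) (Mathlib.Tactic.Linarith.sub_nonpos_of_le r1), mul_nonneg_of_nonpos_of_nonpos (Mathlib.Tactic.Linarith.sub_nonpos_of_le hM4) (Mathlib.Tactic.Linarith.sub_nonpos_of_le r2), mul_nonneg_of_nonpos_of_nonpos (Mathlib.Tactic.Linarith.sub_nonpos_of_le hM4) (Mathlib.Tactic.Linarith.sub_nonpos_of_le r3)]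
  · have r3 := R_lower' (cs2 a x) hM4 hκ hMκ (by linarith only [hx, h1])
    linarith only [q1, q2, r1, r3, hM4, r2, mul_nonneg_of_nonpos_of_nonpos (Mathlib.Tactic.Linarith.sub_nonpos_of_le hM4) (Mathlib.Tactic.Linarith.sub_nonpos_of_le r1), mul_nonneg_of_nonpos_of_nonpos (Mathlib.Tactic.Linarith.sub_nonpos_of_le hM4) (Mathlib.Tactic.Linarith.sub_nonpos_of_le r2), mul_nonneg_of_nonpos_of_nonpos (Mathlib.Tactic.Linarith.sub_nonpos_of_le hM4) (Mathlib.Tactic.Linarith.sub_nonpos_of_le r3)]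

theorem slowdown {f : ℝ × ℝ → ℝ} (hc : Continuous f)
    (hper : ∀ (x y : ℝ) (m n : ℤ), f (x + m, y + n) = f (x, y)) (hne : ∃ x y, f x ≠ f y)
    {A d : ℝ} (hA : 0 < A) (hd : 0 < d) {P : E3} (hP : ‖P‖ = 1) (h0 : P 0 = 0) (h1 : P 1 = 0)
    {G G₀ : E3 × ℝ → ℝ} {H H₀ : ℝ} (hG : IsViscSol f A d P G) (hH : HasBurningVelocity P G H)
    (hG₀ : IsViscSol f A 0 P G₀) (hH₀ : HasBurningVelocity P G₀ H₀) : H < H₀ := by
  have hp : P 2 ^ 2 = 1 := by have := norm_sq_eq hP; rw [h0, h1] at this; linarith only [this]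
  have h3 : P 2 ≠ 0 := by intro h; rw [h] at hp; norm_num at hp
  have hab : |P 2| = 1 := by
    have := sq_abs (P 2)
    have h2 := abs_nonneg (P 2)
    nlinarith
  set g : ℝ × ℝ → ℝ := fun x => A * f x * P 2 with hg
  have hgc : Continuous g := by simp only [hg]; fun_prop
  have hgp : ∀ (x y : ℝ) (m n : ℤ), g (x + m, y + n) = g (x, y) := by
    intro x y m n; simp only [hg, hper]
  have hsq : IsCompact (Icc (0 : ℝ) 1 ×ˢ Icc (0 : ℝ) 1) := isCompact_Icc.prod isCompact_Icc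
  obtain ⟨x0, -, hx0⟩ := hsq.exists_isMaxOn ⟨_, fract_mem 0⟩ hgc.continuousOn
  have hmax : ∀ x, g x ≤ g x0 := fun x => by
    rw [← per_fract hgp x]; exact hx0 (fract_mem x)
  obtain ⟨a, ha⟩ : ∃ a, g a < g x0 := by
    by_contra hn
    push Not at hn
    obtain ⟨x, y, hxy⟩ := hne
    have e : g x = g y := by linarith only [hmax, hn, hmax x, hmax y, hn x, hn y]
    exact hxy (mul_left_cancel₀ hA.ne' (mul_right_cancel₀ h3 e))
  obtain ⟨κ, hκ, hnear⟩ := near_of_small hgc hgp a (sub_pos.2 ha)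
  obtain ⟨u, hu⟩ := exists_subharmonic a hκ
  have hpi := pi_pos
  set R : ℝ × (ℝ × ℝ) → ℝ := fun q =>
    2 * π * d * (evx q.2 (dx (dx u)) + evx q.2 (dy (dy u))) -
      q.1 * ((evx q.2 (dx u) ^ 2 + evx q.2 (dy u) ^ 2) / 2 + 1) -
      2 * π * d * q.1 ^ 2 * (evx q.2 (dx u) ^ 2 * evx q.2 (dx (dx u)) +
        2 * evx q.2 (dx u) * evx q.2 (dy u) * evx q.2 (dy (dx u)) +
        evx q.2 (dy u) ^ 2 * evx q.2 (dy (dy u))) /
        (q.1 ^ 2 * (evx q.2 (dx u) ^ 2 + evx q.2 (dy u) ^ 2) + 1) with hR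
  have hRc : Continuous R := by
    have k1 := cont_evx (dx u)
    have k2 := cont_evx (dy u)
    have k3 := cont_evx (dx (dx u))
    have k4 := cont_evx (dy (dx u))
    have k5 := cont_evx (dy (dy u))
    simp only [hR]
    refine Continuous.sub (by fun_prop) (Continuous.div (by fun_prop) (by fun_prop) fun q => ?_)
    positivity
  have hev : ∀ᶠ η in 𝓝 (0 : ℝ), ∀ x ∈ Icc (0 : ℝ) 1 ×ˢ Icc (0 : ℝ) 1,
      0 ≤ η → 0 ≤ g x0 - g x + η * R (η, x) := by
    refine hsq.eventually_forall_of_forall_eventually fun x _ => ?_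
    rcases (hmax x).lt_or_eq with hx | hx
    · have hq : Continuous fun q : ℝ × (ℝ × ℝ) => g x0 - g q.2 + q.1 * R q := by fun_prop
      filter_upwards [hq.continuousAt.eventually (lt_mem_nhds
        (show (0 : ℝ) < (fun q : ℝ × (ℝ × ℝ) => g x0 - g q.2 + q.1 * R q) (0, x) by
          simpa using hx))] with q hq _ using hq.le
    · have h5 : κ ≤ 2 - evx x (c1 a) - evx x (c2 a) := by
        by_contra hlt
        have := (abs_lt.1 (hnear x (not_le.1 hlt))).2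
        linarith only [hx, this]
      have h6 : 0 < R (0, x) := by
        have := mul_pos (show 0 < 2 * π * d by positivity) (hu x h5)
        simpa [hR] using this
      filter_upwards [hRc.continuousAt.eventually (lt_mem_nhds h6)] with q hq hq0
      have := mul_nonneg hq0 hq.le
      linarith only [this, hmax, hmax q.2]
  obtain ⟨r, hr, hev⟩ := exists_pos_of_ev (hev.and (Iio_mem_nhds (show (0 : ℝ) < 1 by norm_num)))
  obtain ⟨hQ, hη1⟩ := hev (r / 2) (by positivity) (by linarith only [hr])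
  set η := r / 2 with hη
  have hη0 : 0 < η := by positivity
  have hη1 : η < 1 := hη1
  have hQ' : ∀ x, 0 ≤ g x0 - g x + η * R (η, x) := by
    intro x
    have := hQ _ (fract_mem x) hη0.le
    simpa only [hR, evx_fract, per_fract hgp] using this
  obtain ⟨C, hC⟩ := lower hG _ (contDiff_UU P (η • u)) (UU_per P _) (1 + g x0 - η ^ 2)
    fun X e he => by
      rw [spat_UU h3 _ f A d X e he]
      change max _ 0 + g (X 0, X 1) ≤ _
      set x : ℝ × ℝ := (X 0, X 1)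
      have eW : WW P (η • u) x = η ^ 2 * (evx x (dx u) ^ 2 + evx x (dy u) ^ 2) + 1 := by
        simp only [WW, h0, h1, hp, map_smul, smul_eq_mul]; ring
      have hW : √(WW P (η • u) x) ≤ 1 + η ^ 2 * (evx x (dx u) ^ 2 + evx x (dy u) ^ 2) / 2 := by
        rw [eW]
        apply Real.sqrt_le_iff.2 ⟨by positivity, ?_⟩
        linarith only [sq_nonneg (η ^ 2 * (evx x (dx u) ^ 2 + evx x (dy u) ^ 2)), sq_nonneg (η ^ (2 : ℕ) * ((evx x) (dx u) ^ (2 : ℕ) + (evx x) (dy u) ^ (2 : ℕ)))]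
      have eK : 2 * π * d * (Kw P (η • u) x / WW P (η • u) x) =
          η * R (η, x) + η ^ 2 * ((evx x (dx u) ^ 2 + evx x (dy u) ^ 2) / 2 + 1) := by
        rw [Kw, eW]
        simp only [hR, h0, h1, map_smul, smul_eq_mul]
        field_simp
        ring
      have h7 := hQ' x
      have h8 := hmax x
      rw [← le_sub_iff_add_le, max_le_iff]
      constructor
      · rw [eK]; linarith only [hW, h7]
      · nlinarith
  have b1 := velocity_le hC hH
  have b2 := velocity_ge hc hper hP h3 hG₀ hH₀ x0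
  rw [hab] at b2
  change 1 + g x0 ≤ H₀ at b2
  nlinarith

end Pool.Agent.Work.MP_d0383e_an.Dir
end
end
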